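import Pool.Agent.Lib.MP_6bc78b_nt.GP.H6.Defs5
import Pool.Agent.Lib.MP_6bc78b_nt.GP.H32.Plt

/-! Project GP5, module BOX: Plancherel for the averages of `S_E` over intervals. -/

set_option autoImplicit false

open Complex Filter Topology MeasureTheory Set
open scoped ENNReal

namespace Pool.Agent.Lib.MP_6bc78b_nt.GP.H91B

open Pool.Agent.Lib.MP_6bc78b_nt.GP

/-- The transform of the indicator function of `[-lam, lam]`. -/
noncomputable def sn (lam u : ℝ) : ℂ := ∫ v in (-lam)..lam, Complex.exp (u * v * I)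

theorem norm_e (x : ℝ) : ‖Complex.exp (x * I)‖ = 1 := Complex.norm_exp_ofReal_mul_I x

theorem norm_e2 (x y : ℝ) : ‖Complex.exp (x * y * I)‖ = 1 := by
  rw [← Complex.ofReal_mul]
  exact norm_e _

theorem sn_le1 {lam : ℝ} (hl : 0 < lam) (u : ℝ) : ‖sn lam u‖ ≤ 2 * lam := by
  unfold sn
  have h := intervalIntegral.norm_integral_le_of_norm_le_const (a := -lam) (b := lam) (C := 1)
    (f := fun v : ℝ => Complex.exp (u * v * I)) (fun v _ => (norm_e2 u v).le)
  refine h.trans (le_of_eq ?_)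
  rw [abs_of_pos (by linarith)]
  ring

theorem sn_le2 (lam : ℝ) {u : ℝ} (hu : u ≠ 0) : ‖sn lam u‖ ≤ 2 / |u| := by
  have h0 : (u : ℂ) * I ≠ 0 := mul_ne_zero (Complex.ofReal_ne_zero.2 hu) I_ne_zero
  have h1 : sn lam u = (Complex.exp (u * I * lam) - Complex.exp (u * I * (-lam : ℝ))) / (u * I) := by
    unfold sn
    rw [← integral_exp_mul_complex h0]
    refine intervalIntegral.integral_congr fun v _ => ?_
    show Complex.exp (u * v * I) = Complex.exp (u * I * v)
    rw [mul_right_comm]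
  have e1 : ∀ v : ℝ, ‖Complex.exp (u * I * v)‖ = 1 := fun v => by
    rw [mul_right_comm]
    exact norm_e2 u v
  rw [h1, norm_div]
  have h2 : ‖(u : ℂ) * I‖ = |u| := by
    rw [norm_mul, Complex.norm_I, mul_one, Complex.norm_real, Real.norm_eq_abs]
  rw [h2]
  have h3 : 0 < |u| := abs_pos.2 hu
  refine div_le_div_of_nonneg_right ?_ h3.le
  calc ‖Complex.exp (u * I * lam) - Complex.exp (u * I * (-lam : ℝ))‖ ≤
      ‖Complex.exp (u * I * lam)‖ + ‖Complex.exp (u * I * (-lam : ℝ))‖ := norm_sub_le _ _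
    _ = 2 := by rw [e1, e1]; norm_num

theorem sn_sq {lam : ℝ} (hl : 0 < lam) (u : ℝ) :
    ‖sn lam u‖ ^ 2 ≤ 8 * lam ^ 2 / (1 + lam ^ 2 * u ^ 2) := by
  have hp : 0 < 1 + lam ^ 2 * u ^ 2 := by positivity
  rw [le_div_iff₀ hp]
  have h0 := norm_nonneg (sn lam u)
  by_cases hc : lam ^ 2 * u ^ 2 ≤ 1
  · have h1 := sn_le1 hl u
    have h2 : ‖sn lam u‖ ^ 2 ≤ (2 * lam) ^ 2 := pow_le_pow_left₀ h0 h1 2
    calc ‖sn lam u‖ ^ 2 * (1 + lam ^ 2 * u ^ 2) ≤ (2 * lam) ^ 2 * 2 :=
          mul_le_mul h2 (by linarith) hp.le (by positivity)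
      _ = 8 * lam ^ 2 := by ring
  · push Not at hc
    have hu : u ≠ 0 := by
      rintro rfl
      norm_num at hc
    have h3 : 0 < |u| := abs_pos.2 hu
    have h1 := sn_le2 lam hu
    have h2 : ‖sn lam u‖ ^ 2 ≤ (2 / |u|) ^ 2 := pow_le_pow_left₀ h0 h1 2
    have h4 : (2 / |u|) ^ 2 = 4 / u ^ 2 := by
      rw [div_pow, sq_abs]
      norm_num
    rw [h4] at h2
    have h5 : 0 < u ^ 2 := by positivity
    calc ‖sn lam u‖ ^ 2 * (1 + lam ^ 2 * u ^ 2) ≤ 4 / u ^ 2 * (2 * (lam ^ 2 * u ^ 2)) :=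
          mul_le_mul h2 (by linarith) hp.le (by positivity)
      _ = 8 * lam ^ 2 := by field_simp; norm_num

theorem sn_cont (lam : ℝ) : Continuous (sn lam) := by
  unfold sn
  refine intervalIntegral.continuous_parametric_intervalIntegral_of_continuous' ?_ _ _
  exact Complex.continuous_exp.comp (((Complex.continuous_ofReal.comp continuous_fst).mul
    (Complex.continuous_ofReal.comp continuous_snd)).mul continuous_const)

/-- The density is integrable (from the proof of PLT). -/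
theorem hu_int (h2 : ETRStatement) (A B δ H : ℝ) (hδ : 0 < δ) (hδ2 : δ ≤ 1 / 2) (hH : 0 < H) :
    Integrable (fun u : ℝ => hu A B δ H u) := by
  obtain ⟨hc, C, hC, hb⟩ := h2 A B
  have hcont : Continuous (fun u : ℝ => EE A B (zp u δ)) := hc δ hδ (by linarith)
  have hpi : 0 < Real.sqrt (2 * Real.pi) := Real.sqrt_pos.2 (by positivity)
  have hn : ∀ u : ℝ, ‖hu A B δ H u‖ = H / Real.sqrt (2 * Real.pi) *
      Real.exp (-(H ^ 2 * u ^ 2) / 2 + u / 2) * ‖EE A B (zp u δ)‖ := by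
    intro u
    unfold hu
    rw [norm_mul, Complex.norm_real, Real.norm_eq_abs, abs_of_nonneg (by positivity)]
  have hg := (H32.integrable_gauss_abs (H ^ 2 / 2) (by positivity)).const_mul
    (H / Real.sqrt (2 * Real.pi) * (C / δ ^ 2))
  refine hg.mono' ?_ (Eventually.of_forall fun u => ?_)
  · have : Continuous (fun u : ℝ => hu A B δ H u) := by
      unfold hu
      exact (Complex.continuous_ofReal.comp (by fun_prop)).mul hcont
    exact this.aestronglyMeasurable
  · rw [hn u]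
    have h3 := hb u δ hδ hδ2
    have h4 : Real.exp (-(H ^ 2 * u ^ 2) / 2 + u / 2) * ‖EE A B (zp u δ)‖ ≤
        C / δ ^ 2 * Real.exp (-(H ^ 2 / 2 * u ^ 2) + 3 * |u|) := by
      calc Real.exp (-(H ^ 2 * u ^ 2) / 2 + u / 2) * ‖EE A B (zp u δ)‖
          ≤ Real.exp (-(H ^ 2 * u ^ 2) / 2 + u / 2) * (C * Real.exp (2 * |u|) / δ ^ 2) := by
            gcongr
        _ = C / δ ^ 2 * Real.exp (-(H ^ 2 * u ^ 2) / 2 + u / 2 + 2 * |u|) := by
            rw [Real.exp_add (-(H ^ 2 * u ^ 2) / 2 + u / 2) (2 * |u|)]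
            ring
        _ ≤ C / δ ^ 2 * Real.exp (-(H ^ 2 / 2 * u ^ 2) + 3 * |u|) := by
            refine mul_le_mul_of_nonneg_left (Real.exp_le_exp.2 ?_) (by positivity)
            have h6 := le_abs_self u
            have h7 := abs_nonneg u
            have h8 : H ^ 2 / 2 * u ^ 2 = H ^ 2 * u ^ 2 / 2 := by ring
            rw [h8]
            linarith
    calc H / Real.sqrt (2 * Real.pi) * Real.exp (-(H ^ 2 * u ^ 2) / 2 + u / 2) *
          ‖EE A B (zp u δ)‖
        = H / Real.sqrt (2 * Real.pi) * (Real.exp (-(H ^ 2 * u ^ 2) / 2 + u / 2) *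
          ‖EE A B (zp u δ)‖) := by ring
      _ ≤ H / Real.sqrt (2 * Real.pi) *
          (C / δ ^ 2 * Real.exp (-(H ^ 2 / 2 * u ^ 2) + 3 * |u|)) := by gcongr
      _ = _ := by ring

/-- Fubini: the average of the transform of `g` is the transform of `g` times `sn`. -/
theorem box_eq {g : ℝ → ℂ} (hg : Integrable g) (lam t : ℝ) (hl : 0 < lam) :
    ∫ x in (t - lam)..(t + lam), (∫ u : ℝ, g u * Complex.exp (u * x * I)) =
      ∫ w : ℝ, (g w * sn lam w) * Complex.exp (t * w * I) := by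
  have hle : t - lam ≤ t + lam := by linarith
  rw [MeasureTheory.intervalIntegral_integral_swap
    (f := fun (x : ℝ) (u : ℝ) => g u * Complex.exp (u * x * I))]
  · refine integral_congr_ae (Eventually.of_forall fun u => ?_)
    show ∫ x in (t - lam)..(t + lam), g u * Complex.exp (u * x * I) = _
    have h1 : t - lam = t + -lam := by ring
    rw [h1, ← intervalIntegral.integral_comp_add_left
      (fun x : ℝ => g u * Complex.exp (u * x * I)) t]
    have h2 : ∀ v : ℝ, g u * Complex.exp (u * ((t + v : ℝ) : ℂ) * I) =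
        (g u * Complex.exp (t * u * I)) * Complex.exp (u * v * I) := by
      intro v
      rw [mul_assoc (g u), ← Complex.exp_add]
      congr 2
      push_cast
      ring
    simp only [h2]
    rw [intervalIntegral.integral_const_mul]
    show g u * Complex.exp (t * u * I) * sn lam u = g u * sn lam u * Complex.exp (t * u * I)
    ring
  · rw [uIoc_of_le hle]
    have h1 : Integrable (fun p : ℝ × ℝ => g p.2)
        ((volume.restrict (Ioc (t - lam) (t + lam))).prod volume) :=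
      hg.comp_snd (volume.restrict (Ioc (t - lam) (t + lam)))
    refine h1.mul_bdd (c := 1) ?_ (Eventually.of_forall fun p => (norm_e2 p.2 p.1).le)
    exact (Complex.continuous_exp.comp (((Complex.continuous_ofReal.comp continuous_snd).mul
      (Complex.continuous_ofReal.comp continuous_fst)).mul continuous_const)).aestronglyMeasurable

/-- BOX. -/
theorem box (h1 : PLCStatement) (h2 : ETRStatement) : BOXStatement := by
  intro A B δ H lam hδ hδ2 hH hl
  have hint := hu_int h2 A B δ H hδ hδ2 hH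
  have hg : Integrable (fun u : ℝ => hu A B δ H u * sn lam u) :=
    hint.mul_bdd (c := 2 * lam) (sn_cont lam).aestronglyMeasurable
      (Eventually.of_forall fun u => sn_le1 hl u)
  have hSE : ∀ t : ℝ, ∫ x in (t - lam)..(t + lam), SE A B δ H x =
      ∫ w : ℝ, (hu A B δ H w * sn lam w) * Complex.exp (t * w * I) := fun t =>
    box_eq hint lam t hl
  simp only [hSE]
  refine (h1 _ hg).trans ?_
  have hpi : 0 < Real.pi := Real.pi_pos
  have hn : ∀ u : ℝ, ‖hu A B δ H u‖ = H / Real.sqrt (2 * Real.pi) *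
      Real.exp (-(H ^ 2 * u ^ 2) / 2 + u / 2) * ‖EE A B (zp u δ)‖ := by
    intro u
    unfold hu
    rw [norm_mul, Complex.norm_real, Real.norm_eq_abs, abs_of_nonneg (by positivity)]
  have hsq : ∀ u : ℝ, ‖hu A B δ H u * sn lam u‖ ^ 2 ≤ 8 * lam ^ 2 * H ^ 2 / (2 * Real.pi) *
      (‖EE A B (zp u δ)‖ ^ 2 * Real.exp (-(H ^ 2 * u ^ 2) + u) / (1 + lam ^ 2 * u ^ 2)) := by
    intro u
    rw [norm_mul, mul_pow, hn u, mul_pow, mul_pow, div_pow, Real.sq_sqrt (by positivity),
      ← Real.exp_nat_mul]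
    have h3 : ((2 : ℕ) : ℝ) * (-(H ^ 2 * u ^ 2) / 2 + u / 2) = -(H ^ 2 * u ^ 2) + u := by
      push_cast
      ring
    rw [h3]
    calc H ^ 2 / (2 * Real.pi) * Real.exp (-(H ^ 2 * u ^ 2) + u) * ‖EE A B (zp u δ)‖ ^ 2 *
          ‖sn lam u‖ ^ 2 ≤ H ^ 2 / (2 * Real.pi) * Real.exp (-(H ^ 2 * u ^ 2) + u) *
          ‖EE A B (zp u δ)‖ ^ 2 * (8 * lam ^ 2 / (1 + lam ^ 2 * u ^ 2)) :=
          mul_le_mul_of_nonneg_left (sn_sq hl u) (by positivity)
      _ = _ := by ring
  have h5 : ∀ u : ℝ, ENNReal.ofReal (‖hu A B δ H u * sn lam u‖ ^ 2) ≤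
      ENNReal.ofReal (8 * lam ^ 2 * H ^ 2 / (2 * Real.pi)) *
        ENNReal.ofReal (‖EE A B (zp u δ)‖ ^ 2 * Real.exp (-(H ^ 2 * u ^ 2) + u) /
          (1 + lam ^ 2 * u ^ 2)) := by
    intro u
    rw [← ENNReal.ofReal_mul (by positivity)]
    exact ENNReal.ofReal_le_ofReal (hsq u)
  refine (mul_le_mul_right (lintegral_mono h5) _).trans (le_of_eq ?_)
  rw [lintegral_const_mul' _ _ ENNReal.ofReal_ne_top, ← mul_assoc,
    ← ENNReal.ofReal_mul (by positivity)]
  have h6 : 2 * Real.pi * (8 * lam ^ 2 * H ^ 2 / (2 * Real.pi)) = 8 * lam ^ 2 * H ^ 2 := by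
    field_simp
  rw [h6]

end Pool.Agent.Lib.MP_6bc78b_nt.GP.H91B
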