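import Pool.Agent.Lib.MP_6bc78b_nt.GP.Iface

/-! Project GP, module ETR: trivial bound and continuity of `E(z'(u))` (uses DX2 as hypothesis). -/

set_option autoImplicit false

open Complex Filter Topology MeasureTheory Set

namespace Pool.Agent.Lib.MP_6bc78b_nt.GP.H91

open Pool.Agent.Lib.MP_6bc78b_nt.GP

lemma zp_re (u δ : ℝ) : (zp u δ).re = 2 * Real.pi * (Real.exp u * Real.sin δ) := by
  have h1 : Complex.exp ((u : ℂ) - (δ : ℂ) * I) =
      ((Real.exp u * Real.cos δ : ℝ) : ℂ) - ((Real.exp u * Real.sin δ : ℝ) : ℂ) * I := by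
    rw [Complex.exp_sub, Complex.exp_mul_I, ← Complex.ofReal_exp, ← Complex.ofReal_cos,
      ← Complex.ofReal_sin]
    have hne : ((Real.cos δ : ℝ) : ℂ) + ((Real.sin δ : ℝ) : ℂ) * I ≠ 0 := by
      rw [Complex.ofReal_cos, Complex.ofReal_sin, ← Complex.exp_mul_I]
      exact Complex.exp_ne_zero _
    rw [div_eq_iff hne]
    have hcs : ((Real.cos δ : ℝ) : ℂ) ^ 2 + ((Real.sin δ : ℝ) : ℂ) ^ 2 = 1 := by
      rw [← Complex.ofReal_pow, ← Complex.ofReal_pow, ← Complex.ofReal_add]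
      rw [Real.cos_sq_add_sin_sq]; simp
    push_cast
    push_cast at hcs
    have : (Complex.exp u * Complex.cos δ - Complex.exp u * Complex.sin δ * I) *
        (Complex.cos δ + Complex.sin δ * I) =
        Complex.exp u * (Complex.cos δ ^ 2 + Complex.sin δ ^ 2) := by
      linear_combination (-Complex.exp u * Complex.sin δ ^ 2) * Complex.I_sq
    rw [this, hcs, mul_one]
  have h2 : zp u δ = ((2 * Real.pi * (Real.exp u * Real.sin δ) : ℝ) : ℂ) +
      ((2 * Real.pi * (Real.exp u * Real.cos δ - 1) : ℝ) : ℂ) * I := by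
    unfold zp
    rw [h1]
    push_cast
    linear_combination (-2 * (Real.pi : ℂ) * (Complex.exp u * Complex.sin δ)) * Complex.I_sq
  rw [h2, Complex.add_re, Complex.ofReal_re, Complex.re_ofReal_mul, Complex.I_re]
  simp

lemma one_add_log_sq (n : ℕ) : (1 + Real.log n) ^ 2 ≤ 4 * (n : ℝ) + 1 := by
  rcases Nat.eq_zero_or_pos n with h | h
  · subst h; simp
  · have hn : (0 : ℝ) < n := by exact_mod_cast h
    have hn1 : (1 : ℝ) ≤ n := by exact_mod_cast h
    have hs : 0 < Real.sqrt n := Real.sqrt_pos.2 hn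
    have h1 : Real.log n = 2 * Real.log (Real.sqrt n) := by
      rw [Real.log_sqrt hn.le]; ring
    have h2 := Real.log_le_sub_one_of_pos hs
    have h3 : 0 ≤ Real.log n := Real.log_nonneg hn1
    have h4 : 1 + Real.log n ≤ 2 * Real.sqrt n := by linarith
    have h5 : (1 + Real.log n) ^ 2 ≤ (2 * Real.sqrt n) ^ 2 :=
      pow_le_pow_left₀ (by linarith) h4 2
    have h6 : Real.sqrt n ^ 2 = n := Real.sq_sqrt hn.le
    nlinarith [h5, h6]

lemma bn_zero (A B : ℝ) : bn A B 0 = 0 := by simp [bn]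

/-- bound of the coefficients. -/
lemma bn_le {A B C : ℝ} (hC : 0 < C) (h : ∀ n : ℕ, |bn A B n| ≤ C * (1 + Real.log n) ^ 2)
    (n : ℕ) : |bn A B n| ≤ 5 * C * n := by
  rcases Nat.eq_zero_or_pos n with h0 | h0
  · subst h0; simp [bn_zero]
  · have h1 := h n
    have h2 := one_add_log_sq n
    have hn1 : (1 : ℝ) ≤ n := by exact_mod_cast h0
    have h3 : C * (1 + Real.log n) ^ 2 ≤ C * (4 * (n : ℝ) + 1) :=
      mul_le_mul_of_nonneg_left h2 hC.le
    nlinarith [h1, h3]

lemma term_norm {A B C : ℝ} (hC : 0 < C) (h : ∀ n : ℕ, |bn A B n| ≤ C * (1 + Real.log n) ^ 2)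
    (n : ℕ) {z : ℂ} {x : ℝ} (hx : x ≤ z.re) :
    ‖(bn A B n : ℂ) * Complex.exp (-((n : ℂ) * z))‖ ≤
      5 * C * ((n : ℝ) * Real.exp (-x) ^ n) := by
  rw [norm_mul, Complex.norm_exp, Complex.norm_real, Real.norm_eq_abs]
  have h1 : (-((n : ℂ) * z)).re = -(n * z.re) := by simp
  rw [h1, ← Real.exp_nat_mul]
  have h2 : Real.exp (-((n : ℝ) * z.re)) ≤ Real.exp ((n : ℝ) * -x) := by
    apply Real.exp_le_exp.2
    have : (0 : ℝ) ≤ n := Nat.cast_nonneg n
    nlinarith [mul_le_mul_of_nonneg_left hx this]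
  calc |bn A B n| * Real.exp (-((n : ℝ) * z.re)) ≤ (5 * C * n) * Real.exp ((n : ℝ) * -x) :=
        mul_le_mul (bn_le hC h n) h2 (Real.exp_pos _).le
          (mul_nonneg (by linarith) (Nat.cast_nonneg n))
    _ = _ := by ring

lemma geo {x : ℝ} (hx : 0 < x) :
    HasSum (fun n : ℕ => (n : ℝ) * Real.exp (-x) ^ n)
      (Real.exp (-x) / (1 - Real.exp (-x)) ^ 2) := by
  apply hasSum_coe_mul_geometric_of_norm_lt_one
  rw [Real.norm_eq_abs, abs_of_pos (Real.exp_pos _)]
  exact Real.exp_lt_one_iff.2 (by linarith)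

lemma geo_le {x : ℝ} (hx : 0 < x) :
    Real.exp (-x) / (1 - Real.exp (-x)) ^ 2 ≤ 1 / x ^ 2 := by
  have hlt : Real.exp (-x) < 1 := Real.exp_lt_one_iff.2 (by linarith)
  have hpos : 0 < 1 - Real.exp (-x) := by linarith
  rw [div_le_div_iff₀ (pow_pos hpos 2) (pow_pos hx 2), one_mul]
  have e1 : Real.exp (-x) = Real.exp (-(x / 2)) ^ 2 := by
    rw [← Real.exp_nat_mul]; congr 1; push_cast; ring
  have hq : 0 < Real.exp (-(x / 2)) := Real.exp_pos _
  have e2 : Real.exp (x / 2) * Real.exp (-(x / 2)) = 1 := by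
    rw [← Real.exp_add]; simp
  -- `x q ≤ 1 - q^2`
  have h3 : x * Real.exp (-(x / 2)) ≤ 1 - Real.exp (-x) := by
    have hs : x ≤ Real.exp (x / 2) - Real.exp (-(x / 2)) := by
      have := Real.self_le_sinh_iff.2 (by linarith : (0 : ℝ) ≤ x / 2)
      rw [Real.sinh_eq] at this
      linarith
    calc x * Real.exp (-(x / 2)) ≤
          (Real.exp (x / 2) - Real.exp (-(x / 2))) * Real.exp (-(x / 2)) :=
          mul_le_mul_of_nonneg_right hs hq.le
      _ = 1 - Real.exp (-(x / 2)) ^ 2 := by rw [sub_mul, e2]; ring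
      _ = 1 - Real.exp (-x) := by rw [e1]
  have h4 : (x * Real.exp (-(x / 2))) ^ 2 ≤ (1 - Real.exp (-x)) ^ 2 :=
    pow_le_pow_left₀ (mul_nonneg hx.le hq.le) h3 2
  calc Real.exp (-x) * x ^ 2 = (x * Real.exp (-(x / 2))) ^ 2 := by rw [mul_pow, ← e1]; ring
    _ ≤ _ := h4

lemma EE_norm {A B C : ℝ} (hC : 0 < C) (h : ∀ n : ℕ, |bn A B n| ≤ C * (1 + Real.log n) ^ 2)
    {z : ℂ} (hz : 0 < z.re) : ‖EE A B z‖ ≤ 5 * C / z.re ^ 2 := by
  have h1 : HasSum (fun n : ℕ => 5 * C * ((n : ℝ) * Real.exp (-z.re) ^ n))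
      (5 * C * (Real.exp (-z.re) / (1 - Real.exp (-z.re)) ^ 2)) := (geo hz).mul_left _
  have h2 := tsum_of_norm_bounded h1 (fun n => term_norm hC h n (z := z) le_rfl)
  refine h2.trans ?_
  rw [mul_div_assoc]
  calc 5 * C * (Real.exp (-z.re) / (1 - Real.exp (-z.re)) ^ 2) ≤ 5 * C * (1 / z.re ^ 2) :=
        mul_le_mul_of_nonneg_left (geo_le hz) (by linarith)
    _ = 5 * (C / z.re ^ 2) := by ring
    _ = _ := by ring

theorem EE_cont {A B C : ℝ} (hC : 0 < C) (h : ∀ n : ℕ, |bn A B n| ≤ C * (1 + Real.log n) ^ 2) :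
    ContinuousOn (fun z : ℂ => EE A B z) {z : ℂ | 0 < z.re} := by
  intro z hz
  have hz : 0 < z.re := hz
  apply ContinuousAt.continuousWithinAt
  have hopen : IsOpen {w : ℂ | z.re / 2 < w.re} := isOpen_lt continuous_const Complex.continuous_re
  have hmem : z ∈ {w : ℂ | z.re / 2 < w.re} := by
    show z.re / 2 < z.re
    linarith
  have hc : ContinuousOn (fun w : ℂ => ∑' n : ℕ, (bn A B n : ℂ) * Complex.exp (-((n : ℂ) * w)))
      {w : ℂ | z.re / 2 < w.re} := by
    apply continuousOn_tsum (u := fun n : ℕ => 5 * C * ((n : ℝ) * Real.exp (-(z.re / 2)) ^ n))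
    · intro n
      exact (continuous_const.mul (Complex.continuous_exp.comp
        ((continuous_const.mul continuous_id).neg))).continuousOn
    · exact ((geo (by linarith : 0 < z.re / 2)).mul_left _).summable
    · intro n w hw
      exact term_norm hC h n (le_of_lt hw)
  exact (hc z hmem).continuousAt (hopen.mem_nhds hmem)

lemma zp_cont (δ : ℝ) : Continuous (fun u : ℝ => zp u δ) := by
  unfold zp
  fun_prop

/-- Module ETR. -/
theorem etr (hD : DX2Statement) : ETRStatement := by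
  intro A B
  obtain ⟨-, -, C, hC, h⟩ := hD A B
  constructor
  · intro δ h0 h1
    have hs : 0 < Real.sin δ := Real.sin_pos_of_pos_of_lt_pi h0 (by linarith [Real.pi_gt_three])
    have hre : ∀ u : ℝ, 0 < (zp u δ).re := by
      intro u
      rw [zp_re]
      positivity
    exact (EE_cont hC h).comp_continuous (zp_cont δ) hre
  · refine ⟨5 * C, by linarith, ?_⟩
    intro u δ h0 h1
    have hpi := Real.pi_gt_three
    have hs : 0 < Real.sin δ := Real.sin_pos_of_pos_of_lt_pi h0 (by linarith)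
    have hs2 : 2 / Real.pi * δ ≤ Real.sin δ := Real.mul_le_sin h0.le (by linarith)
    have hre : 0 < (zp u δ).re := by
      rw [zp_re]; positivity
    have h2 : δ * Real.exp (-|u|) ≤ (zp u δ).re := by
      rw [zp_re]
      have e1 : Real.exp (-|u|) ≤ Real.exp u := Real.exp_le_exp.2 (neg_abs_le u)
      have e2 : 2 * Real.pi * (Real.exp u * (2 / Real.pi * δ)) ≤
          2 * Real.pi * (Real.exp u * Real.sin δ) :=
        mul_le_mul_of_nonneg_left (mul_le_mul_of_nonneg_left hs2 (Real.exp_pos u).le)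
          (by positivity)
      have e3 : 2 * Real.pi * (Real.exp u * (2 / Real.pi * δ)) = 4 * (Real.exp u * δ) := by
        field_simp
        ring
      have e4 : δ * Real.exp (-|u|) ≤ Real.exp u * δ := by
        rw [mul_comm]
        exact mul_le_mul_of_nonneg_right e1 h0.le
      have e5 : 0 < Real.exp u * δ := mul_pos (Real.exp_pos u) h0
      linarith
    have h3 := EE_norm hC h hre
    refine h3.trans ?_
    have hq : 0 < δ * Real.exp (-|u|) := mul_pos h0 (Real.exp_pos _)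
    have h4 : 5 * C / (zp u δ).re ^ 2 ≤ 5 * C / (δ * Real.exp (-|u|)) ^ 2 :=
      div_le_div_of_nonneg_left (by linarith) (pow_pos hq 2) (pow_le_pow_left₀ hq.le h2 2)
    refine h4.trans (le_of_eq ?_)
    have e6 : Real.exp (2 * |u|) * Real.exp (-|u|) ^ 2 = 1 := by
      rw [← Real.exp_nat_mul, ← Real.exp_add]
      simp
    have e7 : Real.exp (-|u|) ≠ 0 := (Real.exp_pos _).ne'
    rw [div_eq_div_iff (pow_pos hq 2).ne' (pow_pos h0 2).ne']
    linear_combination (-5 * C * δ ^ 2) * e6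

end Pool.Agent.Lib.MP_6bc78b_nt.GP.H91
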