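import Pool.Agent.Lib.MP_6bc78b_nt.GP.H6.Defs5
import Pool.Agent.Lib.MP_6bc78b_nt.GP.H52.Fin

/-! Project GP5, module FIN5: from the measure of the bad centres to the gaps, with `(log T)²`. -/

set_option autoImplicit false

open MeasureTheory Set Finset

namespace Pool.Agent.Lib.MP_6bc78b_nt.GP.H91F

open Pool.Agent.Lib.MP_6bc78b_nt.GP.H52

/-- The hypothesis on the centres without points of `P` nearby. -/
def Bad5 (P : ℝ → Prop) (X lam : ℝ) : Set ℝ :=
  {t : ℝ | X ≤ t ∧ t ≤ 2 * X ∧ ∀ γ : ℝ, |γ - t| < 2 * lam → ¬ P γ}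

/-- One level `y`. -/
theorem core {P : ℝ → Prop} {C C0 X : ℝ} (hC : 0 < C)
    (hbad : ∀ lam : ℝ, C0 * Real.log X ≤ lam → lam ≤ X / 10 →
      volume (Bad5 P X lam) ≤ ENNReal.ofReal (C * X * Real.log X / lam))
    (hC0 : 1 ≤ C0) (hX1 : 1 ≤ Real.log X) (hX0 : 0 < X) (hX2 : C0 * Real.log X ≤ X / 10)
    {n : ℕ} {a b : Fin n → ℝ} (h0 : ∀ i, 0 ≤ a i) (hab : ∀ i, a i ≤ b i)
    (hd : ∀ i j, i ≠ j → Disjoint (Set.Ioo (a i) (b i)) (Set.Ioo (a j) (b j)))
    (hP : ∀ i, ∀ γ ∈ Set.Ioo (a i) (b i), ¬ P γ) (y : ℝ) (hy : 8 * C0 * Real.log X ≤ y) :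
    y * ∑ i ∈ Finset.univ.filter (fun i => y < b i - a i),
      mm (a i) (b i) (Set.Icc X (2 * X)) ≤ 80 * C * (X * Real.log X) := by
  set L := Real.log X with hL
  have hL0 : 0 < L := by linarith
  have hy1 : 0 < y := lt_of_lt_of_le (by positivity) hy
  have hR : 0 ≤ 80 * C * (X * L) := by positivity
  by_cases hc : 8 * X ≤ y
  · have h1 : ∀ i ∈ Finset.univ.filter (fun i => y < b i - a i),
        mm (a i) (b i) (Set.Icc X (2 * X)) = 0 := by
      intro i hi
      have hi' := (Finset.mem_filter.1 hi).2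
      rcases Set.eq_empty_or_nonempty (mid (a i) (b i) ∩ Set.Icc X (2 * X)) with h | ⟨t, ht1, ht2⟩
      · unfold mm; rw [h]; simp
      · exfalso
        have h1 := ht1.1
        have h2 := ht2.2
        have h3 := h0 i
        linarith
    rw [Finset.sum_eq_zero h1, mul_zero]
    exact hR
  · push Not at hc
    set lam := min (y / 8) (X / 10) with hlam
    have hl0 : 0 < lam := lt_min (by positivity) (by positivity)
    have hl1 : C0 * L ≤ lam := by
      refine le_min ?_ hX2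
      linarith
    have hl2 : lam ≤ X / 10 := min_le_right _ _
    have hl3 : lam ≤ y / 8 := min_le_left _ _
    have hl4 : y ≤ 80 * lam := by
      rcases min_choice (y / 8) (X / 10) with h | h
      · rw [hlam, h]; linarith
      · rw [hlam, h]; linarith
    have hM : 0 ≤ C * X * L / lam := by positivity
    have b3 : ∑ i ∈ Finset.univ.filter (fun i => y < b i - a i),
        mm (a i) (b i) (Set.Icc X (2 * X)) ≤ C * X * L / lam := by
      refine sum_mm_le hab hd _ measurableSet_Icc (R := Bad5 P X lam) ?_ hM (hbad lam hl1 hl2)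
      intro i hi t ht
      have hi' := (Finset.mem_filter.1 hi).2
      refine ⟨ht.2.1, ht.2.2, fun γ hγ => hP i γ ?_⟩
      have h1 := ht.1.1
      have h2 := ht.1.2
      have h3 := abs_lt.1 (lt_of_lt_of_le hγ (by linarith : 2 * lam ≤ y / 4))
      constructor <;> linarith [h3.1, h3.2]
    calc y * ∑ i ∈ Finset.univ.filter (fun i => y < b i - a i),
        mm (a i) (b i) (Set.Icc X (2 * X)) ≤ y * (C * X * L / lam) :=
          mul_le_mul_of_nonneg_left b3 hy1.le
      _ ≤ (80 * lam) * (C * X * L / lam) := mul_le_mul_of_nonneg_right hl4 hM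
      _ = 80 * C * (X * L) := by field_simp

/-- One dyadic block. -/
theorem block {P : ℝ → Prop} {C C0 X : ℝ} (hC : 0 < C)
    (hbad : ∀ lam : ℝ, C0 * Real.log X ≤ lam → lam ≤ X / 10 →
      volume (Bad5 P X lam) ≤ ENNReal.ofReal (C * X * Real.log X / lam))
    (hC0 : 1 ≤ C0) (hX1 : 1 ≤ Real.log X) (hX0 : 0 < X) (hX2 : C0 * Real.log X ≤ X / 10)
    (hX3 : (⌈Real.logb 2 X⌉₊ : ℝ) ≤ 3 * Real.log X)
    {n : ℕ} {a b : Fin n → ℝ} (h0 : ∀ i, 0 ≤ a i) (hab : ∀ i, a i ≤ b i)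
    (hd : ∀ i j, i ≠ j → Disjoint (Set.Ioo (a i) (b i)) (Set.Ioo (a j) (b j)))
    (hP : ∀ i, ∀ γ ∈ Set.Ioo (a i) (b i), ¬ P γ) :
    ∑ i, (b i - a i) * mm (a i) (b i) (Set.Icc X (2 * X)) ≤
      (240 * C + 8 * C0) * (X * Real.log X ^ 2) := by
  set L := Real.log X with hL
  set N := ⌈Real.logb 2 X⌉₊ with hN
  set y₀ := 8 * C0 * L with hy₀
  have hL0 : 0 < L := by linarith
  have hy8 : 8 ≤ y₀ := by rw [hy₀]; nlinarith
  have hy0 : 0 < y₀ := by linarith
  have hNX : X ≤ 2 ^ N := by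
    have h1 : Real.logb 2 X ≤ N := Nat.le_ceil _
    have h2 := (Real.logb_le_iff_le_rpow (by norm_num : (1 : ℝ) < 2) hX0).1 h1
    rwa [Real.rpow_natCast] at h2
  have hvB : volume (Set.Icc X (2 * X)) ≤ ENNReal.ofReal X := by
    rw [Real.volume_Icc]; apply le_of_eq; congr 1; ring
  have hlen : ∀ i, (b i - a i) * mm (a i) (b i) (Set.Icc X (2 * X)) ≤
      (y₀ + ∑ j ∈ range N, if 2 ^ j * y₀ < b i - a i then 2 ^ j * y₀ else 0) *
        mm (a i) (b i) (Set.Icc X (2 * X)) := by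
    intro i
    rcases Set.eq_empty_or_nonempty (mid (a i) (b i) ∩ Set.Icc X (2 * X)) with h | ⟨t, ht1, ht2⟩
    · unfold mm; rw [h]; simp
    · apply mul_le_mul_of_nonneg_right _ (mm_nonneg _ _ _)
      apply layer y₀ _ hy0
      have h1 := ht1.1
      have h2 := ht2.2
      have h3 := h0 i
      have h4 : b i - a i ≤ 8 * X := by linarith
      refine h4.trans ?_
      have h5 : (0 : ℝ) < 2 ^ N := by positivity
      nlinarith
  refine (Finset.sum_le_sum fun i _ => hlen i).trans ?_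
  have e1 : ∀ i, (y₀ + ∑ j ∈ range N, if 2 ^ j * y₀ < b i - a i then 2 ^ j * y₀ else 0) *
        mm (a i) (b i) (Set.Icc X (2 * X)) = y₀ * mm (a i) (b i) (Set.Icc X (2 * X)) +
        ∑ j ∈ range N, (if 2 ^ j * y₀ < b i - a i then
          2 ^ j * y₀ * mm (a i) (b i) (Set.Icc X (2 * X)) else 0) := by
    intro i
    rw [add_mul, Finset.sum_mul]
    congr 1
    refine Finset.sum_congr rfl fun j _ => ?_
    split_ifs <;> simp
  rw [Finset.sum_congr rfl fun i _ => e1 i, Finset.sum_add_distrib, Finset.sum_comm]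
  have b1 : ∑ i, y₀ * mm (a i) (b i) (Set.Icc X (2 * X)) ≤ y₀ * X := by
    rw [← Finset.mul_sum]
    apply mul_le_mul_of_nonneg_left _ hy0.le
    exact sum_mm_le hab hd Finset.univ measurableSet_Icc (R := Set.Icc X (2 * X))
      (fun i _ => inter_subset_right) hX0.le hvB
  have b2 : ∀ j ∈ range N, ∑ i, (if 2 ^ j * y₀ < b i - a i then
          2 ^ j * y₀ * mm (a i) (b i) (Set.Icc X (2 * X)) else 0) ≤ 80 * C * (X * L) := by
    intro j _
    rw [← Finset.sum_filter, ← Finset.mul_sum]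
    refine core hC hbad hC0 hX1 hX0 hX2 h0 hab hd hP (2 ^ j * y₀) ?_
    have : (1 : ℝ) ≤ 2 ^ j := one_le_pow₀ (by norm_num)
    exact le_mul_of_one_le_left hy0.le this
  have b5 : ∑ j ∈ range N, 80 * C * (X * L) ≤ 240 * C * (X * L ^ 2) := by
    rw [Finset.sum_const, Finset.card_range, nsmul_eq_mul]
    have h3 : (N : ℝ) * (80 * C * (X * L)) ≤ 3 * L * (80 * C * (X * L)) :=
      mul_le_mul_of_nonneg_right hX3 (by positivity)
    have h4 : 3 * L * (80 * C * (X * L)) = 240 * C * (X * L ^ 2) := by ring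
    linarith
  have b6 : y₀ * X ≤ 8 * C0 * (X * L ^ 2) := by
    rw [hy₀]
    have h1 : L ≤ L ^ 2 := by nlinarith
    have h2 : C0 * X * L ≤ C0 * X * L ^ 2 := mul_le_mul_of_nonneg_left h1 (by positivity)
    linarith
  have b7 := Finset.sum_le_sum b2
  linarith

/-- The sum over the blocks. -/
theorem key {T₁ K T' : ℝ} (hT1 : 10 < T₁) (hK : 0 ≤ K) {n : ℕ} {a b w : Fin n → ℝ}
    (h0 : ∀ i, 0 ≤ a i) (hab : ∀ i, a i ≤ b i)
    (hd : ∀ i j, i ≠ j → Disjoint (Set.Ioo (a i) (b i)) (Set.Ioo (a j) (b j)))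
    (hw : ∀ i, 0 ≤ w i) (hwl : ∀ i, w i ≤ b i - a i)
    (hbl : ∀ X : ℝ, T₁ ≤ X → 2 * X ≤ T' →
      ∑ i, w i * mm (a i) (b i) (Set.Icc X (2 * X)) ≤ K * X) :
    ∀ (m : ℕ) (T : ℝ), 0 ≤ T → T ≤ T' → T ≤ 2 ^ m * (2 * T₁) →
      ∑ i, w i * mm (a i) (b i) (Set.Icc 0 T) ≤ K * T + 16 * T₁ ^ 2 := by
  have base : ∀ T : ℝ, 0 ≤ T → T ≤ 2 * T₁ →
      ∑ i, w i * mm (a i) (b i) (Set.Icc 0 T) ≤ K * T + 16 * T₁ ^ 2 := by
    intro T hT hT2
    have h1 : ∀ i, w i * mm (a i) (b i) (Set.Icc 0 T) ≤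
        4 * T * mm (a i) (b i) (Set.Icc 0 T) := by
      intro i
      rcases Set.eq_empty_or_nonempty (mid (a i) (b i) ∩ Set.Icc 0 T) with h | ⟨t, ht1, ht2⟩
      · unfold mm; rw [h]; simp
      · apply mul_le_mul_of_nonneg_right _ (mm_nonneg _ _ _)
        have h1 := ht1.1
        have h2 := ht2.2
        have h3 := h0 i
        have h4 := hwl i
        linarith
    refine (Finset.sum_le_sum fun i _ => h1 i).trans ?_
    rw [← Finset.mul_sum]
    have h2 : ∑ i, mm (a i) (b i) (Set.Icc 0 T) ≤ T :=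
      sum_mm_le hab hd Finset.univ measurableSet_Icc (R := Set.Icc 0 T)
        (fun i _ => inter_subset_right) hT (by rw [Real.volume_Icc, sub_zero])
    have h3 : 4 * T * ∑ i, mm (a i) (b i) (Set.Icc 0 T) ≤ 4 * T * T :=
      mul_le_mul_of_nonneg_left h2 (by positivity)
    have h4 : 0 ≤ K * T := mul_nonneg hK hT
    nlinarith
  intro m
  induction m with
  | zero =>
    intro T hT _ hT2
    exact base T hT (by simpa using hT2)
  | succ m ih =>
    intro T hT hTT hT2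
    by_cases hc : T ≤ 2 * T₁
    · exact base T hT hc
    · push Not at hc
      set X := T / 2 with hX
      have hX0 : 0 < X := by linarith
      have hXT : T₁ ≤ X := by linarith
      have h1 := ih X hX0.le (by linarith) (by rw [pow_succ] at hT2; linarith)
      have h2 := hbl X hXT (by linarith)
      have h3 : ∀ i, w i * mm (a i) (b i) (Set.Icc 0 T) ≤
          w i * mm (a i) (b i) (Set.Icc 0 X) + w i * mm (a i) (b i) (Set.Icc X (2 * X)) := by
        intro i
        rw [← mul_add]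
        apply mul_le_mul_of_nonneg_left _ (hw i)
        refine le_trans (mm_mono _ _ ?_) (mm_union_le _ _ _ _)
        intro t ht
        by_cases h : t ≤ X
        · exact Or.inl ⟨ht.1, h⟩
        · exact Or.inr ⟨(not_le.1 h).le, by linarith [ht.2]⟩
      refine (Finset.sum_le_sum fun i _ => h3 i).trans ?_
      rw [Finset.sum_add_distrib]
      have h6 : K * T = K * X + K * X := by rw [hX]; ring
      linarith

/-- Large `X`. -/
theorem ev5 (C0 : ℝ) (hC0 : 1 ≤ C0) : ∃ T₁ : ℝ, 10 < T₁ ∧ ∀ X : ℝ, T₁ ≤ X → 1 ≤ Real.log X ∧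
    C0 * Real.log X ≤ X / 10 ∧ (⌈Real.logb 2 X⌉₊ : ℝ) ≤ 3 * Real.log X := by
  obtain ⟨T₁, hT₁, h⟩ := ev_large
  refine ⟨max T₁ (Real.exp (20 * C0)), lt_of_lt_of_le hT₁ (le_max_left _ _), fun X hX => ?_⟩
  obtain ⟨h1, h2, h3⟩ := h X (le_trans (le_max_left _ _) hX)
  refine ⟨h1, ?_, h3⟩
  have hX0 : 0 < X := lt_of_lt_of_le (Real.exp_pos _) (le_trans (le_max_right _ _) hX)
  have hL : 20 * C0 ≤ Real.log X := by
    rw [← Real.log_exp (20 * C0)]
    exact Real.log_le_log (Real.exp_pos _) (le_trans (le_max_right _ _) hX)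
  have h4 := Real.pow_div_factorial_le_exp (Real.log X) (by linarith) 2
  rw [Real.exp_log hX0] at h4
  have h5 : Real.log X ^ 2 / 2 ≤ X := by simpa [Nat.factorial] using h4
  nlinarith

/-- The theorem, for any predicate `P`. -/
theorem comb {P : ℝ → Prop} {C C0 T₀ : ℝ} (hC : 0 < C) (hC0 : 1 ≤ C0)
    (hbad : ∀ X lam : ℝ, T₀ ≤ X → C0 * Real.log X ≤ lam → lam ≤ X / 10 →
      volume (Bad5 P X lam) ≤ ENNReal.ofReal (C * X * Real.log X / lam)) :
    ∃ C' : ℝ, 0 < C' ∧ ∀ T : ℝ, 2 ≤ T → ∀ (n : ℕ) (a b : Fin n → ℝ),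
      (∀ i, 0 ≤ a i ∧ a i ≤ b i ∧ b i ≤ T) →
      (∀ i j, i ≠ j → Disjoint (Set.Ioo (a i) (b i)) (Set.Ioo (a j) (b j))) →
      (∀ i, ∀ γ ∈ Set.Ioo (a i) (b i), ¬ P γ) →
        ∑ i, (b i - a i) ^ 2 ≤ C' * T * Real.log T ^ 2 ∧
        ∀ h : ℝ, 0 < h → (∀ i, h ≤ b i - a i) → ∑ i, (b i - a i) ≤ C' * T * Real.log T / h := by
  obtain ⟨T₂, hT₂, hlarge⟩ := ev5 C0 hC0
  set T₁ := max T₀ T₂ with hT₁
  have hT1 : 10 < T₁ := lt_of_lt_of_le hT₂ (le_max_right _ _)
  have hl2 : (1 : ℝ) / 2 ≤ Real.log 2 := by have := Real.log_two_gt_d9; linarith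
  refine ⟨480 * C + 32 * C0 + 64 * T₁ ^ 2, by positivity, ?_⟩
  intro T hT n a b h hd hP
  have hT0 : 0 < T := by linarith
  have hlog : Real.log 2 ≤ Real.log T := Real.log_le_log (by norm_num) hT
  have hlog0 : 1 / 2 ≤ Real.log T := hl2.trans hlog
  have h0 : ∀ i, 0 ≤ a i := fun i => (h i).1
  have hab : ∀ i, a i ≤ b i := fun i => (h i).2.1
  set LT := Real.log T with hLT
  obtain ⟨m, hm⟩ : ∃ m : ℕ, T ≤ 2 ^ m * (2 * T₁) := by
    obtain ⟨m, hm⟩ := pow_unbounded_of_one_lt T (by norm_num : (1 : ℝ) < 2)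
    refine ⟨m, hm.le.trans ?_⟩
    have : (0 : ℝ) < 2 ^ m := by positivity
    nlinarith
  have hfull : ∀ i, mm (a i) (b i) (Set.Icc 0 T) = (b i - a i) / 2 := fun i =>
    mm_full (hab i) fun t ht => ⟨(h0 i).trans ht.1.le, ht.2.le.trans (h i).2.2⟩
  have hT1T : 0 ≤ T₁ ^ 2 := by positivity
  have hlX : ∀ X : ℝ, T₁ ≤ X → 2 * X ≤ T → 0 < X ∧ Real.log X ≤ LT := fun X hX hXT => by
    have hX0 : 0 < X := by linarith
    exact ⟨hX0, Real.log_le_log hX0 (by linarith)⟩
  constructor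
  · -- (i)
    have h1 := key (T' := T) hT1 (K := (240 * C + 8 * C0) * LT ^ 2) (by positivity) h0 hab hd
      (w := fun i => b i - a i) (fun i => sub_nonneg.2 (hab i)) (fun i => le_rfl)
      (fun X hX hXT => by
        obtain ⟨l1, l2, l3⟩ := hlarge X (le_trans (le_max_right _ _) hX)
        obtain ⟨hX0, hlX'⟩ := hlX X hX hXT
        have h2 := block hC (fun lam => hbad X lam (le_trans (le_max_left _ _) hX)) hC0 l1 hX0 l2
          l3 h0 hab hd hP
        refine h2.trans ?_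
        have h3 : Real.log X ^ 2 ≤ LT ^ 2 := pow_le_pow_left₀ (by linarith) hlX' 2
        calc (240 * C + 8 * C0) * (X * Real.log X ^ 2) ≤ (240 * C + 8 * C0) * (X * LT ^ 2) :=
              mul_le_mul_of_nonneg_left (mul_le_mul_of_nonneg_left h3 hX0.le) (by positivity)
          _ = (240 * C + 8 * C0) * LT ^ 2 * X := by ring) m T hT0.le le_rfl hm
    have h2 : ∀ i, (b i - a i) ^ 2 = 2 * ((b i - a i) * mm (a i) (b i) (Set.Icc 0 T)) := by
      intro i
      rw [hfull i]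
      ring
    rw [Finset.sum_congr rfl fun i _ => h2 i, ← Finset.mul_sum]
    have h4 : 1 ≤ 2 * (T * LT ^ 2) := by
      have : 1 / 4 ≤ LT ^ 2 := by nlinarith
      nlinarith
    have h5 : T₁ ^ 2 ≤ T₁ ^ 2 * (2 * (T * LT ^ 2)) := le_mul_of_one_le_right hT1T h4
    have h6 : 0 ≤ C0 * (T * LT ^ 2) := by positivity
    nlinarith
  · -- (ii)
    intro y hy hyl
    rw [le_div_iff₀ hy]
    have hs : ∑ i, (b i - a i) = 2 * ∑ i, mm (a i) (b i) (Set.Icc 0 T) := by
      rw [Finset.mul_sum]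
      exact Finset.sum_congr rfl fun i _ => by rw [hfull i]; ring
    have hTL : 1 ≤ T * LT := by nlinarith
    by_cases hc : y ≤ 16 * C0 * LT
    · have h2 : ∑ i, mm (a i) (b i) (Set.Icc 0 T) ≤ T :=
        sum_mm_le hab hd Finset.univ measurableSet_Icc (R := Set.Icc 0 T)
          (fun i _ => inter_subset_right) hT0.le (by rw [Real.volume_Icc, sub_zero])
      rw [hs]
      have h3 : 2 * (∑ i, mm (a i) (b i) (Set.Icc 0 T)) * y ≤ 2 * T * (16 * C0 * LT) :=
        mul_le_mul (by linarith) hc hy.le (by positivity)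
      have h4 : 0 ≤ C * (T * LT) := by positivity
      have h5 : 0 ≤ T₁ ^ 2 * (T * LT) := by positivity
      nlinarith
    · push Not at hc
      have h1 := key (T' := T) hT1 (K := 160 * C * LT) (by positivity) h0 hab hd
        (w := fun _ => y) (fun _ => hy.le) hyl
        (fun X hX hXT => by
          obtain ⟨l1, l2, l3⟩ := hlarge X (le_trans (le_max_right _ _) hX)
          obtain ⟨hX0, hlX'⟩ := hlX X hX hXT
          have h2 := core hC (fun lam => hbad X lam (le_trans (le_max_left _ _) hX)) hC0 l1 hX0 l2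
            h0 hab hd hP (y / 2) (by
              have : C0 * Real.log X ≤ C0 * LT := mul_le_mul_of_nonneg_left hlX' (by linarith)
              linarith)
          have h3 : Finset.univ.filter (fun i => y / 2 < b i - a i) = Finset.univ :=
            Finset.filter_true_of_mem fun i _ => by
              have := hyl i
              linarith
          rw [h3] at h2
          rw [← Finset.mul_sum]
          have h4 : 80 * C * (X * Real.log X) ≤ 80 * C * (X * LT) :=
            mul_le_mul_of_nonneg_left (mul_le_mul_of_nonneg_left hlX' hX0.le) (by positivity)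
          linarith) m T hT0.le le_rfl hm
      rw [← Finset.mul_sum] at h1
      rw [hs]
      have h5 : T₁ ^ 2 ≤ T₁ ^ 2 * (T * LT) := le_mul_of_one_le_right hT1T hTL
      have h6 : 0 ≤ C0 * (T * LT) := by positivity
      have h7 : 0 ≤ C * (T * LT) := by positivity
      nlinarith

/-- FIN5. -/
theorem fin5 (h : CHB5Statement) : GapStatement5 := by
  intro hRH
  obtain ⟨C, C0, T₀, hC, hC0, -, H⟩ := h hRH
  obtain ⟨C', hC', H'⟩ := comb (P := fun γ => MS.mz γ = 1) hC hC0 H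
  refine ⟨C', hC', fun T hT n a b h1 h2 h3 => H' T hT n a b h1 h2 fun i γ hγ => ?_⟩
  rw [MS.P1.mz_eq]
  exact h3 i γ hγ

end Pool.Agent.Lib.MP_6bc78b_nt.GP.H91F
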