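import Pool.Agent.Lib.MP_6bc78b_nt.GP.H91.Chb7

/-! Project GP7, module CHB7, last part. -/

set_option autoImplicit false

open Complex Filter Topology MeasureTheory ArithmeticFunction Set
open scoped ENNReal

namespace Pool.Agent.Lib.MP_6bc78b_nt.GP.H91L

open Pool.Agent.Lib.MP_6bc78b_nt Pool.Agent.Lib.MP_6bc78b_nt.MS Pool.Agent.Lib.MP_6bc78b_nt.MS.P1
open Pool.Agent.Lib.MP_6bc78b_nt.GP.H91K Pool.Agent.Lib.MP_6bc78b_nt.GP.G7

/-- Comparison of the parameters at `T` and at a nearby point. -/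
theorem para {T S : ℝ} {K : ℕ} (hT : 10 < T) (hS1 : 9 * T / 10 ≤ S) (hS2 : S ≤ 6 * T / 5)
    (hl : 2 ^ (K + 1) ≤ Real.log (Real.log T)) :
    Real.log (Real.log S) ^ K ≤ Real.log (Real.log T) ^ (K + 1) / 2 ∧
      Real.log T / 2 ≤ Real.log S := by
  have hT0 : 0 < T := by linarith
  have hS0 : 0 < S := by linarith
  have hp : (1 : ℝ) ≤ 2 ^ K := one_le_pow₀ (by norm_num)
  have hl2 : 2 ≤ Real.log (Real.log T) := by
    refine le_trans ?_ hl
    rw [pow_succ]
    linarith
  have hL0 : 0 < Real.log T := Real.log_pos (by linarith)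
  have hL7 : 7 ≤ Real.log T := by
    rw [← Real.exp_log hL0]
    have h1 : Real.exp 2 ≤ Real.exp (Real.log (Real.log T)) := Real.exp_le_exp.2 hl2
    have h2 : (7 : ℝ) ≤ Real.exp 2 := by
      have e : Real.exp 2 = Real.exp 1 * Real.exp 1 := by
        rw [← Real.exp_add]
        norm_num
      have := Real.exp_one_gt_d9
      rw [e]
      nlinarith
    linarith
  have hS3 : Real.log T / 2 ≤ Real.log S := by
    have e1 : Real.log T / 2 = Real.log (Real.sqrt T) := by rw [Real.log_sqrt hT0.le]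
    rw [e1]
    refine Real.log_le_log (Real.sqrt_pos.2 hT0) ?_
    refine le_trans ?_ hS1
    rw [Real.sqrt_le_left (by positivity)]
    nlinarith
  have hS4 : Real.log S ≤ 2 * Real.log T := by
    have e : 2 * Real.log T = Real.log (T ^ 2) := by rw [Real.log_pow]; norm_num
    rw [e]
    exact Real.log_le_log hS0 (by nlinarith)
  refine ⟨?_, hS3⟩
  have hLS : 1 ≤ Real.log S := by linarith
  have h0 : 0 ≤ Real.log (Real.log S) := Real.log_nonneg hLS
  have h1 : Real.log (Real.log S) ≤ 2 * Real.log (Real.log T) := by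
    have h2 : Real.log (Real.log S) ≤ Real.log (2 * Real.log T) :=
      Real.log_le_log (by linarith) hS4
    rw [Real.log_mul (by norm_num) hL0.ne'] at h2
    have h3 : Real.log 2 ≤ 1 := by
      have := Real.log_two_lt_d9
      linarith
    linarith
  have h2 := pow_le_pow_left₀ h0 h1 K
  rw [mul_pow] at h2
  refine h2.trans ?_
  have h3 : 0 ≤ Real.log (Real.log T) ^ K := by positivity
  rw [pow_succ] at hl ⊢
  nlinarith

/-- CHB7. -/
theorem chb7 (hdx : DX1Statement) (havg : AVG7Statement) (hbox : BOXStatement)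
    (hcon : CONStatement) (hlft : LFTRStatement) (htls : TLS6Statement) (hetr : ETRStatement)
    (hcel : CELStatement) (hmom : MOM6Statement) : CHB7Statement := by
  intro hRH ε hε
  obtain ⟨c, K, T0, hc, hT0, h⟩ := half7 hdx havg hbox hcon hlft htls hetr hcel hmom hRH (ε / 4)
    (by positivity)
  have hlog : Tendsto Real.log atTop atTop := Real.tendsto_log_atTop
  obtain ⟨T₅, h5⟩ := eventually_atTop.1 ((hlog.comp hlog).eventually_ge_atTop (2 ^ (K + 1)))
  obtain ⟨T₇, h7⟩ := eventually_atTop.1 ((Real.isLittleO_pow_log_id_atTop (n := 1)).bound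
    (c := 1 / 10) (by norm_num))
  refine ⟨c / 2, by positivity, K + 1, max (2 * T0) (max T₅ T₇), lt_max_of_lt_left (by linarith),
    fun T lam hT hl1 hl2 => ?_⟩
  have hTT₀ : 2 * T0 ≤ T := (le_max_left _ _).trans hT
  have hr1 := (le_max_right _ _).trans hT
  have hTT₅ : T₅ ≤ T := (le_max_left _ _).trans hr1
  have hTT₇ : T₇ ≤ T := (le_max_right _ _).trans hr1
  have hT10 : 10 < T := by linarith
  have hTp : 0 < T := by linarith
  have hl5 : 2 ^ (K + 1) ≤ Real.log (Real.log T) := h5 T hTT₅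
  have hL0 : 0 < Real.log T := Real.log_pos (by linarith)
  have hL7 : Real.log T ≤ T / 10 := by
    have h8 := h7 T hTT₇
    simp only [pow_one, id, Real.norm_of_nonneg hTp.le, Real.norm_of_nonneg hL0.le] at h8
    linarith
  obtain ⟨a1, a2⟩ := para (S := 9 * T / 10) hT10 le_rfl (by linarith) hl5
  obtain ⟨b1, b2⟩ := para (S := 6 * T / 5) hT10 (by linarith) le_rfl hl5
  have h1 := h (9 * T / 10) (lam / 2) T (3 * T / 2) (by linarith) (by linarith) (by linarith)
    (by linarith) (by linarith)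
  have h2 := h (6 * T / 5) (lam / 2) (3 * T / 2) (2 * T) (by linarith) (by linarith) (by linarith)
    (by linarith) (by linarith)
  have hlam : 0 < lam := by
    have h3 : (0 : ℝ) < Real.log (Real.log T) :=
      lt_of_lt_of_le (by positivity) hl5
    exact lt_of_lt_of_le (by positivity) hl1
  have hsub : {t : ℝ | T ≤ t ∧ t ≤ 2 * T ∧
        (({γ : ℝ | |γ - t| < 2 * lam ∧ mz γ = 1}.ncard : ℕ) : ℝ) ≤ c / 2 * lam} ⊆
      {t : ℝ | T ≤ t ∧ t ≤ 3 * T / 2 ∧ ((zs t (2 * (lam / 2))).ncard : ℝ) ≤ c * (lam / 2)} ∪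
      {t : ℝ | 3 * T / 2 ≤ t ∧ t ≤ 2 * T ∧
        ((zs t (2 * (lam / 2))).ncard : ℝ) ≤ c * (lam / 2)} := by
    rintro t ⟨h3, h4, h5⟩
    have h6 : ((zs t (2 * (lam / 2))).ncard : ℝ) ≤ c * (lam / 2) := by
      have h7 : (zs t (2 * (lam / 2))).ncard ≤ (zs t (2 * lam)).ncard :=
        Set.ncard_le_ncard (fun γ hγ => ⟨lt_of_lt_of_le hγ.1 (by linarith), hγ.2⟩)
          (zs_fin t (2 * lam))
      have h8 : ((zs t (2 * (lam / 2))).ncard : ℝ) ≤ ((zs t (2 * lam)).ncard : ℝ) := by
        exact_mod_cast h7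
      have h9 : ((zs t (2 * lam)).ncard : ℝ) ≤ c / 2 * lam := h5
      linarith
    rcases le_total t (3 * T / 2) with h7 | h7
    · exact Or.inl ⟨h3, h7, h6⟩
    · exact Or.inr ⟨h7, h4, h6⟩
  refine (measure_mono hsub).trans ((measure_union_le _ _).trans ((add_le_add h1 h2).trans ?_))
  rw [← ENNReal.ofReal_add (by positivity) (by positivity)]
  refine ENNReal.ofReal_le_ofReal ?_
  nlinarith [mul_pos hε hTp]

end Pool.Agent.Lib.MP_6bc78b_nt.GP.H91L
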