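import Pool.Agent.Lib.MP_6bc78b_nt.GP.H91.Box
import Pool.Agent.Lib.MP_6bc78b_nt.GP.H52.Fin

/-! Project GP5, module CHB5: the measure of the centres without simple zeros within `2 lam`. -/

set_option autoImplicit false

open Complex Filter Topology MeasureTheory ArithmeticFunction Set
open scoped ENNReal

namespace Pool.Agent.Lib.MP_6bc78b_nt.GP.H91C

open Pool.Agent.Lib.MP_6bc78b_nt Pool.Agent.Lib.MP_6bc78b_nt.MS Pool.Agent.Lib.MP_6bc78b_nt.MS.P1

/-- The set of the centres is measurable. -/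
theorem meas_centres (a b r : ℝ) : MeasurableSet {t : ℝ | a ≤ t ∧ t ≤ b ∧
    ∀ γ : ℝ, |γ - t| < r → mz γ ≠ 1} := by
  have h : {t : ℝ | a ≤ t ∧ t ≤ b ∧ ∀ γ : ℝ, |γ - t| < r → mz γ ≠ 1} =
      Icc a b ∩ (⋃ γ ∈ {γ : ℝ | mz γ = 1}, Metric.ball γ r)ᶜ := by
    ext t
    simp only [Set.mem_ofPred_eq, Set.mem_inter_iff, Set.mem_Icc, Set.mem_compl_iff,
      Set.mem_iUnion, Metric.mem_ball, Real.dist_eq, exists_prop, not_exists, not_and]
    constructor
    · rintro ⟨h1, h2, h3⟩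
      exact ⟨⟨h1, h2⟩, fun γ hγ hlt => h3 γ (by rwa [abs_sub_comm]) hγ⟩
    · rintro ⟨⟨h1, h2⟩, h3⟩
      exact ⟨h1, h2, fun γ hlt hγ => h3 γ hγ (by rwa [abs_sub_comm])⟩
  rw [h]
  refine measurableSet_Icc.inter (IsOpen.measurableSet ?_).compl
  exact isOpen_biUnion fun γ _ => Metric.isOpen_ball

/-- `S_E` is continuous. -/
theorem se_cont (h2 : ETRStatement) (A B δ H : ℝ) (hδ : 0 < δ) (hδ2 : δ ≤ 1 / 2) (hH : 0 < H) :
    Continuous (fun t : ℝ => SE A B δ H t) := by
  have hint := H91B.hu_int h2 A B δ H hδ hδ2 hH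
  unfold SE
  refine continuous_of_dominated (bound := fun u => ‖hu A B δ H u‖) (fun t => ?_)
    (fun t => Eventually.of_forall fun u => ?_) hint.norm (Eventually.of_forall fun u => ?_)
  · exact hint.aestronglyMeasurable.mul (Complex.continuous_exp.comp
      ((Complex.continuous_ofReal.mul continuous_const).mul
        continuous_const)).aestronglyMeasurable
  · rw [norm_mul, H91B.norm_e2, mul_one]
  · exact continuous_const.mul (Complex.continuous_exp.comp
      ((continuous_const.mul Complex.continuous_ofReal).mul continuous_const))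

/-- The average of a function with real part at least `m`. -/
theorem avg_low {f : ℝ → ℂ} (hf : Continuous f) {t lam m : ℝ} (hl : 0 < lam)
    (h : ∀ x ∈ Icc (t - lam) (t + lam), m ≤ (f x).re) :
    2 * lam * m ≤ ‖∫ x in (t - lam)..(t + lam), f x‖ := by
  have hle : t - lam ≤ t + lam := by linarith
  have h1 : (∫ x in (t - lam)..(t + lam), f x).re = ∫ x in (t - lam)..(t + lam), (f x).re :=
    (Complex.reCLM.intervalIntegral_comp_comm (hf.intervalIntegrable _ _)).symm
  have h2 : ∫ x in (t - lam)..(t + lam), m ≤ ∫ x in (t - lam)..(t + lam), (f x).re :=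
    intervalIntegral.integral_mono_on hle (continuous_const.intervalIntegrable _ _)
      ((Complex.continuous_re.comp hf).intervalIntegrable _ _) h
  rw [intervalIntegral.integral_const, smul_eq_mul] at h2
  have h3 : t + lam - (t - lam) = 2 * lam := by ring
  rw [h3, ← h1] at h2
  exact h2.trans (Complex.re_le_norm _)

/-- The centres in one part of `[T, 2 T]`. -/
theorem half (hdx : DX1Statement) (havg : AVGWStatement) (hbox : BOXStatement)
    (hcon : CONStatement) (hlft : LFTRStatement) (htls : TLSStatement) (hetr : ETRStatement) :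
    RiemannHypothesis → ∃ C T0 : ℝ, 0 < C ∧ 10 < T0 ∧ ∀ T lam a b : ℝ, T0 ≤ T →
      50 * Real.log T ≤ lam → lam ≤ T → T ≤ a - lam → b + lam ≤ 2 * T →
      volume {t : ℝ | a ≤ t ∧ t ≤ b ∧ ∀ γ : ℝ, |γ - t| < 2 * lam → mz γ ≠ 1} ≤
        ENNReal.ofReal (C * T * Real.log T / lam) := by
  intro hRH
  obtain ⟨A, B, D, hD⟩ := hdx hRH
  obtain ⟨C₁, T₁, hC₁, hT₁, h1⟩ := havg hRH A B D hD
  obtain ⟨T₂, h2⟩ := eventually_atTop.1 (hcon hRH A B)
  obtain ⟨c, C₃, T₃, hc, hC₃, hT₃, h3⟩ := hlft A B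
  obtain ⟨T₄, hT₄, h4⟩ := htls hRH
  have hlog : Tendsto Real.log atTop atTop := Real.tendsto_log_atTop
  obtain ⟨T₅, h5⟩ := eventually_atTop.1 (hlog.eventually_ge_atTop (C₃ ^ 2 + 1))
  obtain ⟨T₆, h6⟩ := eventually_atTop.1 (hlog.eventually_ge_atTop (4 / c + 1))
  obtain ⟨T₇, hT₇, h7⟩ := H52.ev_large
  refine ⟨8 * C₁ / c ^ 2, max T₁ (max T₂ (max T₃ (max T₄ (max T₅ (max T₆ T₇))))), by positivity,
    lt_max_of_lt_left hT₁, fun T lam a b hT hl1 hl2 ha hb => ?_⟩
  have hTT₁ : T₁ ≤ T := (le_max_left _ _).trans hT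
  have hr1 := (le_max_right _ _).trans hT
  have hTT₂ : T₂ ≤ T := (le_max_left _ _).trans hr1
  have hr2 := (le_max_right _ _).trans hr1
  have hTT₃ : T₃ ≤ T := (le_max_left _ _).trans hr2
  have hr3 := (le_max_right _ _).trans hr2
  have hTT₄ : T₄ ≤ T := (le_max_left _ _).trans hr3
  have hr4 := (le_max_right _ _).trans hr3
  have hTT₅ : T₅ ≤ T := (le_max_left _ _).trans hr4
  have hr5 := (le_max_right _ _).trans hr4
  have hTT₆ : T₆ ≤ T := (le_max_left _ _).trans hr5
  have hTT₇ : T₇ ≤ T := (le_max_right _ _).trans hr5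
  have hT10 : 10 < T := lt_of_lt_of_le hT₁ hTT₁
  have hT0 : 0 < T := by linarith
  obtain ⟨-, h72, -⟩ := h7 T hTT₇
  set L := Real.log T with hLdef
  have hL5 : C₃ ^ 2 + 1 ≤ L := h5 T hTT₅
  have hL6 : 4 / c + 1 ≤ L := h6 T hTT₆
  have hL1 : 1 ≤ L := by nlinarith [sq_nonneg C₃]
  have hL0 : 0 < L := by linarith
  have hsqrt : C₃ ≤ Real.sqrt L := Real.le_sqrt_of_sq_le (by linarith)
  have hsq1 : 1 ≤ Real.sqrt L := Real.one_le_sqrt.2 hL1
  have hsq2 : Real.sqrt L * Real.sqrt L = L := Real.mul_self_sqrt hL0.le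
  have hlam0 : 0 < lam := lt_of_lt_of_le (by positivity) hl1
  set H := min (lam / (5 * Real.sqrt L)) (T / L) with hHdef
  have hH1 : 10 * Real.sqrt L ≤ H := by
    refine le_min ?_ h72
    rw [le_div_iff₀ (by positivity)]
    nlinarith
  have hH2 : H ≤ T / L := min_le_right _ _
  have hH3 : H ≤ lam / (5 * Real.sqrt L) := min_le_left _ _
  have hH4 : 5 * Real.sqrt L * H ≤ lam := by
    have h8 := mul_le_mul_of_nonneg_left hH3 (by positivity : (0 : ℝ) ≤ 5 * Real.sqrt L)
    refine h8.trans (le_of_eq ?_)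
    field_simp
  have hHl : H ≤ lam := hH3.trans (div_le_self hlam0.le (by linarith))
  have hHC : C₃ ≤ H := by linarith
  have hH10 : 10 ≤ H := by linarith
  have hH0 : 0 < H := by linarith
  obtain ⟨δ, ⟨hδ1, hδ2⟩, hδ⟩ := h1 T H lam hTT₁ hH1 hHl hl2
  have hδ0 : 0 < δ := lt_of_lt_of_le (by positivity) hδ1
  have hδh : δ ≤ 1 / 2 := by
    refine hδ2.trans ?_
    rw [div_le_div_iff₀ hT0 (by norm_num)]
    linarith
  have h8 := hbox A B δ H lam hδ0 hδh hH0 hlam0
  set S := {t : ℝ | a ≤ t ∧ t ≤ b ∧ ∀ γ : ℝ, |γ - t| < 2 * lam → mz γ ≠ 1} with hS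
  have hSm : MeasurableSet S := meas_centres a b _
  have hcont := se_cont hetr A B δ H hδ0 hδh hH0
  -- the lower bound on the set
  have hlow : ∀ t ∈ S, ENNReal.ofReal ((lam * (c * H * L ^ 2)) ^ 2) ≤
      ENNReal.ofReal (‖∫ x in (t - lam)..(t + lam), SE A B δ H x‖ ^ 2) := by
    rintro t ⟨ht1, ht2, ht3⟩
    have hre : ∀ x ∈ Icc (t - lam) (t + lam), c * H * L ^ 2 / 2 ≤ (SE A B δ H x).re := by
      rintro x ⟨hx1, hx2⟩
      have hxT : T ≤ x := by linarith
      have hxT2 : x ≤ 2 * T := by linarith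
      have e1 := h2 T hTT₂ x δ H hxT hxT2 hδ1 hδ2 (by linarith) hH2
      have e2 := h3 T x δ H hTT₃ hxT hxT2 hδ1 hδ2 hHC hH2
      have e3 := h4 T x δ H hTT₄ hxT hxT2 hδ1 hδ2 (by linarith) hH2 (fun γ hγ => ht3 γ (by
        have h9 : |γ - x| < lam := lt_of_lt_of_le hγ hH4
        have h10 : |x - t| ≤ lam := abs_le.2 ⟨by linarith, by linarith⟩
        have h11 := abs_sub_le γ x t
        linarith))
      have e4 : ‖SE A B δ H x - IL A B T δ H x‖ ≤ 2 := by
        have e5 : SE A B δ H x - IL A B T δ H x =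
            (SE A B δ H x - IL A B T δ H x - SS T δ H x) + SS T δ H x := by ring
        rw [e5]
        refine (norm_add_le _ _).trans ?_
        linarith
      have e6 : -(2 : ℝ) ≤ (SE A B δ H x - IL A B T δ H x).re := by
        have e7 := Complex.abs_re_le_norm (SE A B δ H x - IL A B T δ H x)
        have e8 := neg_abs_le (SE A B δ H x - IL A B T δ H x).re
        linarith
      rw [Complex.sub_re] at e6
      have e8 : 4 ≤ c * H * L ^ 2 := by
        have e9 : 4 / c ≤ L := by linarith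
        have e10 : 4 ≤ c * L := by
          rw [div_le_iff₀ hc] at e9
          linarith
        have e11 : 1 ≤ H * L := by nlinarith
        calc (4 : ℝ) ≤ (c * L) * 1 := by linarith
          _ ≤ (c * L) * (H * L) := mul_le_mul_of_nonneg_left e11 (by positivity)
          _ = c * H * L ^ 2 := by ring
      linarith
    refine ENNReal.ofReal_le_ofReal (pow_le_pow_left₀ (by positivity) ?_ 2)
    have h9 := avg_low hcont hlam0 hre
    have h10 : 2 * lam * (c * H * L ^ 2 / 2) = lam * (c * H * L ^ 2) := by ring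
    rwa [h10] at h9
  have hint : ENNReal.ofReal ((lam * (c * H * L ^ 2)) ^ 2) * volume S ≤
      ∫⁻ t : ℝ, ENNReal.ofReal (‖∫ x in (t - lam)..(t + lam), SE A B δ H x‖ ^ 2) := by
    rw [← setLIntegral_const]
    exact (setLIntegral_mono' hSm hlow).trans (setLIntegral_le_lintegral _ _)
  have hbd : ENNReal.ofReal ((lam * (c * H * L ^ 2)) ^ 2) * volume S ≤
      ENNReal.ofReal (8 * lam ^ 2 * H ^ 2 * (C₁ * T * L ^ 5 / lam)) := by
    refine hint.trans (h8.trans ?_)
    rw [ENNReal.ofReal_mul (by positivity : 0 ≤ 8 * lam ^ 2 * H ^ 2)]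
    exact mul_le_mul_right hδ _
  have hpos : 0 < (lam * (c * H * L ^ 2)) ^ 2 := by positivity
  have hfin : volume S ≤ ENNReal.ofReal (8 * lam ^ 2 * H ^ 2 * (C₁ * T * L ^ 5 / lam)) /
      ENNReal.ofReal ((lam * (c * H * L ^ 2)) ^ 2) := by
    rw [ENNReal.le_div_iff_mul_le (Or.inl (by simpa using hpos.ne')) (Or.inl ENNReal.ofReal_ne_top),
      mul_comm]
    exact hbd
  refine hfin.trans ?_
  rw [← ENNReal.ofReal_div_of_pos hpos]
  refine ENNReal.ofReal_le_ofReal (le_of_eq ?_)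
  field_simp

/-- CHB5. -/
theorem chb5 (hdx : DX1Statement) (havg : AVGWStatement) (hbox : BOXStatement)
    (hcon : CONStatement) (hlft : LFTRStatement) (htls : TLSStatement) (hetr : ETRStatement) :
    CHB5Statement := by
  intro hRH
  obtain ⟨C, T0, hC, hT0, h⟩ := half hdx havg hbox hcon hlft htls hetr hRH
  refine ⟨4 * C, 100, 2 * T0, by positivity, by norm_num, by linarith,
    fun T lam hT hl1 hl2 => ?_⟩
  have hTp : 0 < T := by linarith
  have hL1 : 1 ≤ Real.log T := by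
    rw [← Real.log_exp 1]
    refine Real.log_le_log (Real.exp_pos _) ?_
    have := Real.exp_one_lt_d9
    linarith
  have hL0 : 0 < Real.log T := by linarith
  have hlam : 0 < lam := by linarith
  have l1 : Real.log (9 * T / 10) ≤ Real.log T := Real.log_le_log (by positivity) (by linarith)
  have l2 : Real.log (6 * T / 5) ≤ 2 * Real.log T := by
    have h1 : 2 * Real.log T = Real.log (T ^ 2) := by rw [Real.log_pow]; norm_num
    rw [h1]
    refine Real.log_le_log (by positivity) ?_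
    nlinarith
  have h1 := h (9 * T / 10) lam T (3 * T / 2) (by linarith) (by linarith) (by linarith)
    (by linarith) (by linarith)
  have h2 := h (6 * T / 5) lam (3 * T / 2) (2 * T) (by linarith) (by linarith) (by linarith)
    (by linarith) (by linarith)
  have hsub : {t : ℝ | T ≤ t ∧ t ≤ 2 * T ∧ ∀ γ : ℝ, |γ - t| < 2 * lam → mz γ ≠ 1} ⊆
      {t : ℝ | T ≤ t ∧ t ≤ 3 * T / 2 ∧ ∀ γ : ℝ, |γ - t| < 2 * lam → mz γ ≠ 1} ∪
      {t : ℝ | 3 * T / 2 ≤ t ∧ t ≤ 2 * T ∧ ∀ γ : ℝ, |γ - t| < 2 * lam → mz γ ≠ 1} := by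
    rintro t ⟨h3, h4, h5⟩
    rcases le_total t (3 * T / 2) with h6 | h6
    · exact Or.inl ⟨h3, h6, h5⟩
    · exact Or.inr ⟨h6, h4, h5⟩
  refine (measure_mono hsub).trans ((measure_union_le _ _).trans ((add_le_add h1 h2).trans ?_))
  have l3 : 0 ≤ Real.log (9 * T / 10) := Real.log_nonneg (by linarith)
  have l4 : 0 ≤ Real.log (6 * T / 5) := Real.log_nonneg (by linarith)
  rw [← ENNReal.ofReal_add (by positivity) (by positivity)]
  refine ENNReal.ofReal_le_ofReal ?_
  rw [← add_div]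
  refine div_le_div_of_nonneg_right ?_ hlam.le
  have h3 : C * (9 * T / 10) * Real.log (9 * T / 10) ≤ C * (9 * T / 10) * Real.log T :=
    mul_le_mul_of_nonneg_left l1 (by positivity)
  have h4 : C * (6 * T / 5) * Real.log (6 * T / 5) ≤ C * (6 * T / 5) * (2 * Real.log T) :=
    mul_le_mul_of_nonneg_left l2 (by positivity)
  have h5 : 0 ≤ C * T * Real.log T := by positivity
  nlinarith

end Pool.Agent.Lib.MP_6bc78b_nt.GP.H91C
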