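import Pool.Agent.Lib.MP_6bc78b_nt.GP.H91.Defs6
import Pool.Agent.Lib.MP_6bc78b_nt.GP.H91.Chb5
import Pool.Agent.Lib.MP_6bc78b_nt.MS.P4.H30.Zfac

/-! Project GP6, module CHB6: the measure of the centres with few simple zeros within `2 lam`. -/

set_option autoImplicit false

open Complex Filter Topology MeasureTheory ArithmeticFunction Set
open scoped ENNReal

namespace Pool.Agent.Lib.MP_6bc78b_nt.GP.H91K

open Pool.Agent.Lib.MP_6bc78b_nt Pool.Agent.Lib.MP_6bc78b_nt.MS Pool.Agent.Lib.MP_6bc78b_nt.MS.P1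

/-- The simple zeros within `r` of `t`. -/
def zs (t r : ℝ) : Set ℝ := {γ : ℝ | |γ - t| < r ∧ mz γ = 1}

theorem zero_of_mz {γ : ℝ} (h : mz γ = 1) : riemannZeta (1 / 2 + γ * I) = 0 := by
  by_contra h1
  have h2 : analyticOrderAt riemannZeta (1 / 2 + γ * I) = 0 :=
    (MS.P4.H30.zeta_analyticAt γ).analyticOrderAt_eq_zero.2 h1
  rw [MS.P4.H30.order_eq_mz, h] at h2
  exact absurd h2 (by norm_num)

theorem zs_fin (t r : ℝ) : (zs t r).Finite := by
  refine (H11.zeros_in_compact_finite (|t| + r)).subset ?_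
  rintro γ ⟨h1, h2⟩
  refine ⟨?_, zero_of_mz h2⟩
  have h3 := abs_sub_abs_le_abs_sub γ t
  linarith

/-- The critical line. -/
theorem crit_ne (x : ℝ) : (1 / 2 + x * I : ℂ) ≠ 1 := by
  intro h
  have := congrArg Complex.re h
  norm_num at this

theorem hd0 (x : ℝ) : HasDerivAt (fun x : ℝ => riemannZeta (1 / 2 + x * I))
    (deriv riemannZeta (1 / 2 + x * I) * I) x := by
  have h1 : HasDerivAt riemannZeta (deriv riemannZeta (1 / 2 + x * I)) (1 / 2 + x * I) :=
    (differentiableAt_riemannZeta (crit_ne x)).hasDerivAt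
  have h2 : HasDerivAt (fun x : ℝ => (1 / 2 + x * I : ℂ)) I x := by
    have := (((hasDerivAt_id (x : ℂ)).comp_ofReal).mul_const I).const_add (1 / 2 : ℂ)
    simpa using this
  exact h1.comp x h2

theorem zdiff2 {s : ℂ} (hs : s ≠ 1) : DifferentiableAt ℂ (deriv riemannZeta) s := by
  have ho : IsOpen {z : ℂ | z ≠ 1} := isOpen_ne
  have hd : DifferentiableOn ℂ riemannZeta {z : ℂ | z ≠ 1} := fun z hz =>
    (differentiableAt_riemannZeta hz).differentiableWithinAt
  exact (hd.deriv ho).differentiableAt (ho.mem_nhds hs)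

theorem zdiff3 {s : ℂ} (hs : s ≠ 1) : DifferentiableAt ℂ (deriv (deriv riemannZeta)) s := by
  have ho : IsOpen {z : ℂ | z ≠ 1} := isOpen_ne
  have hd : DifferentiableOn ℂ (deriv riemannZeta) {z : ℂ | z ≠ 1} := fun z hz =>
    (zdiff2 hz).differentiableWithinAt
  exact (hd.deriv ho).differentiableAt (ho.mem_nhds hs)

theorem hd1 (x : ℝ) : HasDerivAt (fun x : ℝ => deriv riemannZeta (1 / 2 + x * I) * I)
    (deriv (deriv riemannZeta) (1 / 2 + x * I) * I * I) x := by
  have h1 : HasDerivAt (deriv riemannZeta) (deriv (deriv riemannZeta) (1 / 2 + x * I))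
      (1 / 2 + x * I) := (zdiff2 (crit_ne x)).hasDerivAt
  have h2 : HasDerivAt (fun x : ℝ => (1 / 2 + x * I : ℂ)) I x := by
    have := (((hasDerivAt_id (x : ℂ)).comp_ofReal).mul_const I).const_add (1 / 2 : ℂ)
    simpa using this
  exact (h1.comp x h2).mul_const I

theorem line_cont : Continuous (fun x : ℝ => (1 / 2 + x * I : ℂ)) := by fun_prop

theorem cont1 : Continuous (fun x : ℝ => deriv riemannZeta (1 / 2 + x * I)) :=
  continuous_iff_continuousAt.2 fun x =>
    ContinuousAt.comp (f := fun x : ℝ => (1 / 2 + x * I : ℂ)) (x := x)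
      (zdiff2 (crit_ne x)).continuousAt line_cont.continuousAt

theorem cont2 : Continuous (fun x : ℝ => deriv (deriv riemannZeta) (1 / 2 + x * I)) :=
  continuous_iff_continuousAt.2 fun x =>
    ContinuousAt.comp (f := fun x : ℝ => (1 / 2 + x * I : ℂ)) (x := x)
      (zdiff3 (crit_ne x)).continuousAt line_cont.continuousAt

theorem gg_cont (L : ℝ) : Continuous (GG6 L) := by
  unfold GG6
  exact (continuous_const.mul (cont2.norm.pow 2)).add (continuous_const.mul (cont1.norm.pow 2))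

theorem gg_nonneg {L : ℝ} (hL : 0 < L) (x : ℝ) : 0 ≤ GG6 L x := by
  unfold GG6
  positivity

/-- The simple zeros in a window: the sum of the derivatives. -/
theorem sum_sq (hcel : CELStatement) {L : ℝ} (hL : 0 < L) (t r : ℝ) (hr : 0 < r) (F : Finset ℝ)
    (hF : ∀ γ ∈ F, |γ - t| < r ∧ mz γ = 1) :
    (∑ γ ∈ F, ‖deriv riemannZeta (1 / 2 + γ * I)‖) ^ 2 ≤
      F.card * ∫ x in (t - r)..(t + r + 1 / L), GG6 L x := by
  have h1 := hcel (fun x : ℝ => riemannZeta (1 / 2 + x * I))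
    (fun x : ℝ => deriv riemannZeta (1 / 2 + x * I) * I)
    (fun x : ℝ => deriv (deriv riemannZeta) (1 / 2 + x * I) * I * I) hd0 hd1
    ((cont2.mul continuous_const).mul continuous_const) (t - r) (t + r) (1 / L) (by linarith)
    (by positivity) F (fun γ hγ => by
      obtain ⟨h2, h3⟩ := hF γ hγ
      have h4 := abs_lt.1 h2
      exact ⟨by linarith, by linarith, zero_of_mz h3⟩)
  have e1 : ∀ z : ℂ, ‖z * I‖ = ‖z‖ := fun z => by rw [norm_mul, Complex.norm_I, mul_one]
  simp only [e1] at h1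
  have h2 : (∑ γ ∈ F, ‖deriv riemannZeta (1 / 2 + γ * I)‖) ^ 2 ≤
      F.card * ∑ γ ∈ F, ‖deriv riemannZeta (1 / 2 + γ * I)‖ ^ 2 := sq_sum_le_card_mul_sum_sq
  exact h2.trans (mul_le_mul_of_nonneg_left h1 (Nat.cast_nonneg _))

/-! ### Means over windows -/

/-- A mean over windows of a continuous function. -/
theorem win_cont {E : Type} [NormedAddCommGroup E] [NormedSpace ℝ E] {f : ℝ → E}
    (hf : Continuous f) (p q : ℝ) : Continuous (fun t : ℝ => ∫ x in (t + p)..(t + q), f x) := by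
  have hi : ∀ a b, IntervalIntegrable f volume a b := fun a b => hf.intervalIntegrable a b
  have h1 : ∀ t : ℝ, ∫ x in (t + p)..(t + q), f x =
      (∫ x in (0 : ℝ)..(t + q), f x) - ∫ x in (0 : ℝ)..(t + p), f x := fun t =>
    (intervalIntegral.integral_interval_sub_left (hi _ _) (hi _ _)).symm
  simp only [h1]
  exact ((intervalIntegral.continuous_primitive hi 0).comp (continuous_id.add continuous_const)).sub
    ((intervalIntegral.continuous_primitive hi 0).comp (continuous_id.add continuous_const))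

/-- The mean of the means over windows. -/
theorem win_int {G : ℝ → ℝ} (hG : Continuous G) (h0 : ∀ x, 0 ≤ G x) {T p q a b : ℝ} (hT : 0 ≤ T)
    (hpq : p ≤ q) (ha : a ≤ T + p) (hb : 2 * T + q ≤ b) :
    ∫ t in T..(2 * T), (∫ x in (t + p)..(t + q), G x) ≤ (q - p) * ∫ x in a..b, G x := by
  have e1 : ∀ t : ℝ, ∫ x in (t + p)..(t + q), G x = ∫ y in p..q, G (t + y) := fun t =>
    (intervalIntegral.integral_comp_add_left G t).symm
  simp only [e1]
  rw [intervalIntegral_intervalIntegral_swap]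
  · have hc : Continuous (fun y : ℝ => ∫ t in T..(2 * T), G (t + y)) := by
      refine intervalIntegral.continuous_parametric_intervalIntegral_of_continuous' ?_ _ _
      exact hG.comp (continuous_snd.add continuous_fst)
    have h1 : ∫ y in p..q, (∫ t in T..(2 * T), G (t + y)) ≤ ∫ _ in p..q, (∫ x in a..b, G x) := by
      refine intervalIntegral.integral_mono_on hpq (hc.intervalIntegrable _ _)
        (continuous_const.intervalIntegrable _ _) fun y hy => ?_
      rw [intervalIntegral.integral_comp_add_right]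
      refine intervalIntegral.integral_mono_interval ?_ ?_ ?_ ?_ (hG.intervalIntegrable _ _)
      · linarith [hy.1]
      · linarith
      · linarith [hy.2]
      · exact Filter.Eventually.of_forall fun x => h0 x
    rwa [intervalIntegral.integral_const, smul_eq_mul] at h1
  · have h2 : Continuous (Function.uncurry fun t y : ℝ => G (t + y)) :=
      hG.comp (continuous_fst.add continuous_snd)
    have h3 : IsCompact (uIcc T (2 * T) ×ˢ uIcc p q) := isCompact_uIcc.prod isCompact_uIcc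
    exact (h2.continuousOn.integrableOn_compact h3).mono_set
      (Set.prod_mono uIoc_subset_uIcc uIoc_subset_uIcc)

/-- Markov's inequality for the means over windows. -/
theorem win_mark {G : ℝ → ℝ} (hG : Continuous G) (h0 : ∀ x, 0 ≤ G x) {T p q a b m : ℝ}
    (hT : 0 ≤ T) (hpq : p ≤ q) (ha : a ≤ T + p) (hb : 2 * T + q ≤ b) (hm : 0 < m) :
    volume {t : ℝ | T ≤ t ∧ t ≤ 2 * T ∧ m ≤ ∫ x in (t + p)..(t + q), G x} ≤
      ENNReal.ofReal ((q - p) * (∫ x in a..b, G x) / m) := by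
  have hc := win_cont hG p q
  have hn : ∀ t, 0 ≤ ∫ x in (t + p)..(t + q), G x := fun t =>
    intervalIntegral.integral_nonneg (by linarith) fun x _ => h0 x
  have h1 : volume {t : ℝ | T ≤ t ∧ t ≤ 2 * T ∧ m ≤ ∫ x in (t + p)..(t + q), G x} =
      (volume.restrict (Icc T (2 * T)))
        {t : ℝ | ENNReal.ofReal m ≤ ENNReal.ofReal (∫ x in (t + p)..(t + q), G x)} := by
    have hms : MeasurableSet {t : ℝ | ENNReal.ofReal m ≤
        ENNReal.ofReal (∫ x in (t + p)..(t + q), G x)} :=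
      measurableSet_le measurable_const hc.measurable.ennreal_ofReal
    rw [Measure.restrict_apply hms]
    congr 1
    ext t
    simp only [Set.mem_ofPred_eq, Set.mem_inter_iff, Set.mem_Icc,
      ENNReal.ofReal_le_ofReal_iff (hn t)]
    tauto
  rw [h1]
  have h2 := meas_ge_le_lintegral_div (μ := volume.restrict (Icc T (2 * T)))
    (f := fun t => ENNReal.ofReal (∫ x in (t + p)..(t + q), G x))
    hc.measurable.ennreal_ofReal.aemeasurable (ε := ENNReal.ofReal m) (by simpa using hm)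
    ENNReal.ofReal_ne_top
  refine h2.trans ?_
  have h3 : ∫⁻ t in Icc T (2 * T), ENNReal.ofReal (∫ x in (t + p)..(t + q), G x) =
      ENNReal.ofReal (∫ t in T..(2 * T), (∫ x in (t + p)..(t + q), G x)) := by
    rw [intervalIntegral.integral_of_le (by linarith), ← integral_Icc_eq_integral_Ioc]
    exact (ofReal_integral_eq_lintegral_ofReal (hc.continuousOn.integrableOn_Icc)
      (Filter.Eventually.of_forall hn)).symm
  rw [h3, ← ENNReal.ofReal_div_of_pos hm]
  exact ENNReal.ofReal_le_ofReal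
    (div_le_div_of_nonneg_right (win_int hG h0 hT hpq ha hb) hm.le)

/-- The Gaussian weight of one zero. -/
theorem gauss_le {H : ℝ} (hH : 0 < H) (γ p q : ℝ) (hpq : p ≤ q) :
    ∫ x in p..q, Real.exp (-((γ - x) ^ 2 / (2 * H ^ 2))) ≤ 3 * H := by
  have hb : 0 < 1 / (2 * H ^ 2) := by positivity
  have e1 : ∀ x : ℝ, Real.exp (-((γ - x) ^ 2 / (2 * H ^ 2))) =
      (fun y : ℝ => Real.exp (-(1 / (2 * H ^ 2)) * y ^ 2)) (γ - x) := fun x => by
    show _ = Real.exp (-(1 / (2 * H ^ 2)) * (γ - x) ^ 2)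
    congr 1
    ring
  have hi : Integrable (fun x : ℝ => Real.exp (-((γ - x) ^ 2 / (2 * H ^ 2)))) := by
    simp only [e1]
    exact (integrable_exp_neg_mul_sq hb).comp_sub_left γ
  rw [intervalIntegral.integral_of_le hpq]
  refine (setIntegral_le_integral hi (Filter.Eventually.of_forall fun x =>
    (Real.exp_pos _).le)).trans ?_
  simp only [e1]
  rw [integral_sub_left_eq_self (fun y : ℝ => Real.exp (-(1 / (2 * H ^ 2)) * y ^ 2)) volume γ,
    integral_gaussian]
  have h1 : Real.pi / (1 / (2 * H ^ 2)) ≤ (3 * H) ^ 2 := by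
    rw [div_div_eq_mul_div, div_one]
    have := Real.pi_lt_four
    nlinarith [sq_nonneg H]
  exact Real.sqrt_le_left (by positivity) |>.2 h1

/-- The lower bound for the mean of `f` over a window. -/
theorem avg_low6 {f : ℝ → ℂ} (hf : Continuous f) {t lam m H : ℝ} (hl : 0 < lam) (hH : 0 < H)
    (F : Finset ℝ) (w : ℝ → ℝ) (hw : ∀ γ, 0 ≤ w γ)
    (h : ∀ x ∈ Icc (t - lam) (t + lam),
      m - ∑ γ ∈ F, w γ * Real.exp (-((γ - x) ^ 2 / (2 * H ^ 2))) ≤ (f x).re) :
    2 * lam * m - 3 * H * ∑ γ ∈ F, w γ ≤ ‖∫ x in (t - lam)..(t + lam), f x‖ := by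
  have hle : t - lam ≤ t + lam := by linarith
  have h1 : (∫ x in (t - lam)..(t + lam), f x).re = ∫ x in (t - lam)..(t + lam), (f x).re :=
    (Complex.reCLM.intervalIntegral_comp_comm (hf.intervalIntegrable _ _)).symm
  have hc : ∀ γ : ℝ, Continuous (fun x : ℝ => w γ * Real.exp (-((γ - x) ^ 2 / (2 * H ^ 2)))) :=
    fun γ => by fun_prop
  have hcs : Continuous (fun x : ℝ => ∑ γ ∈ F, w γ * Real.exp (-((γ - x) ^ 2 / (2 * H ^ 2)))) :=
    continuous_finsetSum _ fun γ _ => hc γ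
  have h2 : ∫ x in (t - lam)..(t + lam),
      (m - ∑ γ ∈ F, w γ * Real.exp (-((γ - x) ^ 2 / (2 * H ^ 2)))) ≤
      ∫ x in (t - lam)..(t + lam), (f x).re :=
    intervalIntegral.integral_mono_on hle ((continuous_const.sub hcs).intervalIntegrable _ _)
      ((Complex.continuous_re.comp hf).intervalIntegrable _ _) h
  rw [intervalIntegral.integral_sub (continuous_const.intervalIntegrable _ _)
    (hcs.intervalIntegrable _ _), intervalIntegral.integral_const, smul_eq_mul,
    intervalIntegral.integral_finsetSum fun γ _ => (hc γ).intervalIntegrable _ _] at h2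
  have h3 : t + lam - (t - lam) = 2 * lam := by ring
  have h4 : ∑ γ ∈ F, (∫ x in (t - lam)..(t + lam),
      w γ * Real.exp (-((γ - x) ^ 2 / (2 * H ^ 2)))) ≤ ∑ γ ∈ F, w γ * (3 * H) := by
    refine Finset.sum_le_sum fun γ _ => ?_
    rw [intervalIntegral.integral_const_mul]
    exact mul_le_mul_of_nonneg_left (gauss_le hH γ _ _ hle) (hw γ)
  rw [← Finset.sum_mul] at h4
  rw [h3, ← h1] at h2
  have h5 := Complex.re_le_norm (∫ x in (t - lam)..(t + lam), f x)
  linarith

/-- Markov's inequality for the square of a continuous function. -/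
theorem sq_mark {f : ℝ → ℂ} (hf : Continuous f) {m B : ℝ} (hm : 0 < m)
    (h : ∫⁻ t : ℝ, ENNReal.ofReal (‖f t‖ ^ 2) ≤ ENNReal.ofReal B) :
    volume {t : ℝ | m ≤ ‖f t‖} ≤ ENNReal.ofReal (B / m ^ 2) := by
  have hm2 : 0 < m ^ 2 := by positivity
  have h1 : {t : ℝ | m ≤ ‖f t‖} ⊆
      {t : ℝ | ENNReal.ofReal (m ^ 2) ≤ ENNReal.ofReal (‖f t‖ ^ 2)} := fun t ht =>
    ENNReal.ofReal_le_ofReal (pow_le_pow_left₀ hm.le ht 2)
  refine (measure_mono h1).trans ?_
  refine (meas_ge_le_lintegral_div (f := fun t => ENNReal.ofReal (‖f t‖ ^ 2))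
    (hf.norm.pow 2).measurable.ennreal_ofReal.aemeasurable (by simpa using hm2.ne')
    ENNReal.ofReal_ne_top).trans ?_
  rw [ENNReal.ofReal_div_of_pos hm2]
  exact ENNReal.div_le_div_right h _

theorem alg1 {c lam L η : ℝ} (hη : 0 < η) :
    ((c / 12) ^ 2 * η * lam) * (lam * L ^ 4 / η) = (c / 12 * (lam * L ^ 2)) ^ 2 := by
  have h : η ≠ 0 := hη.ne'
  field_simp

theorem alg2 {x y : ℝ} (hx : 0 ≤ x) (hy : 0 ≤ y) (h : x ^ 2 ≤ y ^ 2) : x ≤ y :=
  (sq_le_sq₀ hx hy).1 h

theorem alg3 {c C₁ lam L H T : ℝ} (hc : 0 < c) (hlam : 0 < lam) (hL : 0 < L) (hH : 0 < H) :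
    8 * lam ^ 2 * H ^ 2 * (C₁ * T * L ^ 5 / lam) / (lam * (c * H * L ^ 2)) ^ 2 =
      8 * C₁ / c ^ 2 * T * (L / lam) := by
  field_simp

theorem alg4 {C₂ lam L T η : ℝ} (hη : 0 < η) :
    (5 * lam) * (C₂ * T * L ^ 4) = 5 * C₂ * T * η * (lam * L ^ 4 / η) := by
  have h : η ≠ 0 := hη.ne'
  field_simp

theorem alg5 {s lam : ℝ} (hs : 0 < s) : 5 * s * (lam / (5 * s)) = lam := by
  field_simp

theorem alg6 {c H L : ℝ} (hc : 0 < c) (hL : 8 / c + 1 ≤ L) (hH : 1 ≤ H) (hL1 : 1 ≤ L) :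
    8 ≤ c * H * L ^ 2 := by
  have e9 : 8 / c ≤ L := by linarith
  have e10 : 8 ≤ c * L := by
    rw [div_le_iff₀ hc] at e9
    linarith
  have e11 : 1 ≤ H * L := by nlinarith
  have e12 : 0 ≤ c * L := by linarith
  calc (8 : ℝ) ≤ (c * L) * 1 := by linarith
    _ ≤ (c * L) * (H * L) := mul_le_mul_of_nonneg_left e11 e12
    _ = c * H * L ^ 2 := by ring

/-- The lower bound for the window, from the pointwise bound. -/
theorem point {f : ℝ → ℂ} (hf : Continuous f) {t lam H c L : ℝ} (hl : 0 < lam) (hH : 0 < H)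
    (F : Finset ℝ) (w : ℝ → ℝ) (hw : ∀ γ, 0 ≤ w γ)
    (hsum : ∑ γ ∈ F, w γ ≤ c / 12 * (lam * L ^ 2)) (h8 : 8 ≤ c * H * L ^ 2)
    (h : ∀ x ∈ Icc (t - lam) (t + lam),
      (c * H * L ^ 2 - 2) - ∑ γ ∈ F, w γ * Real.exp (-((γ - x) ^ 2 / (2 * H ^ 2))) ≤ (f x).re) :
    lam * (c * H * L ^ 2) ≤ ‖∫ x in (t - lam)..(t + lam), f x‖ := by
  refine le_trans ?_ (avg_low6 hf hl hH F w hw h)
  have hS4 : 3 * H * ∑ γ ∈ F, w γ ≤ 3 * H * (c / 12 * (lam * L ^ 2)) :=
    mul_le_mul_of_nonneg_left hsum (by linarith)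
  have hS5 : 3 * H * (c / 12 * (lam * L ^ 2)) = 1 / 4 * (lam * (c * H * L ^ 2)) := by ring
  have hS6 : 8 * lam ≤ lam * (c * H * L ^ 2) := by
    rw [mul_comm 8 lam]
    exact mul_le_mul_of_nonneg_left h8 hl.le
  have hS7 : 2 * lam * (c * H * L ^ 2 - 2) = 2 * (lam * (c * H * L ^ 2)) - 4 * lam := by ring
  rw [hS7]
  linarith

/-- The pointwise bound. -/
theorem re_low {S I₀ R : ℂ} {m s : ℝ} (e1 : ‖S - I₀ - R‖ ≤ 1) (e2 : m ≤ I₀.re)
    (e3 : ‖R‖ ≤ 1 + s) : (m - 2) - s ≤ S.re := by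
  have e4 : ‖S - I₀‖ ≤ 2 + s := by
    have e5 : S - I₀ = (S - I₀ - R) + R := by ring
    rw [e5]
    refine (norm_add_le _ _).trans ?_
    linarith
  have e7 := Complex.abs_re_le_norm (S - I₀)
  have e8 := neg_abs_le (S - I₀).re
  rw [Complex.sub_re] at e7 e8
  linarith

/-- Measure of the centres at which the mean of the zeta moment is large. -/
theorem mom_mark {C₂ T lam L η : ℝ} (hL1 : 1 ≤ L) (hT0 : 0 < T) (hlam : 50 ≤ lam)
    (hl2 : lam ≤ T / 4) (hη : 0 < η) (hC₂ : 0 < C₂)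
    (h8T : ∫ x in (T / 2)..(5 * T), GG6 L x ≤ C₂ * T * L ^ 4) :
    volume {t : ℝ | T ≤ t ∧ t ≤ 2 * T ∧ lam * L ^ 4 / η ≤
        ∫ x in (t + -(2 * lam))..(t + (2 * lam + 1 / L)), GG6 L x} ≤
      ENNReal.ofReal (5 * C₂ * T * η) := by
  have hL0 : 0 < L := by linarith
  have hm2p : 0 < lam * L ^ 4 / η := by positivity
  have hiL : 1 / L ≤ 1 := by
    rw [div_le_one hL0]
    exact hL1
  have hiL0 : 0 < 1 / L := by positivity
  refine (win_mark (gg_cont L) (gg_nonneg hL0) (a := T / 2) (b := 5 * T) hT0.le (by linarith)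
    (by linarith) (by linarith) hm2p).trans (ENNReal.ofReal_le_ofReal ?_)
  rw [div_le_iff₀ hm2p]
  have e1 : 2 * lam + 1 / L - -(2 * lam) ≤ 5 * lam := by linarith
  have e2 : 0 ≤ ∫ x in (T / 2)..(5 * T), GG6 L x :=
    intervalIntegral.integral_nonneg (by linarith) fun x _ => gg_nonneg hL0 x
  rw [← alg4 hη]
  exact mul_le_mul e1 h8T e2 (by linarith)


end Pool.Agent.Lib.MP_6bc78b_nt.GP.H91K
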