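import Pool.Agent.Lib.MP_6bc78b_nt.GP.H91.Defs6

/-! Project GP6, module CEL: the derivatives at the zeros of a function on the line. -/

set_option autoImplicit false

open MeasureTheory Set

namespace Pool.Agent.Lib.MP_6bc78b_nt.GP.H91E

/-- Cauchy-Schwarz: the square of an integral over an interval. -/
theorem sq_int_le {g : ℝ → ℝ} (hg : Continuous g) {p q : ℝ} (hpq : p ≤ q) :
    (∫ x in p..q, g x) ^ 2 ≤ (q - p) * ∫ x in p..q, g x ^ 2 := by
  -- `∫ (g - m)² ≥ 0` for the mean `m`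
  rcases hpq.eq_or_lt with h | h
  · rw [← h]
    simp
  set A := ∫ x in p..q, g x with hA
  have hd : 0 < q - p := by linarith
  have h1 : 0 ≤ ∫ x in p..q, (g x - A / (q - p)) ^ 2 :=
    intervalIntegral.integral_nonneg hpq fun x _ => sq_nonneg _
  have hi1 : IntervalIntegrable (fun x => g x ^ 2) volume p q := (hg.pow 2).intervalIntegrable _ _
  have hi2 : IntervalIntegrable (fun x => 2 * (A / (q - p)) * g x) volume p q :=
    (continuous_const.mul hg).intervalIntegrable _ _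
  have hi3 : IntervalIntegrable (fun _ : ℝ => (A / (q - p)) ^ 2) volume p q :=
    continuous_const.intervalIntegrable _ _
  have h2 : ∫ x in p..q, (g x - A / (q - p)) ^ 2 =
      (∫ x in p..q, g x ^ 2) - 2 * (A / (q - p)) * A + (q - p) * (A / (q - p)) ^ 2 := by
    have e1 : ∀ x, (g x - A / (q - p)) ^ 2 =
        g x ^ 2 - 2 * (A / (q - p)) * g x + (A / (q - p)) ^ 2 := fun x => by ring
    simp only [e1]
    rw [intervalIntegral.integral_add (hi1.sub hi2) hi3, intervalIntegral.integral_sub hi1 hi2,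
      intervalIntegral.integral_const_mul, intervalIntegral.integral_const, smul_eq_mul]
  rw [h2] at h1
  have h3 : (q - p) * ((∫ x in p..q, g x ^ 2) - 2 * (A / (q - p)) * A +
      (q - p) * (A / (q - p)) ^ 2) = (q - p) * (∫ x in p..q, g x ^ 2) - A ^ 2 := by
    field_simp
    ring
  have h4 := mul_nonneg hd.le h1
  rw [h3] at h4
  linarith

variable {f f1 f2 : ℝ → ℂ}

/-- The variation of the derivative. -/
theorem diff_le (h2 : ∀ x, HasDerivAt f1 (f2 x) x) (hc : Continuous f2) {p q x : ℝ} (hpx : p ≤ x)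
    (hxq : x ≤ q) : ‖f1 x - f1 p‖ ≤ ∫ y in p..q, ‖f2 y‖ := by
  have e1 : ∫ y in p..x, f2 y = f1 x - f1 p :=
    intervalIntegral.integral_eq_sub_of_hasDerivAt (fun y _ => h2 y) (hc.intervalIntegrable _ _)
  rw [← e1]
  refine (intervalIntegral.norm_integral_le_integral_norm hpx).trans ?_
  have e2 := intervalIntegral.integral_add_adjacent_intervals
    (hc.norm.intervalIntegrable (μ := volume) p x) (hc.norm.intervalIntegrable x q)
  have e3 : 0 ≤ ∫ y in x..q, ‖f2 y‖ :=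
    intervalIntegral.integral_nonneg hxq fun y _ => norm_nonneg _
  linarith

/-- The next zero is near. -/
theorem near (h1 : ∀ x, HasDerivAt f (f1 x) x) (h2 : ∀ x, HasDerivAt f1 (f2 x) x)
    (hc : Continuous f2) {p q : ℝ} (hpq : p < q) (hp : f p = 0) (hq : f q = 0) :
    ‖f1 p‖ ≤ ∫ y in p..q, ‖f2 y‖ := by
  have hc1 : Continuous f1 := continuous_iff_continuousAt.2 fun x => (h2 x).continuousAt
  have e1 : ∫ y in p..q, f1 y = 0 := by
    rw [intervalIntegral.integral_eq_sub_of_hasDerivAt (fun y _ => h1 y)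
      (hc1.intervalIntegrable _ _), hp, hq, sub_zero]
  have e2 : ∫ y in p..q, (f1 y - f1 p) = -((q - p : ℝ) : ℂ) * f1 p := by
    rw [intervalIntegral.integral_sub (hc1.intervalIntegrable _ _)
      (continuous_const.intervalIntegrable _ _), e1, intervalIntegral.integral_const]
    simp only [zero_sub, Complex.real_smul, neg_mul]
  have e3 : ‖∫ y in p..q, (f1 y - f1 p)‖ ≤ (∫ y in p..q, ‖f2 y‖) * |q - p| := by
    refine intervalIntegral.norm_integral_le_of_norm_le_const fun y hy => ?_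
    rw [uIoc_of_le hpq.le] at hy
    exact diff_le h2 hc hy.1.le hy.2
  have hd : 0 < q - p := by linarith
  rw [e2, norm_mul, norm_neg, Complex.norm_real, Real.norm_eq_abs, abs_of_pos hd,
    mul_comm] at e3
  exact le_of_mul_le_mul_right e3 hd

/-- No zero is near. -/
theorem far (h2 : ∀ x, HasDerivAt f1 (f2 x) x) (hc : Continuous f2) {p δ : ℝ} (hδ : 0 < δ) :
    ‖f1 p‖ ≤ 1 / δ * (∫ y in p..(p + δ), ‖f1 y‖) + ∫ y in p..(p + δ), ‖f2 y‖ := by
  have hc1 : Continuous f1 := continuous_iff_continuousAt.2 fun x => (h2 x).continuousAt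
  set B := ∫ y in p..(p + δ), ‖f2 y‖ with hB
  have e1 : ∫ _ in p..(p + δ), (‖f1 p‖ - B) ≤ ∫ y in p..(p + δ), ‖f1 y‖ := by
    refine intervalIntegral.integral_mono_on (by linarith)
      (continuous_const.intervalIntegrable _ _) (hc1.norm.intervalIntegrable _ _) fun x hx => ?_
    have e2 := diff_le h2 hc hx.1 hx.2
    have e3 := norm_sub_norm_le (f1 p) (f1 x)
    rw [norm_sub_rev] at e3
    linarith
  rw [intervalIntegral.integral_const, smul_eq_mul, add_sub_cancel_left] at e1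
  have e4 : ‖f1 p‖ - B ≤ 1 / δ * ∫ y in p..(p + δ), ‖f1 y‖ := by
    rw [one_div, inv_mul_eq_div, le_div_iff₀ hδ]
    linarith
  linarith

/-- The density. -/
noncomputable def dn (f1 f2 : ℝ → ℂ) (δ x : ℝ) : ℝ := 2 * δ * ‖f2 x‖ ^ 2 + 2 / δ * ‖f1 x‖ ^ 2

theorem dn_nonneg {δ : ℝ} (hδ : 0 < δ) (x : ℝ) : 0 ≤ dn f1 f2 δ x := by
  unfold dn
  positivity

theorem dn_cont (hc1 : Continuous f1) (hc : Continuous f2) (δ : ℝ) : Continuous (dn f1 f2 δ) := by
  unfold dn
  exact (continuous_const.mul (hc.norm.pow 2)).add (continuous_const.mul (hc1.norm.pow 2))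

/-- One zero. -/
theorem one (h1 : ∀ x, HasDerivAt f (f1 x) x) (h2 : ∀ x, HasDerivAt f1 (f2 x) x)
    (hc : Continuous f2) {p q δ : ℝ} (hδ : 0 < δ) (hpq : p < q) (hp : f p = 0)
    (hq : (q ≤ p + δ ∧ f q = 0) ∨ q = p + δ) :
    ‖f1 p‖ ^ 2 ≤ ∫ x in p..q, dn f1 f2 δ x := by
  have hc1 : Continuous f1 := continuous_iff_continuousAt.2 fun x => (h2 x).continuousAt
  have hi1 : IntervalIntegrable (fun x => 2 * δ * ‖f2 x‖ ^ 2) volume p q :=
    (continuous_const.mul (hc.norm.pow 2)).intervalIntegrable _ _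
  have hi2 : IntervalIntegrable (fun x => 2 / δ * ‖f1 x‖ ^ 2) volume p q :=
    (continuous_const.mul (hc1.norm.pow 2)).intervalIntegrable _ _
  have e0 : ∫ x in p..q, dn f1 f2 δ x = 2 * δ * (∫ x in p..q, ‖f2 x‖ ^ 2) +
      2 / δ * ∫ x in p..q, ‖f1 x‖ ^ 2 := by
    unfold dn
    rw [intervalIntegral.integral_add hi1 hi2, intervalIntegral.integral_const_mul,
      intervalIntegral.integral_const_mul]
  rw [e0]
  set A2 := ∫ x in p..q, ‖f2 x‖ ^ 2 with hA2
  set A1 := ∫ x in p..q, ‖f1 x‖ ^ 2 with hA1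
  have n2 : 0 ≤ A2 := intervalIntegral.integral_nonneg hpq.le fun x _ => by positivity
  have n1 : 0 ≤ A1 := intervalIntegral.integral_nonneg hpq.le fun x _ => by positivity
  have c2 := sq_int_le hc.norm hpq.le (g := fun x => ‖f2 x‖)
  have c1 := sq_int_le hc1.norm hpq.le (g := fun x => ‖f1 x‖)
  rcases hq with ⟨hq1, hq2⟩ | hq
  · have e1 := near h1 h2 hc hpq hp hq2
    have e2 : ‖f1 p‖ ^ 2 ≤ (∫ y in p..q, ‖f2 y‖) ^ 2 := pow_le_pow_left₀ (norm_nonneg _) e1 2
    have e3 : (q - p) * A2 ≤ δ * A2 := mul_le_mul_of_nonneg_right (by linarith) n2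
    have e4 : 0 ≤ 2 / δ * A1 := by positivity
    have e5 : 0 ≤ δ * A2 := by positivity
    linarith
  · subst hq
    have e1 := far (f1 := f1) h2 hc (p := p) hδ
    have e2 : ‖f1 p‖ ^ 2 ≤ (1 / δ * (∫ y in p..(p + δ), ‖f1 y‖) +
        ∫ y in p..(p + δ), ‖f2 y‖) ^ 2 := pow_le_pow_left₀ (norm_nonneg _) e1 2
    rw [add_sub_cancel_left] at c1 c2
    have e3 : (1 / δ * (∫ y in p..(p + δ), ‖f1 y‖)) ^ 2 ≤ 1 / δ * A1 := by
      rw [mul_pow]
      have e4 : (1 / δ) ^ 2 * (∫ y in p..(p + δ), ‖f1 y‖) ^ 2 ≤ (1 / δ) ^ 2 * (δ * A1) :=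
        mul_le_mul_of_nonneg_left c1 (by positivity)
      have e5 : (1 / δ) ^ 2 * (δ * A1) = 1 / δ * A1 := by
        field_simp
      linarith
    have e6 : ∀ x y : ℝ, (x + y) ^ 2 ≤ 2 * x ^ 2 + 2 * y ^ 2 := fun x y => by
      nlinarith [sq_nonneg (x - y)]
    have e7 := e6 (1 / δ * (∫ y in p..(p + δ), ‖f1 y‖)) (∫ y in p..(p + δ), ‖f2 y‖)
    have e8 : 2 / δ * A1 = 2 * (1 / δ * A1) := by ring
    have e9 : 2 * δ * A2 = 2 * (δ * A2) := by ring
    rw [e8, e9]
    linarith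

/-- CEL. -/
theorem cel : CELStatement := by
  intro f f1 f2 h1 h2 hc a b δ hab hδ S
  have hc1 : Continuous f1 := continuous_iff_continuousAt.2 fun x => (h2 x).continuousAt
  have hdc := dn_cont hc1 hc δ
  show (∀ γ ∈ S, a ≤ γ ∧ γ ≤ b ∧ f γ = 0) → ∑ γ ∈ S, ‖f1 γ‖ ^ 2 ≤
    ∫ x in a..(b + δ), dn f1 f2 δ x
  -- induction on the largest element: the bound ends at the next zero
  have key : ∀ S : Finset ℝ, ∀ a : ℝ, (∀ γ ∈ S, a ≤ γ ∧ f γ = 0) → ∀ c : ℝ,
      (∀ γ ∈ S, γ + δ ≤ c ∨ (γ < c ∧ c ≤ γ + δ ∧ f c = 0)) → a ≤ c →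
      ∑ γ ∈ S, ‖f1 γ‖ ^ 2 ≤ ∫ x in a..c, dn f1 f2 δ x := by
    intro S
    induction S using Finset.induction_on_max with
    | empty =>
      intro a _ c _ hac
      rw [Finset.sum_empty]
      exact intervalIntegral.integral_nonneg hac fun x _ => dn_nonneg hδ x
    | insert p S hp ih =>
      intro a hS c hcS hac
      have hpS : p ∉ S := fun h => lt_irrefl _ (hp p h)
      rw [Finset.sum_insert hpS]
      obtain ⟨hap, hfp⟩ := hS p (Finset.mem_insert_self p S)
      -- the interval of `p`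
      have hq : ∃ q, p < q ∧ q ≤ c ∧ ((q ≤ p + δ ∧ f q = 0) ∨ q = p + δ) := by
        rcases hcS p (Finset.mem_insert_self p S) with h | ⟨h, h', h''⟩
        · exact ⟨p + δ, by linarith, h, Or.inr rfl⟩
        · exact ⟨c, h, le_rfl, Or.inl ⟨h', h''⟩⟩
      obtain ⟨q, hpq, hqc, hq⟩ := hq
      have e1 := one h1 h2 hc hδ hpq hfp hq
      have e2 := ih a (fun γ hγ => hS γ (Finset.mem_insert_of_mem hγ)) p (fun γ hγ => by
        by_cases h : γ + δ ≤ p
        · exact Or.inl h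
        · exact Or.inr ⟨hp γ hγ, (not_le.1 h).le, hfp⟩) hap
      have e3 := intervalIntegral.integral_add_adjacent_intervals
        (hdc.intervalIntegrable (μ := volume) a p) (hdc.intervalIntegrable p c)
      have e4 := intervalIntegral.integral_add_adjacent_intervals
        (hdc.intervalIntegrable (μ := volume) p q) (hdc.intervalIntegrable q c)
      have e5 : 0 ≤ ∫ x in q..c, dn f1 f2 δ x :=
        intervalIntegral.integral_nonneg hqc fun x _ => dn_nonneg hδ x
      linarith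
  intro hS
  refine key S a (fun γ hγ => ⟨(hS γ hγ).1, (hS γ hγ).2.2⟩) (b + δ) (fun γ hγ => Or.inl ?_)
    (by linarith)
  have := (hS γ hγ).2.1
  linarith

end Pool.Agent.Lib.MP_6bc78b_nt.GP.H91E
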