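import Pool.Agent.Lib.MP_6bc78b_nt.GP.H6.Defs5

/-! Project GP6 (MP_6bc78b_nt): the number of simple zeros in almost all short windows, under RH.
Statements of the rows (compare `GP/H6/Defs5.lean`). -/

set_option autoImplicit false

open Complex Filter Topology MeasureTheory ArithmeticFunction Set
open scoped ENNReal

namespace Pool.Agent.Lib.MP_6bc78b_nt.GP

open Pool.Agent.Lib.MP_6bc78b_nt.MS Pool.Agent.Lib.MP_6bc78b_nt.MS.P1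

/-- CEL: the derivatives at the zeros of a function on the line (no hypothesis). -/
def CELStatement : Prop := ∀ f f1 f2 : ℝ → ℂ, (∀ x, HasDerivAt f (f1 x) x) →
  (∀ x, HasDerivAt f1 (f2 x) x) → Continuous f2 → ∀ a b δ : ℝ, a ≤ b → 0 < δ →
    ∀ S : Finset ℝ, (∀ γ ∈ S, a ≤ γ ∧ γ ≤ b ∧ f γ = 0) →
      ∑ γ ∈ S, ‖f1 γ‖ ^ 2 ≤ ∫ x in a..(b + δ), (2 * δ * ‖f2 x‖ ^ 2 + 2 / δ * ‖f1 x‖ ^ 2)

/-- The density of CEL for `ζ(1/2 + ix)` and `δ = 1/L`. -/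
noncomputable def GG6 (L x : ℝ) : ℝ :=
  2 * (1 / L) * ‖deriv (deriv riemannZeta) (1 / 2 + x * I)‖ ^ 2 +
    2 / (1 / L) * ‖deriv riemannZeta (1 / 2 + x * I)‖ ^ 2

/-- MOM6 (from ZMS, and `CHI`, `CHX` of part I): second moments of `ζ'` and `ζ''` on the critical
line. -/
def MOM6Statement : Prop := ∃ C T0 : ℝ, 0 < C ∧ 10 < T0 ∧ ∀ T : ℝ, T0 ≤ T →
  ∫ x in (T / 2)..(5 * T), GG6 (Real.log T) x ≤ C * T * Real.log T ^ 4

/-- TLS6 (from GAMC): `TLSStatement` with the simple zeros near `x`. -/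
def TLS6Statement : Prop := RiemannHypothesis → ∃ T0 : ℝ, 10 < T0 ∧ ∀ T x δ H : ℝ, T0 ≤ T →
  T ≤ x → x ≤ 2 * T → 1 / T ≤ δ → δ ≤ 2 / T → 1 ≤ H → H ≤ T / Real.log T → ∀ F : Finset ℝ,
  (∀ γ : ℝ, |γ - x| < 5 * Real.sqrt (Real.log T) * H → mz γ = 1 → γ ∈ F) →
    ‖SS T δ H x‖ ≤ 1 + ∑ γ ∈ F, ‖deriv riemannZeta (1 / 2 + γ * I)‖ *
      Real.exp (-((γ - x) ^ 2 / (2 * H ^ 2)))

/-- CHB6 (from DX1, AVGW, BOX, CON, LFTR, TLS6, ETR, CEL, MOM6): the measure of the centres with few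
simple zeros within `2 lam`. -/
def CHB6Statement : Prop := RiemannHypothesis → ∃ c C C0 T0 : ℝ, 0 < c ∧ 0 < C ∧ 1 ≤ C0 ∧
  10 < T0 ∧ ∀ T lam η : ℝ, T0 ≤ T → C0 * Real.log T ≤ lam → lam ≤ T / 10 → 0 < η →
    volume {t : ℝ | T ≤ t ∧ t ≤ 2 * T ∧
      (({γ : ℝ | |γ - t| < 2 * lam ∧ mz γ = 1}.ncard : ℕ) : ℝ) ≤ c * η * lam} ≤
      ENNReal.ofReal (C * T * (Real.log T / lam + η))

/-- FIN6 (from CHB6): the number of simple zeros in almost all windows. -/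
def CountStatement6 : Prop := RiemannHypothesis → ∃ c C : ℝ, 0 < c ∧ 0 < C ∧
  ∀ T h η : ℝ, 2 ≤ T → 0 < h → h ≤ T → 0 < η →
    volume {t : ℝ | 0 ≤ t ∧ t ≤ T ∧
      (({γ : ℝ | t < γ ∧ γ < t + h ∧ zeroMult γ = 1}.ncard : ℕ) : ℝ) ≤ c * η * h} ≤
      ENNReal.ofReal (C * T * (Real.log T / h + η))

end Pool.Agent.Lib.MP_6bc78b_nt.GP
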