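import Pool.Agent.Lib.MP_6bc78b_nt.GP.H91.Near2
import Pool.Agent.Lib.MP_6bc78b_nt.GP.H43.Defs11t

/-! Project GP11 (MP_6bc78b_nt), row NEART. -/

set_option autoImplicit false

open Complex Filter Topology MeasureTheory ArithmeticFunction Set
open scoped ENNReal

namespace Pool.Agent.Lib.MP_6bc78b_nt.GP.H91N

open Pool.Agent.Lib.MP_6bc78b_nt Pool.Agent.Lib.MP_6bc78b_nt.MS Pool.Agent.Lib.MP_6bc78b_nt.MS.P1
open Pool.Agent.Lib.MP_6bc78b_nt.GP Pool.Agent.Lib.MP_6bc78b_nt.GP.G7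
open Pool.Agent.Lib.MP_6bc78b_nt.GP.G10 Pool.Agent.Lib.MP_6bc78b_nt.GP.H91
open Pool.Agent.Lib.MP_6bc78b_nt.GP.H91C

lemma mol_N {S : Finset ℕ} {β : ℕ → ℝ} {N N' ν : ℝ} (h : Mol S β N ν) (hN : N ≤ N') :
    Mol S β N' ν :=
  ⟨h.one_le, fun m hm => (h.le m hm).trans hN, h.nonneg, h.sum_one, h.sum_lcm⟩

lemma scl_N {w : ℝ} {K : ℕ} {S : Finset ℕ} {β : ℕ → ℝ} {S' : ℕ → Finset ℕ} {β' : ℕ → ℕ → ℝ}
    {N N' ν : ℝ} (h : Scl w K S β S' β' N ν) (hN : N ≤ N') : Scl w K S β S' β' N' ν :=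
  ⟨mol_N h.mol hN, fun k hk => mol_N (h.mol' k hk) hN, h.one_le, h.fac, h.sq⟩

/-- The sum of `|B|` over the zeros. -/
lemma pB_sumt (hzdb : ZDTStatement) (hRH : RiemannHypothesis) : ∃ C T0 : ℝ, 0 < C ∧ 10 < T0 ∧
    ∀ (T q : ℝ) (S : Finset ℕ) (β : ℕ → ℝ) (Z : Finset ℝ), T0 ≤ T → 0 < q →
      Mol S β (T ^ (1 / 100 : ℝ)) 1 → Z ⊆ ZF T →
      ∑ m ∈ S, β m ^ 2 / m ≤ q ^ 2 → 1 ≤ Real.log T * q ^ 2 →
      ∑ γ ∈ Z, ‖pB S β (1 / 2 + γ * I)‖ ≤ C * q * (T * Real.log T) := by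
  obtain ⟨Cz, Tz, hCz, hTz, hz⟩ := hzdb hRH
  obtain ⟨Cn, Tn, hCn, hTn, hn⟩ := zcount
  refine ⟨Real.sqrt (2 * Cn * Cz), max Tz Tn, by positivity, lt_max_of_lt_left hTz,
    fun T q S β Z hT hq hM1 hZ hsq hq1 => ?_⟩
  have hTTz : Tz ≤ T := (le_max_left _ _).trans hT
  have hTTn : Tn ≤ T := (le_max_right _ _).trans hT
  have hTp : 0 < T := by linarith
  have hL0 : 0 < Real.log T := Real.log_pos (by linarith)
  have hcard := hn T hTTn Z hZ
  have hsq2 : ∑ γ ∈ Z, ‖pB S β (1 / 2 + γ * I)‖ ^ 2 ≤ 2 * Cz * q ^ 2 * (T * Real.log T) := by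
    have h5 := hz T S β hTTz hM1
    rw [finsum_mem_eq_finite_toFinset_sum _ (zfin T)] at h5
    have h6 : ∑ γ ∈ Z, ‖pB S β (1 / 2 + γ * I)‖ ^ 2 ≤
        ∑ γ ∈ (zfin T).toFinset, (mz γ : ℝ) * ‖pB S β (1 / 2 + γ * I)‖ ^ 2 := by
      have h7 : ∑ γ ∈ Z, ‖pB S β (1 / 2 + γ * I)‖ ^ 2 ≤
          ∑ γ ∈ Z, (mz γ : ℝ) * ‖pB S β (1 / 2 + γ * I)‖ ^ 2 := by
        refine Finset.sum_le_sum fun γ hγ => ?_
        have hm1 := MS.P4.H30.zfac.2.2.1 γ (mem_ZF.1 (hZ hγ)).2.2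
        have hm2 : (1 : ℝ) ≤ mz γ := by exact_mod_cast hm1
        exact le_mul_of_one_le_left (sq_nonneg _) hm2
      exact h7.trans (Finset.sum_le_sum_of_subset_of_nonneg hZ fun γ _ _ => by positivity)
    refine h6.trans (h5.trans ?_)
    have h8 : Real.log T * ∑ m ∈ S, β m ^ 2 / (m : ℝ) ≤ Real.log T * q ^ 2 :=
      mul_le_mul_of_nonneg_left hsq hL0.le
    calc Cz * T * (Real.log T * ∑ m ∈ S, β m ^ 2 / (m : ℝ) + 1)
        ≤ Cz * T * (Real.log T * q ^ 2 + Real.log T * q ^ 2) :=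
          mul_le_mul_of_nonneg_left (by linarith) (by positivity)
      _ = 2 * Cz * q ^ 2 * (T * Real.log T) := by ring
  have h5 : (∑ γ ∈ Z, ‖pB S β (1 / 2 + γ * I)‖) ^ 2 ≤
      (Z.card : ℝ) * ∑ γ ∈ Z, ‖pB S β (1 / 2 + γ * I)‖ ^ 2 := sq_sum_le_card_mul_sum_sq
  have h6 : (∑ γ ∈ Z, ‖pB S β (1 / 2 + γ * I)‖) ^ 2 ≤
      (Real.sqrt (2 * Cn * Cz) * q * (T * Real.log T)) ^ 2 := by
    have h0 : 0 ≤ ∑ γ ∈ Z, ‖pB S β (1 / 2 + γ * I)‖ ^ 2 :=
      Finset.sum_nonneg fun _ _ => sq_nonneg _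
    have h7 : (Real.sqrt (2 * Cn * Cz) * q * (T * Real.log T)) ^ 2 =
        (Cn * (T * Real.log T)) * (2 * Cz * q ^ 2 * (T * Real.log T)) := by
      rw [mul_pow, mul_pow, Real.sq_sqrt (by positivity)]
      ring
    rw [h7]
    refine h5.trans (mul_le_mul hcard hsq2 h0 (by positivity))
  exact (abs_le_of_sq_le_sq' h6 (by positivity)).2

/-- NEAR for a given polynomial with the multiscale structure. -/
theorem near0t (hdx : DX1Statement) (herb : ERTStatement)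
    (hcon : CONTStatement) (havb : AVBStatement) (hmain : MAINTStatement) (hfar : FARTStatement)
    (hzdb : ZDTStatement) (hG : GAMCStatement) (hE : ETRStatement) (hRH : RiemannHypothesis) :
    ∃ c : ℝ, 0 < c ∧ ∀ ε : ℝ, 0 < ε → ∃ ν η : ℝ, 0 < ν ∧ ν ≤ 1 ∧ 0 < η ∧
      η ≤ 1 / 100 ∧ ∀ w : ℝ, 2 ≤ w →
      ∃ lam κ : ℝ, 1 ≤ lam ∧ 0 < κ ∧ ∃ T0 : ℝ, 10 < T0 ∧
        ∀ (T g : ℝ) (K : ℕ) (S : Finset ℕ) (β : ℕ → ℝ) (S' : ℕ → Finset ℕ) (β' : ℕ → ℕ → ℝ),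
          T0 ≤ T → 1200 * Real.log (Real.log T) ≤ pk w K →
          pk w K ≤ (1200 * Real.log (Real.log T)) ^ 2 →
          Scl w K S β S' β' (T ^ η) ν →
          0 < g → g ^ 2 ≤ κ ^ 2 * Real.log T → ∑ m ∈ S, β m ^ 2 / m ≤ (κ / g) ^ 2 →
          volume {t : ℝ | T ≤ t ∧ t ≤ 2 * T ∧ ∀ F : Finset ℝ,
            (∀ γ : ℝ, γ ∈ F ↔ γ ∈ zs t lam (g * Real.log T)) →
            ∑ γ ∈ F, ‖deriv riemannZeta (1 / 2 + γ * I)‖ * ‖pB S β (1 / 2 + γ * I)‖ <
              c * lam * Real.log T ^ 2} ≤ ENNReal.ofReal (ε * T) := by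
  obtain ⟨A, B, D, hD⟩ := hdx hRH
  obtain ⟨c0, hc0, hmain1⟩ := hmain A B
  obtain ⟨Cp, Tp, hCp, hTp, hpb⟩ := pB_sumt hzdb hRH
  obtain ⟨c, hcd⟩ : ∃ c : ℝ, c = c0 / 2 := ⟨_, rfl⟩
  have hc : 0 < c := by rw [hcd]; positivity
  refine ⟨c / 24, by positivity, fun ε hε => ?_⟩
  obtain ⟨lamM, hlamM, hmain2⟩ := hmain1 (ε / 2) (by positivity)
  obtain ⟨νE, η, hνE0, hνE1, hη0, hη1, herb1⟩ := herb hRH A B D hD (ε * c / 8) (by positivity)
  refine ⟨νE, η, hνE0, hνE1, hη0, hη1, fun w hw => ?_⟩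
  obtain ⟨lamE, hlamE, herb2⟩ := herb1 w hw
  obtain ⟨lam, hlam⟩ : ∃ lam : ℝ, lam = max lamM lamE := ⟨_, rfl⟩
  have hlM : lamM ≤ lam := by rw [hlam]; exact le_max_left _ _
  have hlE : lamE ≤ lam := by rw [hlam]; exact le_max_right _ _
  have hl1 : 1 ≤ lam := hlamM.trans hlM
  have hl0 : 0 < lam := by linarith
  obtain ⟨Tm, hTm, hmain3⟩ := hmain2 lam hlM
  obtain ⟨Te, hTe, herb3⟩ := herb2 lam hlE
  obtain ⟨Tf, hTf, hfar1⟩ := hfar hRH lam hl1
  obtain ⟨Tc, hcon1⟩ := eventually_atTop.1 (hcon hRH A B)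
  obtain ⟨κ, hκ⟩ : ∃ κ : ℝ, κ = ε * c / (24 * Cp) := ⟨_, rfl⟩
  have hκ0 : 0 < κ := by rw [hκ]; positivity
  refine ⟨lam, κ, hl1, hκ0, ?_⟩
  have hlog : Tendsto Real.log atTop atTop := Real.tendsto_log_atTop
  obtain ⟨T2, h2⟩ := eventually_atTop.1 ((hlog.comp hlog).eventually_ge_atTop 1)
  obtain ⟨T3, h3⟩ := eventually_atTop.1 (hlog.eventually
    ((Real.isLittleO_pow_log_id_atTop (n := 1)).bound (c := 1 / 10) (by positivity)))
  obtain ⟨T4, h4⟩ := eventually_atTop.1 (hlog.eventually_ge_atTop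
    (max 1 (max (16 / (ε * c)) lam)))
  obtain ⟨T0, hT0⟩ : ∃ T0 : ℝ, T0 = max (max (max Tm Te) (max Tf Tc)) (max Tp
    (max T2 (max (max T3 T4) (2 * lam)))) := ⟨_, rfl⟩
  refine ⟨T0, ?_, fun T g K S β S' β' hT hK1 hK2 hS hg hgL hSq => ?_⟩
  · rw [hT0]
    exact lt_max_of_lt_left (lt_max_of_lt_left (lt_max_of_lt_left hTm))
  rw [hT0] at hT
  have hTTm : Tm ≤ T := le_trans (le_max_of_le_left (le_max_of_le_left (le_max_left _ _))) hT
  have hTTe : Te ≤ T := le_trans (le_max_of_le_left (le_max_of_le_left (le_max_right _ _))) hT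
  have hTTf : Tf ≤ T := le_trans (le_max_of_le_left (le_max_of_le_right (le_max_left _ _))) hT
  have hTTc : Tc ≤ T := le_trans (le_max_of_le_left (le_max_of_le_right (le_max_right _ _))) hT
  replace hT := (le_max_right _ _).trans hT
  have hTTp : Tp ≤ T := le_trans (le_max_left _ _) hT
  replace hT := (le_max_right _ _).trans hT
  have hTT2 : T2 ≤ T := le_trans (le_max_left _ _) hT
  replace hT := (le_max_right _ _).trans hT
  have hTT3 : T3 ≤ T := le_trans (le_max_of_le_left (le_max_left _ _)) hT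
  have hTT4 : T4 ≤ T := le_trans (le_max_of_le_left (le_max_right _ _)) hT
  have hTl : 2 * lam ≤ T := (le_max_right _ _).trans hT
  clear hT
  have hT10 : 10 < T := by linarith
  have hTpos : 0 < T := by linarith
  have hl : 1 ≤ Real.log (Real.log T) := h2 T hTT2
  have h4' := h4 T hTT4
  have hL1 : 1 ≤ Real.log T := (le_max_left _ _).trans h4'
  have hLε : 16 / (ε * c) ≤ Real.log T := le_trans (le_max_of_le_right (le_max_left _ _)) h4'
  have hLlam : lam ≤ Real.log T := le_trans (le_max_of_le_right (le_max_right _ _)) h4'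
  have hL0 : 0 < Real.log T := by linarith
  have hl10 : 10 * Real.log (Real.log T) ≤ Real.log T := by
    have h := h3 T hTT3
    simp only [id, pow_one] at h
    rw [Real.norm_of_nonneg (by linarith), Real.norm_of_nonneg (by linarith)] at h
    linarith
  have hM1 : Mol S β (T ^ (1 / 100 : ℝ)) 1 := mol_N (mol_mono hS.mol hνE1)
    (Real.rpow_le_rpow_of_exponent_le (by linarith) hη1)
  obtain ⟨δ, hδ, hSB⟩ := herb3 T K S β S' β' hTTe hK1 hK2 hS
  have hδ0 : 0 < δ := lt_of_lt_of_le (by positivity) hδ.1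
  have hδ1 : δ ≤ 1 / 2 := by
    refine hδ.2.trans ?_
    rw [div_le_iff₀ hTpos]
    linarith
  have hsl1 : 1 ≤ Real.sqrt (Real.log (Real.log T)) := by
    rw [Real.one_le_sqrt]
    exact hl
  have hH0 : 0 < HH T lam := by
    unfold HH
    positivity
  have hHL : 1 ≤ HH T lam * Real.log T := by
    unfold HH
    rw [div_mul_eq_mul_div, le_div_iff₀ (by positivity)]
    have hs2 : Real.sqrt (Real.log (Real.log T)) ≤ Real.log (Real.log T) := by
      have h5 := Real.sq_sqrt (by linarith : 0 ≤ Real.log (Real.log T))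
      nlinarith
    nlinarith
  have hbm := hmain3 T δ S β hTTm hδ.1 hδ.2 hM1
  have hc2 : c0 = 2 * c := by rw [hcd]; ring
  rw [hc2] at hbm
  refine step2 hE hG hRH (A := A) (B := B) (T := T) (δ := δ) (lam := lam) (c := c) (ε := ε)
    (S := S) (β := β) hS.mol.one_le hT10 hδ0 hδ1 hl0 hH0 (by linarith) havb
    (m := g * Real.log T) (by positivity) hc hε hL0
    (fun x hx1 hx2 => hcon1 T hTTc x δ lam S β hx1 hx2 hδ.1 hδ.2 hl1 hLlam hM1) hbm hSB
    (hfar1 T S β hTTf hM1) ?_ ?_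
  · have h7 := hpb T (κ / g) S β (ZS1 T (g * Real.log T)) hTTp (by positivity) hM1
      (fun γ hγ => (mem_ZS1.1 hγ).1) hSq (by
        rw [div_pow, mul_div_assoc', le_div_iff₀ (by positivity), one_mul, mul_comm]
        exact hgL)
    refine (mul_le_mul_of_nonneg_left h7 (by positivity)).trans (le_of_eq ?_)
    rw [hκ]
    field_simp
  · rw [div_le_iff₀ (by positivity)] at hLε
    have h9 : Real.log T ≤ HH T lam * Real.log T ^ 2 := by
      have := mul_le_mul_of_nonneg_right hHL hL0.le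
      nlinarith
    have h10 := mul_le_mul_of_nonneg_right h9 (by positivity : 0 ≤ ε * c)
    linarith

/-- NEART. -/
theorem neart (hscl : G11.SCL2TStatement) (hdx : DX1Statement) (herb : ERTStatement)
    (hcon : CONTStatement) (havb : AVBStatement) (hmain : MAINTStatement) (hfar : FARTStatement)
    (hzdb : ZDTStatement) (hG : GAMCStatement) (hE : ETRStatement) : G11.NEARTStatement := by
  intro hRH
  obtain ⟨c, hc, h0⟩ := near0t hdx herb hcon havb hmain hfar hzdb hG hE hRH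
  refine ⟨c, hc, fun ε hε => ?_⟩
  obtain ⟨ν, η, hν0, _, hη0, _, h1⟩ := h0 ε hε
  obtain ⟨w, hw, T2, hT2, hscl2⟩ := hscl ν hν0
  obtain ⟨lam, κ, hl1, hκ, T1, hT1, h2⟩ := h1 w hw
  have hlog : Tendsto Real.log atTop atTop := Real.tendsto_log_atTop
  -- `exp(L^{1/3}) ≤ T^η`
  obtain ⟨T3, h3⟩ := eventually_atTop.1 (hlog.eventually
    ((tendsto_rpow_neg_atTop (by norm_num : (0 : ℝ) < 2 / 3)).eventually_le_const hη0))
  -- `log l ≤ l / 64`, `l` large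
  obtain ⟨T4, h4⟩ := eventually_atTop.1 ((hlog.comp hlog).eventually
    ((Real.isLittleO_pow_log_id_atTop (n := 1)).bound (c := 1 / 64) (by norm_num)))
  obtain ⟨T5, h5⟩ := eventually_atTop.1 ((hlog.comp hlog).eventually_ge_atTop
    (max 1 (-(4 * Real.log κ))))
  obtain ⟨T6, h6⟩ := eventually_atTop.1 ((hlog.comp (hlog.comp hlog)).eventually_ge_atTop
    (max 1 (-Real.log κ)))
  obtain ⟨T0, hT0⟩ : ∃ T0 : ℝ, T0 = max (max (max T1 T2) (max T3 T4)) (max T5 T6) := ⟨_, rfl⟩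
  refine ⟨lam, hl1, T0, ?_, fun T hT => ?_⟩
  · rw [hT0]
    exact lt_max_of_lt_left (lt_max_of_lt_left (lt_max_of_lt_left hT1))
  rw [hT0] at hT
  have hTT1 : T1 ≤ T := le_trans (le_max_of_le_left (le_max_of_le_left (le_max_left _ _))) hT
  have hTT2 : T2 ≤ T := le_trans (le_max_of_le_left (le_max_of_le_left (le_max_right _ _))) hT
  have hTT3 : T3 ≤ T := le_trans (le_max_of_le_left (le_max_of_le_right (le_max_left _ _))) hT
  have hTT4 : T4 ≤ T := le_trans (le_max_of_le_left (le_max_of_le_right (le_max_right _ _))) hT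
  have hTT5 : T5 ≤ T := le_trans (le_max_of_le_right (le_max_left _ _)) hT
  have hTT6 : T6 ≤ T := le_trans (le_max_of_le_right (le_max_right _ _)) hT
  have hL0 : 0 < Real.log T := Real.log_pos (by linarith)
  obtain ⟨K, S, β, S', β', S2, β2, k1, k2, k3, k4, k5, k6, k7⟩ := hscl2 T hTT2
  refine ⟨S, β, S2, β2, k5, k6, k7, ?_⟩
  have h5' := h5 T hTT5
  have h6' := h6 T hTT6
  have h4' := h4 T hTT4
  simp only [Function.comp_apply] at h5' h6' h4'
  obtain ⟨l, hl⟩ : ∃ l : ℝ, l = Real.log (Real.log T) := ⟨_, rfl⟩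
  obtain ⟨y, hy⟩ : ∃ y : ℝ, y = Real.log l := ⟨_, rfl⟩
  have hL : Real.log T = Real.exp l := by rw [hl, Real.exp_log hL0]
  unfold G11.thT
  rw [← hl, ← hy] at k4 ⊢
  rw [← hl] at h5' h4' h6'
  rw [← hy] at h6'
  simp only [id, pow_one] at h4'
  rw [← hy] at h4'
  have hl1' : 1 ≤ l := (le_max_left _ _).trans h5'
  have hl2 : -(4 * Real.log κ) ≤ l := (le_max_right _ _).trans h5'
  have hy1 : 1 ≤ y := (le_max_left _ _).trans h6'
  have hy2 : -Real.log κ ≤ y := (le_max_right _ _).trans h6'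
  rw [Real.norm_of_nonneg (by linarith), Real.norm_of_nonneg (by linarith)] at h4'
  obtain ⟨r, hr⟩ : ∃ r : ℝ, r = Real.sqrt (l * y) := ⟨_, rfl⟩
  have hr0 : 0 ≤ r := by rw [hr]; exact Real.sqrt_nonneg _
  have hr2 : r ^ 2 = l * y := by rw [hr]; exact Real.sq_sqrt (by positivity)
  rw [← hr] at k4 ⊢
  have hr8 : r ≤ l / 8 := by
    refine abs_le_of_sq_le_sq' ?_ (by linarith) |>.2
    rw [hr2]
    nlinarith
  have hry : y ≤ r := by
    refine abs_le_of_sq_le_sq' ?_ hr0 |>.2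
    rw [hr2]
    nlinarith
  have hκe : κ = Real.exp (Real.log κ) := (Real.exp_log hκ).symm
  have hcomm : Real.log T * Real.exp (2 * r) = Real.exp (2 * r) * Real.log T := mul_comm _ _
  rw [hcomm]
  have hN : Real.exp (Real.log T ^ (1 / 3 : ℝ)) ≤ T ^ η := by
    have h : Real.log T ^ (-(2 / 3) : ℝ) ≤ η := h3 T hTT3
    have e : Real.log T ^ (1 / 3 : ℝ) = Real.log T ^ (-(2 / 3) : ℝ) * Real.log T := by
      have e1 := Real.rpow_add hL0 (-(2 / 3) : ℝ) 1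
      rw [Real.rpow_one] at e1
      rw [← e1]
      norm_num
    have h' := mul_le_mul_of_nonneg_right h hL0.le
    have hT0 : 0 < T := by linarith
    have e2 : T ^ η = Real.exp (Real.log T * η) := Real.rpow_def_of_pos hT0 η
    rw [e2]
    apply Real.exp_le_exp.2
    linarith
  refine h2 T (Real.exp (2 * r)) K S β S' β' hTT1 (by rw [← hl]; rw [← hl] at k1; exact k1)
    (by rw [← hl]; rw [← hl] at k2; exact k2) (scl_N k3 hN) (Real.exp_pos _) ?_ (k4.trans ?_)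
  · rw [hκe, hL, ← Real.exp_nat_mul, ← Real.exp_nat_mul, ← Real.exp_add]
    apply Real.exp_le_exp.2
    push_cast
    linarith
  · rw [hκe, ← Real.exp_sub, ← Real.exp_nat_mul]
    apply Real.exp_le_exp.2
    push_cast
    linarith

end Pool.Agent.Lib.MP_6bc78b_nt.GP.H91N
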