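import Pool.Agent.Lib.MP_6bc78b_nt.GP.H62.Defs9
import Pool.Agent.Lib.MP_6bc78b_nt.GP.H91.Box

/-! Project GP9, module BOXK: Plancherel for the averages of `S_E` over intervals. -/

set_option autoImplicit false

open Complex Filter Topology MeasureTheory Set
open scoped ENNReal

namespace Pool.Agent.Lib.MP_6bc78b_nt.GP.H91B

open Pool.Agent.Lib.MP_6bc78b_nt.GP Pool.Agent.Lib.MP_6bc78b_nt.GP.G9

theorem exp_abs_int : Integrable (fun u : ℝ => Real.exp (-|u|)) := by
  refine (integrable_inv_one_add_sq.const_mul 2).mono' ?_ (Eventually.of_forall fun u => ?_)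
  · exact (Real.continuous_exp.comp continuous_abs.neg).aestronglyMeasurable
  · rw [Real.norm_of_nonneg (Real.exp_pos _).le, Real.exp_neg, ← div_eq_mul_inv,
      ← one_div, div_le_div_iff₀ (Real.exp_pos _) (by positivity)]
    have h1 := Real.quadratic_le_exp_of_nonneg (abs_nonneg u)
    have h2 : |u| ^ 2 = u ^ 2 := sq_abs u
    have h3 := abs_nonneg u
    rw [h2] at h1
    linarith

theorem norm_huK (A B δ H u : ℝ) : ‖huK A B δ H u‖ =
    |H * kk (H * u)| * Real.exp (u / 2) * ‖EE A B (zp u δ)‖ := by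
  unfold huK
  rw [norm_mul, Complex.norm_real, Real.norm_eq_abs, abs_mul, abs_of_pos (Real.exp_pos _)]

theorem kk_le {C H : ℝ} (hk : ∀ v : ℝ, |kk v| ≤ C * Real.exp (-|v|)) (hH : 0 < H) (u : ℝ) :
    |H * kk (H * u)| ≤ H * C * Real.exp (-(H * |u|)) := by
  have h1 := hk (H * u)
  rw [abs_mul H u, abs_of_pos hH] at h1
  rw [abs_mul, abs_of_pos hH, mul_assoc]
  exact mul_le_mul_of_nonneg_left h1 hH.le

/-- The density is integrable. -/
theorem huK_int (h2 : ETRStatement) (hkc : Continuous kk) {C : ℝ} (hC : 0 < C)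
    (hk : ∀ v : ℝ, |kk v| ≤ C * Real.exp (-|v|)) (A B δ H : ℝ) (hδ : 0 < δ) (hδ2 : δ ≤ 1 / 2)
    (hH : 4 ≤ H) : Integrable (fun u : ℝ => huK A B δ H u) := by
  obtain ⟨hc, C', hC', hb⟩ := h2 A B
  have hcont : Continuous (fun u : ℝ => EE A B (zp u δ)) := hc δ hδ (by linarith)
  have hH0 : 0 < H := by linarith
  refine (exp_abs_int.const_mul (H * C * (C' / δ ^ 2))).mono' ?_
    (Eventually.of_forall fun u => ?_)
  · have : Continuous (fun u : ℝ => huK A B δ H u) := by
      unfold huK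
      exact (Complex.continuous_ofReal.comp (by fun_prop)).mul hcont
    exact this.aestronglyMeasurable
  · rw [norm_huK]
    have h3 := hb u δ hδ hδ2
    have h4 := kk_le hk hH0 u
    have h5 := abs_nonneg u
    have h6 := le_abs_self u
    calc |H * kk (H * u)| * Real.exp (u / 2) * ‖EE A B (zp u δ)‖
        ≤ (H * C * Real.exp (-(H * |u|))) * Real.exp (|u| / 2) *
          (C' * Real.exp (2 * |u|) / δ ^ 2) := by
          refine mul_le_mul (mul_le_mul h4 (Real.exp_le_exp.2 (by linarith))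
            (Real.exp_pos _).le (by positivity)) h3 (norm_nonneg _) (by positivity)
      _ = H * C * (C' / δ ^ 2) * Real.exp (-(H * |u|) + |u| / 2 + 2 * |u|) := by
          rw [Real.exp_add, Real.exp_add]
          ring
      _ ≤ H * C * (C' / δ ^ 2) * Real.exp (-|u|) := by
          refine mul_le_mul_of_nonneg_left (Real.exp_le_exp.2 ?_) (by positivity)
          nlinarith

/-- BOXK. -/
theorem boxk (hker : KERStatement) (h1 : PLCStatement) (h2 : ETRStatement) : BOXKStatement := by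
  obtain ⟨hkc, -, -, ⟨C, hC, hk⟩, -, -⟩ := hker
  refine ⟨2 * Real.pi * (8 * C ^ 2), by positivity, fun A B δ H lam hδ hδ2 hH hl => ?_⟩
  have hH0 : 0 < H := by linarith
  have hint := huK_int h2 hkc hC hk A B δ H hδ hδ2 hH
  have hg : Integrable (fun u : ℝ => huK A B δ H u * sn lam u) :=
    hint.mul_bdd (c := 2 * lam) (sn_cont lam).aestronglyMeasurable
      (Eventually.of_forall fun u => sn_le1 hl u)
  have hSE : ∀ t : ℝ, ∫ x in (t - lam)..(t + lam), SEK A B δ H x =
      ∫ w : ℝ, (huK A B δ H w * sn lam w) * Complex.exp (t * w * I) := fun t =>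
    box_eq hint lam t hl
  simp only [hSE]
  refine (h1 _ hg).trans ?_
  have hsq : ∀ u : ℝ, ‖huK A B δ H u * sn lam u‖ ^ 2 ≤ 8 * C ^ 2 * lam ^ 2 * H ^ 2 *
      (‖EE A B (zp u δ)‖ ^ 2 * Real.exp (-(2 * H * |u|) + u) / (1 + lam ^ 2 * u ^ 2)) := by
    intro u
    rw [norm_mul, mul_pow, norm_huK, mul_pow, mul_pow, ← Real.exp_nat_mul]
    have h3 : ((2 : ℕ) : ℝ) * (u / 2) = u := by
      push_cast
      ring
    rw [h3]
    have h4 : |H * kk (H * u)| ^ 2 ≤ (H * C * Real.exp (-(H * |u|))) ^ 2 :=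
      pow_le_pow_left₀ (abs_nonneg _) (kk_le hk hH0 u) 2
    have h5 : (H * C * Real.exp (-(H * |u|))) ^ 2 = H ^ 2 * C ^ 2 * Real.exp (-(2 * H * |u|)) := by
      rw [mul_pow, mul_pow, ← Real.exp_nat_mul]
      congr 2
      push_cast
      ring
    rw [h5] at h4
    calc |H * kk (H * u)| ^ 2 * Real.exp u * ‖EE A B (zp u δ)‖ ^ 2 * ‖sn lam u‖ ^ 2 ≤
        (H ^ 2 * C ^ 2 * Real.exp (-(2 * H * |u|))) * Real.exp u * ‖EE A B (zp u δ)‖ ^ 2 *
          (8 * lam ^ 2 / (1 + lam ^ 2 * u ^ 2)) := by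
          refine mul_le_mul (mul_le_mul_of_nonneg_right (mul_le_mul_of_nonneg_right h4
            (Real.exp_pos _).le) (by positivity)) (sn_sq hl u) (by positivity) (by positivity)
      _ = _ := by
          rw [Real.exp_add]
          ring
  have h5 : ∀ u : ℝ, ENNReal.ofReal (‖huK A B δ H u * sn lam u‖ ^ 2) ≤
      ENNReal.ofReal (8 * C ^ 2 * lam ^ 2 * H ^ 2) *
        ENNReal.ofReal (‖EE A B (zp u δ)‖ ^ 2 * Real.exp (-(2 * H * |u|) + u) /
          (1 + lam ^ 2 * u ^ 2)) := by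
    intro u
    rw [← ENNReal.ofReal_mul (by positivity)]
    exact ENNReal.ofReal_le_ofReal (hsq u)
  refine (mul_le_mul_right (lintegral_mono h5) _).trans (le_of_eq ?_)
  rw [lintegral_const_mul' _ _ ENNReal.ofReal_ne_top, ← mul_assoc,
    ← ENNReal.ofReal_mul (by positivity)]
  have h6 : 2 * Real.pi * (8 * C ^ 2 * lam ^ 2 * H ^ 2) =
      2 * Real.pi * (8 * C ^ 2) * lam ^ 2 * H ^ 2 := by ring
  rw [h6]

/-- Continuity of `SEK`. -/
theorem sek_cont (hker : KERStatement) (h2 : ETRStatement) (A B δ H : ℝ) (hδ : 0 < δ)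
    (hδ2 : δ ≤ 1 / 2) (hH : 4 ≤ H) : Continuous (SEK A B δ H) := by
  obtain ⟨hkc, -, -, ⟨C, hC, hk⟩, -, -⟩ := hker
  have hint := huK_int h2 hkc hC hk A B δ H hδ hδ2 hH
  unfold SEK
  refine continuous_of_dominated (bound := fun u => ‖huK A B δ H u‖) (fun t => ?_) (fun t => ?_)
    hint.norm (Eventually.of_forall fun u => ?_)
  · refine hint.aestronglyMeasurable.mul ?_
    exact (Complex.continuous_exp.comp (((Complex.continuous_ofReal).mul
      continuous_const).mul continuous_const)).aestronglyMeasurable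
  · refine Eventually.of_forall fun u => ?_
    rw [norm_mul, norm_e2, mul_one]
  · exact continuous_const.mul (Complex.continuous_exp.comp ((continuous_const.mul
      Complex.continuous_ofReal).mul continuous_const))

end Pool.Agent.Lib.MP_6bc78b_nt.GP.H91B
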