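import Pool.Agent.Lib.MP_6bc78b_nt.GP.H43.Defs10b
import Pool.Agent.Lib.MP_6bc78b_nt.GP.H10.Av
import Pool.Agent.Lib.MP_6bc78b_nt.GP.H33.Far

/-! Project GP10 (MP_6bc78b_nt), row CHB10P, first part: the sum over the zeros. -/

set_option autoImplicit false

open Complex Filter Topology MeasureTheory ArithmeticFunction Set
open scoped ENNReal

namespace Pool.Agent.Lib.MP_6bc78b_nt.GP.H91C

open Pool.Agent.Lib.MP_6bc78b_nt Pool.Agent.Lib.MP_6bc78b_nt.MS Pool.Agent.Lib.MP_6bc78b_nt.MS.P1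
open Pool.Agent.Lib.MP_6bc78b_nt.GP Pool.Agent.Lib.MP_6bc78b_nt.GP.G7
open Pool.Agent.Lib.MP_6bc78b_nt.GP.G10

lemma Av_eq (w : ℝ) : G10.Av w = H10A.Av w := by
  funext F t
  unfold G10.Av H10A.Av
  have h := intervalIntegral.integral_comp_add_left (fun x => F x) t (a := -w) (b := w)
  rw [h, ← sub_eq_add_neg]
  congr 1
  rw [one_div, Complex.ofReal_inv]
  push_cast
  rfl

/-- The zeros in `(T/2, 4T)`. -/
lemma zfin (T : ℝ) :
    {γ : ℝ | T / 2 < γ ∧ γ < 4 * T ∧ riemannZeta (1 / 2 + γ * I) = 0}.Finite := by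
  by_cases hT : 0 ≤ T
  · exact (MS.P4.H30.zfac.2.2.2.2.2.1 (4 * T)).subset
      fun γ hγ => ⟨by linarith [hγ.1], hγ.2.1.le, hγ.2.2⟩
  · refine Set.finite_empty.subset fun γ hγ => ?_
    exfalso
    linarith [hγ.1, hγ.2.1]

noncomputable def ZF (T : ℝ) : Finset ℝ := (zfin T).toFinset

lemma mem_ZF {T γ : ℝ} : γ ∈ ZF T ↔ T / 2 < γ ∧ γ < 4 * T ∧ riemannZeta (1 / 2 + γ * I) = 0 := by
  unfold ZF
  rw [Set.Finite.mem_toFinset]
  rfl

/-- The term of the zero `γ`. -/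
noncomputable def tm (δ H : ℝ) (S : Finset ℕ) (β : ℕ → ℝ) (γ x : ℝ) : ℂ :=
  ((mz γ : ℂ) * deriv riemannZeta (1 / 2 + γ * I) * om0 δ (1 / 2 + γ * I) *
    pB S β (1 / 2 + γ * I)) * GH H x (1 / 2 + γ * I)

lemma SSG_eq (T δ H : ℝ) (S : Finset ℕ) (β : ℕ → ℝ) (x : ℝ) :
    SSG T δ (fun s => pB S β s * GH H x s) = ∑ γ ∈ ZF T, tm δ H S β γ x := by
  unfold SSG ZF
  rw [finsum_mem_eq_finite_toFinset_sum _ (zfin T)]
  refine Finset.sum_congr rfl fun γ _ => ?_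
  unfold tm
  ring

lemma norm_GH_line (H x γ : ℝ) (hH : 0 < H) : ‖GH H x (1 / 2 + γ * I)‖ =
    Real.exp (-((γ - x) ^ 2 / (2 * H ^ 2))) := by
  unfold GH
  have h1 : ((1 / 2 : ℂ) + γ * I - 1 / 2 - x * I) ^ 2 / (2 * (H : ℂ) ^ 2) =
      ((-((γ - x) ^ 2 / (2 * H ^ 2)) : ℝ) : ℂ) := by
    have h2 : ((1 / 2 : ℂ) + γ * I - 1 / 2 - x * I) ^ 2 = (((γ - x) ^ 2 : ℝ) : ℂ) * I ^ 2 := by
      push_cast
      ring
    rw [h2, I_sq]
    push_cast
    ring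
  rw [h1, ← Complex.ofReal_exp, Complex.norm_real, Real.norm_of_nonneg (Real.exp_pos _).le]

lemma norm_tm (hG : GAMCStatement) {δ H : ℝ} (hδ : 0 ≤ δ) (hH : 0 < H) (S : Finset ℕ)
    (β : ℕ → ℝ) {γ : ℝ} (hγ : 0 ≤ γ) (hz : riemannZeta (1 / 2 + γ * I) = 0) (x : ℝ) :
    ‖tm δ H S β γ x‖ ≤ ‖deriv riemannZeta (1 / 2 + γ * I)‖ * ‖pB S β (1 / 2 + γ * I)‖ *
      Real.exp (-((γ - x) ^ 2 / (2 * H ^ 2))) := by
  unfold tm
  rw [norm_mul, norm_mul, norm_mul, norm_mul, norm_GH_line H x γ hH]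
  have h1 : ‖(mz γ : ℂ)‖ * ‖deriv riemannZeta (1 / 2 + γ * I)‖ ≤
      ‖deriv riemannZeta (1 / 2 + γ * I)‖ := by
    have hm1 := MS.P4.H30.zfac.2.2.1 γ hz
    rcases Nat.lt_or_ge (mz γ) 2 with h | h
    · have : mz γ = 1 := by omega
      rw [this]
      simp
    · rw [MS.P4.H30.zfac.2.2.2.2.1 γ h]
      simp
  have h2 := hG.1 δ γ hδ hγ
  have h3 := Real.exp_pos (-((γ - x) ^ 2 / (2 * H ^ 2)))
  calc ‖(mz γ : ℂ)‖ * ‖deriv riemannZeta (1 / 2 + γ * I)‖ * ‖om0 δ (1 / 2 + γ * I)‖ *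
        ‖pB S β (1 / 2 + γ * I)‖ * Real.exp (-((γ - x) ^ 2 / (2 * H ^ 2)))
      ≤ ‖deriv riemannZeta (1 / 2 + γ * I)‖ * 1 * ‖pB S β (1 / 2 + γ * I)‖ *
        Real.exp (-((γ - x) ^ 2 / (2 * H ^ 2))) := by gcongr
    _ = _ := by ring

lemma tm_cont (δ H : ℝ) (S : Finset ℕ) (β : ℕ → ℝ) (γ : ℝ) : Continuous (tm δ H S β γ) := by
  unfold tm GH
  fun_prop

lemma gint (H γ : ℝ) (hH : 0 < H) :
    ∫⁻ x : ℝ, ENNReal.ofReal (Real.exp (-((γ - x) ^ 2 / (2 * H ^ 2)))) =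
      ENNReal.ofReal (H * Real.sqrt (2 * Real.pi)) := by
  have hb : 0 < 1 / (2 * H ^ 2) := by positivity
  have hi : Integrable (fun x : ℝ => Real.exp (-((γ - x) ^ 2 / (2 * H ^ 2)))) := by
    have h := (integrable_exp_neg_mul_sq hb).comp_sub_left γ
    refine h.congr (Eventually.of_forall fun x => ?_)
    simp only []
    congr 1
    ring
  rw [← ofReal_integral_eq_lintegral_ofReal hi (Eventually.of_forall fun x =>
    (Real.exp_pos _).le)]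
  congr 1
  have h1 := integral_gaussian (1 / (2 * H ^ 2))
  have h2 : ∫ x : ℝ, Real.exp (-((γ - x) ^ 2 / (2 * H ^ 2))) =
      ∫ x : ℝ, Real.exp (-(1 / (2 * H ^ 2)) * x ^ 2) := by
    rw [← integral_sub_left_eq_self (fun x : ℝ => Real.exp (-(1 / (2 * H ^ 2)) * x ^ 2)) volume γ]
    apply integral_congr_ae
    refine Eventually.of_forall fun x => ?_
    simp only []
    congr 1
    ring
  rw [h2, h1]
  have h3 : Real.pi / (1 / (2 * H ^ 2)) = H ^ 2 * (2 * Real.pi) := by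
    field_simp
  rw [h3, Real.sqrt_mul (by positivity), Real.sqrt_sq hH.le]

/-- The near zeros with a small derivative, in mean. -/
lemma near_mean (hG : GAMCStatement) {δ H : ℝ} (hδ : 0 ≤ δ) (hH : 0 < H) (S : Finset ℕ)
    (β : ℕ → ℝ) {Z : Finset ℝ} (hZ : ∀ γ ∈ Z, 0 ≤ γ ∧ riemannZeta (1 / 2 + γ * I) = 0) {m : ℝ}
    (hm : ∀ γ ∈ Z, ‖deriv riemannZeta (1 / 2 + γ * I)‖ ≤ m) {w : ℝ} (hw : 0 < w) (a b : ℝ) :
    ∫⁻ t in Icc a b, ‖(G10.Av w)^[8] (fun x => ∑ γ ∈ Z, tm δ H S β γ x) t‖ₑ ≤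
      ENNReal.ofReal (m * (H * Real.sqrt (2 * Real.pi)) *
        ∑ γ ∈ Z, ‖pB S β (1 / 2 + γ * I)‖) := by
  rw [Av_eq]
  have hc : Continuous (fun x => ∑ γ ∈ Z, tm δ H S β γ x) :=
    continuous_finsetSum _ fun γ _ => tm_cont δ H S β γ
  refine (H10A.Av_lint_iter hw 8 hc a b).trans ((setLIntegral_le_lintegral _ _).trans ?_)
  calc ∫⁻ x : ℝ, ‖∑ γ ∈ Z, tm δ H S β γ x‖ₑ
      ≤ ∫⁻ x : ℝ, ∑ γ ∈ Z, ENNReal.ofReal (m * ‖pB S β (1 / 2 + γ * I)‖) *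
          ENNReal.ofReal (Real.exp (-((γ - x) ^ 2 / (2 * H ^ 2)))) := by
        apply lintegral_mono
        intro x
        refine (enorm_sum_le _ _).trans (Finset.sum_le_sum fun γ hγ => ?_)
        have hm0 : 0 ≤ m := (norm_nonneg _).trans (hm γ hγ)
        rw [← ENNReal.ofReal_mul (by positivity), ← ofReal_norm]
        apply ENNReal.ofReal_le_ofReal
        refine (norm_tm hG hδ hH S β (hZ γ hγ).1 (hZ γ hγ).2 x).trans ?_
        have := hm γ hγ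
        gcongr
    _ = ∑ γ ∈ Z, ENNReal.ofReal (m * ‖pB S β (1 / 2 + γ * I)‖) *
          ENNReal.ofReal (H * Real.sqrt (2 * Real.pi)) := by
        rw [lintegral_finsetSum _ (fun γ _ => by fun_prop)]
        refine Finset.sum_congr rfl fun γ _ => ?_
        rw [lintegral_const_mul' _ _ ENNReal.ofReal_ne_top, gint H γ hH]
    _ = ENNReal.ofReal (m * (H * Real.sqrt (2 * Real.pi)) *
        ∑ γ ∈ Z, ‖pB S β (1 / 2 + γ * I)‖) := by
        rw [Finset.mul_sum, ENNReal.ofReal_sum_of_nonneg]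
        · refine Finset.sum_congr rfl fun γ hγ => ?_
          have hm0 : 0 ≤ m := (norm_nonneg _).trans (hm γ hγ)
          rw [← ENNReal.ofReal_mul (by positivity)]
          congr 1
          ring
        · intro γ hγ
          have hm0 : 0 ≤ m := (norm_nonneg _).trans (hm γ hγ)
          positivity

/-- One far zero. -/
lemma far_one {H lam γ t x : ℝ} (hlam : 0 < lam) (hH : 0 < H) (hγ : lam ≤ |γ - t|)
    (hx : |x - t| ≤ ((8 : ℕ) : ℝ) * (lam / 16)) :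
    Real.exp (-((γ - x) ^ 2 / (2 * H ^ 2))) ≤
      Real.exp (-((|γ - t| - lam / 2) ^ 2 / (2 * H ^ 2))) := by
  apply Real.exp_le_exp.2
  apply neg_le_neg
  apply div_le_div_of_nonneg_right _ (by positivity)
  have h1 : |γ - t| ≤ |γ - x| + |x - t| := by
    have := abs_sub_le γ x t
    exact this
  have h2 : |γ - t| - lam / 2 ≤ |γ - x| := by
    push_cast at hx
    linarith
  have h3 : 0 ≤ |γ - t| - lam / 2 := by linarith
  calc (|γ - t| - lam / 2) ^ 2 ≤ |γ - x| ^ 2 := by gcongr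
    _ = (γ - x) ^ 2 := sq_abs _

/-- The far zeros. -/
lemma far_le (hG : GAMCStatement) {T lam δ : ℝ} (hT : 0 < T) (hδ : 0 ≤ δ) (hlam : 0 < lam)
    (hH : 0 < HH T lam) (S : Finset ℕ) (β : ℕ → ℝ) {Z : Finset ℝ} (hZ : Z ⊆ ZF T) {t : ℝ}
    (hf : ∀ γ ∈ Z, lam ≤ |γ - t|) :
    ‖(G10.Av (lam / 16))^[8] (fun x => ∑ γ ∈ Z, tm δ (HH T lam) S β γ x) t‖ ≤
      SFB T lam S β t := by
  classical
  rw [Av_eq]
  have hSFB : SFB T lam S β t = ∑ γ ∈ (ZF T).filter (fun γ => lam ≤ |γ - t|),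
      ‖deriv riemannZeta (1 / 2 + γ * I)‖ * ‖pB S β (1 / 2 + γ * I)‖ *
      Real.exp (-((|γ - t| - lam / 2) ^ 2 / (2 * HH T lam ^ 2))) := by
    unfold SFB
    have hset : {γ : ℝ | (T / 2 < γ ∧ γ < 4 * T ∧ riemannZeta (1 / 2 + γ * I) = 0) ∧
        lam ≤ |γ - t|} = (((ZF T).filter fun γ => lam ≤ |γ - t| : Finset ℝ) : Set ℝ) := by
      ext γ
      rw [Finset.mem_coe, Finset.mem_filter, mem_ZF]
      rfl
    rw [hset, finsum_mem_coe_finset]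
  rw [hSFB]
  have hZs : Z ⊆ (ZF T).filter (fun γ => lam ≤ |γ - t|) := fun γ hγ =>
    Finset.mem_filter.2 ⟨hZ hγ, hf γ hγ⟩
  refine le_trans ?_ (Finset.sum_le_sum_of_subset_of_nonneg hZs fun γ _ _ => by positivity)
  refine H10A.Av_norm_iter (by positivity) 8 fun x hx => ?_
  refine (norm_sum_le _ _).trans (Finset.sum_le_sum fun γ hγ => ?_)
  have hγ' := mem_ZF.1 (hZ hγ)
  refine (norm_tm hG hδ hH S β (by linarith [hγ'.1]) hγ'.2.2 x).trans ?_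
  exact mul_le_mul_of_nonneg_left (far_one hlam hH (hf γ hγ) hx) (by positivity)

lemma SFB_meas (T lam : ℝ) (S : Finset ℕ) (β : ℕ → ℝ) : Measurable (SFB T lam S β) := by
  classical
  have hSFB : SFB T lam S β = fun t => ∑ γ ∈ ZF T, if lam ≤ |γ - t| then
      ‖deriv riemannZeta (1 / 2 + γ * I)‖ * ‖pB S β (1 / 2 + γ * I)‖ *
      Real.exp (-((|γ - t| - lam / 2) ^ 2 / (2 * HH T lam ^ 2))) else 0 := by
    funext t
    unfold SFB
    have hset : {γ : ℝ | (T / 2 < γ ∧ γ < 4 * T ∧ riemannZeta (1 / 2 + γ * I) = 0) ∧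
        lam ≤ |γ - t|} = (((ZF T).filter fun γ => lam ≤ |γ - t| : Finset ℝ) : Set ℝ) := by
      ext γ
      rw [Finset.mem_coe, Finset.mem_filter, mem_ZF]
      rfl
    rw [hset, finsum_mem_coe_finset, Finset.sum_filter]
  rw [hSFB]
  refine Finset.measurable_fun_sum _ fun γ _ => ?_
  refine Measurable.ite (measurableSet_le (by fun_prop) (by fun_prop)) (by fun_prop) (by fun_prop)

/-- The number of zeros. -/
lemma zcount : ∃ C T0 : ℝ, 0 < C ∧ 10 < T0 ∧ ∀ T : ℝ, T0 ≤ T → ∀ Z : Finset ℝ, Z ⊆ ZF T →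
    (Z.card : ℝ) ≤ C * (T * Real.log T) := by
  obtain ⟨C, T0, hC, hT0, h⟩ := H33F.sobz
  refine ⟨C * 10, T0, by positivity, hT0, fun T hT Z hZ => ?_⟩
  have h1 := h (fun _ => 1) (fun _ => 0) (fun x => hasDerivAt_const x 1) continuous_const T hT Z
    (fun γ hγ => mem_ZF.1 (hZ hγ))
  simp only [norm_one, norm_zero, one_pow, intervalIntegral.integral_const] at h1
  rw [Finset.sum_const, nsmul_eq_mul, mul_one] at h1
  refine h1.trans (le_of_eq ?_)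
  simp only [smul_eq_mul]
  ring

end Pool.Agent.Lib.MP_6bc78b_nt.GP.H91C
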