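import Pool.Agent.Lib.MP_6bc78b_nt.GP.H91.Erb1
import Pool.Agent.Lib.MP_6bc78b_nt.GP.H61.Conb

/-! Project GP10 (MP_6bc78b_nt), row CHB10P, second part: continuity in `t`. -/

set_option autoImplicit false

open Complex Filter Topology MeasureTheory ArithmeticFunction Set
open scoped ENNReal

namespace Pool.Agent.Lib.MP_6bc78b_nt.GP.H91C

open Pool.Agent.Lib.MP_6bc78b_nt Pool.Agent.Lib.MP_6bc78b_nt.MS Pool.Agent.Lib.MP_6bc78b_nt.MS.P1
open Pool.Agent.Lib.MP_6bc78b_nt.GP Pool.Agent.Lib.MP_6bc78b_nt.GP.G7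
open Pool.Agent.Lib.MP_6bc78b_nt.GP.G10 Pool.Agent.Lib.MP_6bc78b_nt.GP.H91

/-- Continuity of `S_E` for any Gaussian bounded weight. -/
lemma SB_cont (hE : ETRStatement) (A B δ : ℝ) (hδ : 0 < δ) (hδ1 : δ ≤ 1 / 2) (S : Finset ℕ)
    (β : ℕ → ℝ) (hS : ∀ m ∈ S, 1 ≤ m) {w : ℝ → ℝ} (hw : Continuous w) {H M : ℝ} (hH : 0 < H)
    (hM : 0 ≤ M) (hb : ∀ u, |w u| ≤ M * Real.exp (-(H ^ 2 * u ^ 2 / 2))) :
    Continuous (G10.SB A B δ w S β) := by
  obtain ⟨K, hK, hk⟩ := H91E.EM_bd hE A B δ hδ hδ1 S β hS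
  have hg := (H32.integrable_gauss_abs (H ^ 2 / 2) (by positivity)).const_mul (M * K)
  have hc : Continuous (fun u : ℝ => ((w u : ℝ) : ℂ) * H91E.FM A B δ S β u) :=
    (Complex.continuous_ofReal.comp hw).mul
      (H91E.FM_cont hE A B δ hδ (by linarith) S β hS)
  have hint : Integrable (fun u : ℝ => ((w u : ℝ) : ℂ) * H91E.FM A B δ S β u) := by
    refine hg.mono' hc.aestronglyMeasurable (Eventually.of_forall fun u => ?_)
    unfold H91E.FM
    rw [norm_mul, norm_mul, Complex.norm_real, Complex.norm_real, Real.norm_eq_abs,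
      Real.norm_of_nonneg (Real.exp_pos _).le]
    calc |w u| * (Real.exp (u / 2) * ‖EM A B S β (zp u δ)‖)
        ≤ (M * Real.exp (-(H ^ 2 * u ^ 2 / 2))) *
          (Real.exp (u / 2) * (K * Real.exp (2 * |u|))) := by
          gcongr
          · exact hb u
          · exact hk u
      _ = M * K * Real.exp (-(H ^ 2 * u ^ 2 / 2) + u / 2 + 2 * |u|) := by
          rw [Real.exp_add, Real.exp_add]
          ring
      _ ≤ M * K * Real.exp (-(H ^ 2 / 2 * u ^ 2) + 3 * |u|) := by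
          refine mul_le_mul_of_nonneg_left (Real.exp_le_exp.2 ?_) (by positivity)
          have h6 := le_abs_self u
          have h7 := abs_nonneg u
          have h8 : H ^ 2 / 2 * u ^ 2 = H ^ 2 * u ^ 2 / 2 := by ring
          rw [h8]
          linarith
  have h1 : G10.SB A B δ w S β = RR (fun u : ℝ => ((w u : ℝ) : ℂ) * H91E.FM A B δ S β u) := by
    funext t
    rw [H91E.SB_eq]
    rfl
  rw [h1]
  exact RR_cont hint

lemma gd_cont (H : ℝ) : Continuous (gd H) := by
  unfold gd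
  fun_prop

lemma norm_GH_left (H x y : ℝ) : ‖GH H x (-(1 / 2) + y * I)‖ ≤ Real.exp (1 / (2 * H ^ 2)) := by
  unfold GH
  rw [Complex.norm_exp]
  apply Real.exp_le_exp.2
  have h1 : ((-(1 / 2) : ℂ) + y * I - 1 / 2 - x * I) ^ 2 / (2 * (H : ℂ) ^ 2) =
      (((1 - (y - x) ^ 2) / (2 * H ^ 2) : ℝ) : ℂ) + ((-(2 * (y - x)) / (2 * H ^ 2) : ℝ) : ℂ) * I := by
    have h2 : ((-(1 / 2) : ℂ) + y * I - 1 / 2 - x * I) ^ 2 =
        (1 - (y - x) ^ 2) + (-(2 * (y - x))) * I := by
      have h3 : ((-(1 / 2) : ℂ) + y * I - 1 / 2 - x * I) = -1 + (y - x) * I := by ring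
      rw [h3]
      have h4 : (-1 + (y - x) * I : ℂ) ^ 2 = 1 - 2 * (y - x) * I + (y - x) ^ 2 * I ^ 2 := by ring
      rw [h4, I_sq]
      ring
    rw [h2]
    push_cast
    ring
  rw [h1, Complex.add_re, Complex.ofReal_re, Complex.re_ofReal_mul, Complex.I_re, mul_zero,
    add_zero]
  rcases eq_or_ne H 0 with h0 | h0
  · subst h0
    simp
  · apply div_le_div_of_nonneg_right _ (by positivity)
    nlinarith [sq_nonneg (y - x)]

lemma left_cont (hRH : RiemannHypothesis) (A B δ : ℝ) (S : Finset ℕ) (β : ℕ → ℝ)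
    (hS : ∀ m ∈ S, 1 ≤ m) {T : ℝ} (hT : 0 < T) :
    ContinuousOn (fun y : ℝ => DF A B (-(1 / 2) + y * I) * om0 δ (-(1 / 2) + y * I) *
      pB S β (-(1 / 2) + y * I)) (Icc (T / 2) (4 * T)) := by
  have hmap : ∀ y ∈ Icc (T / 2) (4 * T), 0 < ((-(1 / 2) : ℂ) + y * I).im := by
    intro y hy
    have : ((-(1 / 2) : ℂ) + y * I).im = y := by simp
    rw [this]
    linarith [hy.1]
  have hd : ∀ y ∈ Icc (T / 2) (4 * T), DifferentiableAt ℂ
      (fun s => DF A B s * om0 δ s * pB S β s) ((-(1 / 2) : ℂ) + y * I) := by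
    intro y hy
    have him := hmap y hy
    set s : ℂ := (-(1 / 2) : ℂ) + y * I with hs
    have hU : {s : ℂ | 0 < s.im} ∈ 𝓝 s := H47.UH_open.mem_nhds him
    have hne : riemannZeta s ≠ 0 := by
      intro h0
      have h1 := ZSF.zero_im hRH h0 him.ne'
      have h2 : s.re = 1 / 2 := by
        rw [h1]
        simp
      have h3 : s.re = -(1 / 2) := by
        rw [hs]
        simp
      rw [h3] at h2
      norm_num at h2
    have hFF : DifferentiableAt ℂ FF s := by
      unfold FF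
      exact ((H47.zeta1_diffOn.differentiableAt hU).pow 2).div (H47.zeta_diffOn.differentiableAt hU) hne
    have hF0 : DifferentiableAt ℂ (F0 A B) s := (H47.F0_diffOn A B).differentiableAt hU
    have hDF : DifferentiableAt ℂ (DF A B) s := by
      unfold DF
      exact hFF.sub hF0
    have hp : DifferentiableAt ℂ (pB S β) s := (H61C.polyB_diff S β hS) s
    exact (hDF.mul (H47.om0_diff δ (Or.inl him.ne'))).mul hp
  intro y hy
  have h1 := (hd y hy).continuousAt
  have h2 : ContinuousAt (fun y : ℝ => ((-(1 / 2) : ℂ) + y * I)) y := by fun_prop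
  exact (ContinuousAt.comp (f := fun y : ℝ => ((-(1 / 2) : ℂ) + y * I)) h1 h2).continuousWithinAt

/-- Continuity of the left line in the centre. -/
lemma ILG_cont (hRH : RiemannHypothesis) (A B δ H : ℝ) (S : Finset ℕ) (β : ℕ → ℝ)
    (hS : ∀ m ∈ S, 1 ≤ m) {T : ℝ} (hT : 0 < T) :
    Continuous (fun x : ℝ => ILG A B T δ (fun s => pB S β s * GH H x s)) := by
  unfold ILG
  refine continuous_const.mul ?_
  have hl := left_cont hRH A B δ S β hS hT
  have h4 : T / 2 ≤ 4 * T := by linarith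
  have hii : IntervalIntegrable (fun y : ℝ => DF A B (-(1 / 2) + y * I) *
      om0 δ (-(1 / 2) + y * I) * pB S β (-(1 / 2) + y * I)) volume (T / 2) (4 * T) := by
    refine ContinuousOn.intervalIntegrable ?_
    rwa [uIcc_of_le h4]
  have he : ∀ x y : ℝ, DF A B (-(1 / 2) + y * I) * om0 δ (-(1 / 2) + y * I) *
      (pB S β (-(1 / 2) + y * I) * GH H x (-(1 / 2) + y * I)) =
      (DF A B (-(1 / 2) + y * I) * om0 δ (-(1 / 2) + y * I) *
      pB S β (-(1 / 2) + y * I)) * GH H x (-(1 / 2) + y * I) := fun x y => by ring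
  simp only [he]
  have hGc : ∀ y : ℝ, Continuous (fun x : ℝ => GH H x (-(1 / 2) + y * I)) := by
    intro y
    unfold GH
    fun_prop
  have hGc2 : ∀ x : ℝ, Continuous (fun y : ℝ => GH H x (-(1 / 2) + y * I)) := by
    intro x
    unfold GH
    fun_prop
  refine intervalIntegral.continuous_of_dominated_interval
    (bound := fun y => ‖DF A B (-(1 / 2) + y * I) *
      om0 δ (-(1 / 2) + y * I) * pB S β (-(1 / 2) + y * I)‖ * Real.exp (1 / (2 * H ^ 2))) ?_ ?_
    (hii.norm.mul_const _) ?_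
  · intro x
    exact (hii.def'.aestronglyMeasurable).mul (hGc2 x).aestronglyMeasurable
  · intro x
    refine Eventually.of_forall fun y _ => ?_
    rw [norm_mul]
    exact mul_le_mul_of_nonneg_left (norm_GH_left H x y) (norm_nonneg _)
  · refine Eventually.of_forall fun y _ => ?_
    exact continuous_const.mul (hGc y)

end Pool.Agent.Lib.MP_6bc78b_nt.GP.H91C
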