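import Pool.Agent.Lib.MP_6bc78b_nt.GP.H91.Chb10a
import Pool.Agent.Lib.MP_6bc78b_nt.GP.H91.Chb10b

/-! Project GP10 (MP_6bc78b_nt), rows CHB10P and CHB10Q, third part: one height `T`. -/

set_option autoImplicit false

open Complex Filter Topology MeasureTheory ArithmeticFunction Set
open scoped ENNReal

namespace Pool.Agent.Lib.MP_6bc78b_nt.GP.H91C

open Pool.Agent.Lib.MP_6bc78b_nt Pool.Agent.Lib.MP_6bc78b_nt.MS Pool.Agent.Lib.MP_6bc78b_nt.MS.P1
open Pool.Agent.Lib.MP_6bc78b_nt.GP Pool.Agent.Lib.MP_6bc78b_nt.GP.G7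
open Pool.Agent.Lib.MP_6bc78b_nt.GP.G10 Pool.Agent.Lib.MP_6bc78b_nt.GP.H91

lemma mol_mono {S : Finset ℕ} {β : ℕ → ℝ} {N ν ν' : ℝ} (h : Mol S β N ν) (hν : ν ≤ ν') :
    Mol S β N ν' :=
  ⟨h.one_le, h.le, h.nonneg, h.sum_one, h.sum_lcm.trans (by linarith)⟩

lemma scl_mono {w : ℝ} {K : ℕ} {S : Finset ℕ} {β : ℕ → ℝ} {S' : ℕ → Finset ℕ} {β' : ℕ → ℕ → ℝ}
    {N ν ν' : ℝ} (h : Scl w K S β S' β' N ν) (hν : ν ≤ ν') : Scl w K S β S' β' N ν' :=
  ⟨mol_mono h.mol hν, fun k hk => mol_mono (h.mol' k hk) hν, h.one_le, h.fac, h.sq.trans hν⟩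

lemma four_le {a b c d : ℂ} (h : ‖(a - b) - (c + d)‖ ≤ 1) : ‖b‖ ≤ 1 + ‖a‖ + ‖c‖ + ‖d‖ := by
  have e : b = (a - c - d) - ((a - b) - (c + d)) := by ring
  have k1 := norm_sub_le (a - c - d) ((a - b) - (c + d))
  rw [← e] at k1
  have k2 := norm_sub_le (a - c) d
  have k3 := norm_sub_le a c
  linarith

lemma enn_four {x a b c d : ℝ} (ha : 0 ≤ a) (hb : 0 ≤ b) (hc : 0 ≤ c) (hd : 0 ≤ d)
    (h : x ≤ a + b + c + d) : ENNReal.ofReal x ≤
      ENNReal.ofReal a + ENNReal.ofReal b + ENNReal.ofReal c + ENNReal.ofReal d := by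
  rw [← ENNReal.ofReal_add ha hb, ← ENNReal.ofReal_add (add_nonneg ha hb) hc,
    ← ENNReal.ofReal_add (add_nonneg (add_nonneg ha hb) hc) hd]
  exact ENNReal.ofReal_le_ofReal h

lemma enn_four' {x a b c d : ℝ} (ha : 0 ≤ a) (hb : 0 ≤ b) (hc : 0 ≤ c) (hd : 0 ≤ d)
    (h : a + b + c + d ≤ x) :
      ENNReal.ofReal a + ENNReal.ofReal b + ENNReal.ofReal c + ENNReal.ofReal d ≤
      ENNReal.ofReal x := by
  rw [← ENNReal.ofReal_add ha hb, ← ENNReal.ofReal_add (add_nonneg ha hb) hc,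
    ← ENNReal.ofReal_add (add_nonneg (add_nonneg ha hb) hc) hd]
  exact ENNReal.ofReal_le_ofReal h

/-- The zeros with a derivative below `m`. -/
noncomputable def ZS1 (T m : ℝ) : Finset ℝ := by
  classical exact (ZF T).filter (fun γ : ℝ => ‖deriv riemannZeta (1 / 2 + γ * I)‖ < m)

/-- The other zeros. -/
noncomputable def ZS2 (T m : ℝ) : Finset ℝ := by
  classical exact (ZF T).filter (fun γ : ℝ => ¬ ‖deriv riemannZeta (1 / 2 + γ * I)‖ < m)

lemma mem_ZS1 {T m γ : ℝ} : γ ∈ ZS1 T m ↔ γ ∈ ZF T ∧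
    ‖deriv riemannZeta (1 / 2 + γ * I)‖ < m := by
  unfold ZS1
  rw [Finset.mem_filter]

lemma mem_ZS2 {T m γ : ℝ} : γ ∈ ZS2 T m ↔ γ ∈ ZF T ∧
    ¬ ‖deriv riemannZeta (1 / 2 + γ * I)‖ < m := by
  unfold ZS2
  rw [Finset.mem_filter]

lemma ZS_sum (T m : ℝ) (f : ℝ → ℂ) :
    ∑ γ ∈ ZF T, f γ = ∑ γ ∈ ZS1 T m, f γ + ∑ γ ∈ ZS2 T m, f γ := by
  classical
  unfold ZS1 ZS2
  rw [Finset.sum_filter_add_sum_filter_not]

/-- The averages of the left line. -/
noncomputable def LI (A B T δ lam : ℝ) (S : Finset ℕ) (β : ℕ → ℝ) (t : ℝ) : ℂ :=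
  (G10.Av (lam / 16))^[8] (fun x =>
    ILG A B T δ (fun s => pB S β s * GH (HH T lam) x s)) t

/-- The averages of a sum over zeros. -/
noncomputable def YZ (δ H lam : ℝ) (S : Finset ℕ) (β : ℕ → ℝ) (Z : Finset ℝ) (t : ℝ) : ℂ :=
  (G10.Av (lam / 16))^[8] (fun x => ∑ γ ∈ Z, tm δ H S β γ x) t

/-- One centre. -/
lemma centre (hE : ETRStatement) (hG : GAMCStatement) (hRH : RiemannHypothesis) {A B T δ lam : ℝ}
    {S : Finset ℕ} {β : ℕ → ℝ} (hS : ∀ m ∈ S, 1 ≤ m) (hT : 10 < T) (hδ : 0 < δ)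
    (hδ1 : δ ≤ 1 / 2) (hlam : 0 < lam) (hH : 0 < HH T lam) (hlT : lam / 2 ≤ T / 4)
    (havb : AVBStatement) {m : ℝ} (hM : 0 < m) {t : ℝ} (ht1 : T ≤ t)
    (ht2 : t ≤ 2 * T)
    (hcon : ∀ x : ℝ, 3 / 4 * T ≤ x → x ≤ 3 * T → ‖G10.SB A B δ (gd (HH T lam)) S β x -
      ILG A B T δ (fun s => pB S β s * GH (HH T lam) x s) -
      SSG T δ (fun s => pB S β s * GH (HH T lam) x s)‖ ≤ 1)
    (hbad : ∀ γ : ℝ, |γ - t| < lam → mz γ = 1 →
      ‖deriv riemannZeta (1 / 2 + γ * I)‖ < m) :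
    ‖LI A B T δ lam S β t‖ ≤
      1 + HH T lam / Real.sqrt (2 * Real.pi) * ‖G10.SB A B δ (wd lam (HH T lam)) S β t‖ +
      ‖YZ δ (HH T lam) lam S β (ZS1 T m) t‖ + SFB T lam S β t := by
  have hw : 0 < lam / 16 := by positivity
  have hsum : ∀ x, SSG T δ (fun s => pB S β s * GH (HH T lam) x s) =
      ∑ γ ∈ ZS1 T m, tm δ (HH T lam) S β γ x + ∑ γ ∈ ZS2 T m, tm δ (HH T lam) S β γ x := by
    intro x
    rw [SSG_eq, ZS_sum T m]
  have hc1 : Continuous (G10.SB A B δ (gd (HH T lam)) S β) :=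
    SB_cont hE A B δ hδ hδ1 S β hS (gd_cont _) (H := HH T lam)
      (M := HH T lam / Real.sqrt (2 * Real.pi)) hH (by positivity) (fun u => by
        unfold gd
        rw [abs_of_nonneg (by positivity)])
  have hc2 : Continuous (fun x : ℝ => ILG A B T δ (fun s => pB S β s * GH (HH T lam) x s)) :=
    ILG_cont hRH A B δ (HH T lam) S β hS (by linarith)
  have hc3 : Continuous (fun x => ∑ γ ∈ ZS1 T m, tm δ (HH T lam) S β γ x) :=
    continuous_finsetSum _ fun γ _ => tm_cont _ _ _ _ _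
  have hc4 : Continuous (fun x => ∑ γ ∈ ZS2 T m, tm δ (HH T lam) S β γ x) :=
    continuous_finsetSum _ fun γ _ => tm_cont _ _ _ _ _
  -- the averaged identity
  have hav := havb A B δ lam (HH T lam) t S β hδ hδ1 hlam hH hS
  have herr : ‖(G10.Av (lam / 16))^[8] (fun x => (G10.SB A B δ (gd (HH T lam)) S β x -
      ILG A B T δ (fun s => pB S β s * GH (HH T lam) x s)) -
      (∑ γ ∈ ZS1 T m, tm δ (HH T lam) S β γ x +
        ∑ γ ∈ ZS2 T m, tm δ (HH T lam) S β γ x)) t‖ ≤ 1 := by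
    rw [Av_eq]
    refine H10A.Av_norm_iter hw 8 fun x hx => ?_
    push_cast at hx
    have hx' := abs_le.1 hx
    have h1 := hcon x (by linarith [hx'.1]) (by linarith [hx'.2])
    rw [hsum x] at h1
    exact h1
  have hlin : (G10.Av (lam / 16))^[8] (fun x => (G10.SB A B δ (gd (HH T lam)) S β x -
      ILG A B T δ (fun s => pB S β s * GH (HH T lam) x s)) -
      (∑ γ ∈ ZS1 T m, tm δ (HH T lam) S β γ x + ∑ γ ∈ ZS2 T m, tm δ (HH T lam) S β γ x)) t =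
      ((G10.Av (lam / 16))^[8] (fun x => G10.SB A B δ (gd (HH T lam)) S β x) t -
      LI A B T δ lam S β t) -
      (YZ δ (HH T lam) lam S β (ZS1 T m) t + YZ δ (HH T lam) lam S β (ZS2 T m) t) := by
    unfold LI YZ
    rw [Av_eq]
    have q1 := H10A.Av_sub_iter (w := lam / 16) 8
      (F := fun x => G10.SB A B δ (gd (HH T lam)) S β x -
        ILG A B T δ (fun s => pB S β s * GH (HH T lam) x s))
      (G := fun x => ∑ γ ∈ ZS1 T m, tm δ (HH T lam) S β γ x +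
        ∑ γ ∈ ZS2 T m, tm δ (HH T lam) S β γ x)
      (hc1.sub hc2) (hc3.add hc4)
    have q2 := H10A.Av_sub_iter (w := lam / 16) 8
      (F := fun x => G10.SB A B δ (gd (HH T lam)) S β x)
      (G := fun x => ILG A B T δ (fun s => pB S β s * GH (HH T lam) x s)) hc1 hc2
    have q3 := H10A.Av_add_iter (w := lam / 16) 8
      (F := fun x => ∑ γ ∈ ZS1 T m, tm δ (HH T lam) S β γ x)
      (G := fun x => ∑ γ ∈ ZS2 T m, tm δ (HH T lam) S β γ x) hc3 hc4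
    rw [q1]
    simp only []
    rw [q2, q3]
  rw [hlin, hav] at herr
  have hfar : ‖YZ δ (HH T lam) lam S β (ZS2 T m) t‖ ≤ SFB T lam S β t := by
    refine far_le hG (by linarith) hδ.le hlam hH S β (fun γ hγ => (mem_ZS2.1 hγ).1)
      fun γ hγ => ?_
    by_contra hcon'
    push Not at hcon'
    apply (mem_ZS2.1 hγ).2
    have hz := (mem_ZF.1 (mem_ZS2.1 hγ).1).2.2
    have hm1 := MS.P4.H30.zfac.2.2.1 γ hz
    rcases Nat.lt_or_ge (mz γ) 2 with h | h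
    · exact hbad γ hcon' (by omega)
    · rw [MS.P4.H30.zfac.2.2.2.2.1 γ h, norm_zero]
      exact hM
  have h7 := four_le herr
  have h5 : ‖((HH T lam / Real.sqrt (2 * Real.pi) : ℝ) : ℂ) *
      G10.SB A B δ (wd lam (HH T lam)) S β t‖ =
      HH T lam / Real.sqrt (2 * Real.pi) * ‖G10.SB A B δ (wd lam (HH T lam)) S β t‖ := by
    rw [norm_mul, Complex.norm_real, Real.norm_of_nonneg (by positivity)]
  rw [h5] at h7
  linarith

/-- The exceptional set for one `T`. -/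
theorem step (hE : ETRStatement) (hG : GAMCStatement) (hRH : RiemannHypothesis)
    {A B T δ lam c ε : ℝ} {S : Finset ℕ} {β : ℕ → ℝ} (hS : ∀ m ∈ S, 1 ≤ m) (hT : 10 < T)
    (hδ : 0 < δ) (hδ1 : δ ≤ 1 / 2) (hlam : 0 < lam) (hH : 0 < HH T lam) (hlT : lam / 2 ≤ T / 4)
    (havb : AVBStatement) {m : ℝ} (hM : 0 < m) (hc : 0 < c) (hε : 0 < ε)
    (hL : 0 < Real.log T)
    (hcon : ∀ x : ℝ, 3 / 4 * T ≤ x → x ≤ 3 * T → ‖G10.SB A B δ (gd (HH T lam)) S β x -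
      ILG A B T δ (fun s => pB S β s * GH (HH T lam) x s) -
      SSG T δ (fun s => pB S β s * GH (HH T lam) x s)‖ ≤ 1)
    (hmain : volume {t : ℝ | T ≤ t ∧ t ≤ 2 * T ∧
      ‖LI A B T δ lam S β t‖ ≤ c * HH T lam * Real.log T ^ 2} ≤ ENNReal.ofReal (ε / 2 * T))
    (hSB : ∫⁻ t in Icc T (2 * T), ENNReal.ofReal ‖G10.SB A B δ (wd lam (HH T lam)) S β t‖ ≤
      ENNReal.ofReal (ε * c / 8 * T * Real.log T ^ 2))
    (hfar : ∫⁻ t in Icc T (2 * T), ENNReal.ofReal (SFB T lam S β t) ≤ ENNReal.ofReal T)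
    (hnear : 24 * m * ∑ γ ∈ ZS1 T m, ‖pB S β (1 / 2 + γ * I)‖ ≤ ε * c * T * Real.log T ^ 2)
    (hLε : 16 ≤ ε * c * (HH T lam * Real.log T ^ 2)) :
    volume {t : ℝ | T ≤ t ∧ t ≤ 2 * T ∧ ∀ γ : ℝ, |γ - t| < lam → mz γ = 1 →
      ‖deriv riemannZeta (1 / 2 + γ * I)‖ < m} ≤ ENNReal.ofReal (ε * T) := by
  obtain ⟨H, hHd⟩ : ∃ H : ℝ, H = HH T lam := ⟨_, rfl⟩
  obtain ⟨R, hR⟩ : ∃ R : ℝ → ℂ, R = G10.SB A B δ (wd lam (HH T lam)) S β := ⟨_, rfl⟩
  obtain ⟨Y, hY⟩ : ∃ Y : ℝ → ℂ, Y = YZ δ (HH T lam) lam S β (ZS1 T m) := ⟨_, rfl⟩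
  obtain ⟨X, hX⟩ : ∃ X : ℝ → ℝ, X = SFB T lam S β := ⟨_, rfl⟩
  have hRm : Measurable R := by
    rw [hR]
    exact (SB_cont hE A B δ hδ hδ1 S β hS (H91E.wd_cont lam (HH T lam)) (H := HH T lam) (M := 1)
      hH (by norm_num) (fun u => by rw [one_mul]; exact H91E.wd_abs lam _ u)).measurable
  have hYm : Measurable Y := by
    rw [hY]
    unfold YZ
    rw [Av_eq]
    exact (H10A.Av_cont_iter 8 (continuous_finsetSum _ fun γ _ => tm_cont _ _ _ _ _)).measurable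
  have hXm : Measurable X := by
    rw [hX]
    exact SFB_meas T lam S β
  have hX0 : ∀ t, 0 ≤ X t := by
    intro t
    rw [hX]
    unfold SFB
    exact finsum_nonneg fun γ => finsum_nonneg fun _ => by positivity
  have hYi : ∫⁻ t in Icc T (2 * T), ‖Y t‖ₑ ≤ ENNReal.ofReal (m * (H * Real.sqrt (2 * Real.pi)) *
      ∑ γ ∈ ZS1 T m, ‖pB S β (1 / 2 + γ * I)‖) := by
    rw [hY, hHd]
    exact near_mean hG hδ.le hH S β (Z := ZS1 T m)
      (fun γ hγ => ⟨by linarith [(mem_ZF.1 (mem_ZS1.1 hγ).1).1],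
        (mem_ZF.1 (mem_ZS1.1 hγ).1).2.2⟩)
      (m := m) (fun γ hγ => (mem_ZS1.1 hγ).2.le) (w := lam / 16) (by positivity) T (2 * T)
  rw [← hR] at hSB
  rw [← hX] at hfar
  obtain ⟨U, hU⟩ : ∃ U : ℝ → ℝ≥0∞, U = fun t => ENNReal.ofReal 1 +
      ENNReal.ofReal (H / Real.sqrt (2 * Real.pi) * ‖R t‖) +
      ENNReal.ofReal ‖Y t‖ + ENNReal.ofReal (X t) := ⟨_, rfl⟩
  rw [← hHd] at hH hmain hLε
  have hsub : {t : ℝ | T ≤ t ∧ t ≤ 2 * T ∧ ∀ γ : ℝ, |γ - t| < lam → mz γ = 1 →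
      ‖deriv riemannZeta (1 / 2 + γ * I)‖ < m} ⊆
      {t : ℝ | T ≤ t ∧ t ≤ 2 * T ∧ ‖LI A B T δ lam S β t‖ ≤ c * H * Real.log T ^ 2} ∪
      ({t : ℝ | ENNReal.ofReal (c * H * Real.log T ^ 2) ≤ U t} ∩ Icc T (2 * T)) := by
    rintro t ⟨ht1, ht2, hbad⟩
    by_cases hm : ‖LI A B T δ lam S β t‖ ≤ c * H * Real.log T ^ 2
    · exact Or.inl ⟨ht1, ht2, hm⟩
    · refine Or.inr ⟨?_, ht1, ht2⟩
      have h5 := centre hE hG hRH (A := A) (B := B) (T := T) (δ := δ) (lam := lam) (m := m)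
        hS hT hδ hδ1 hlam (by rw [← hHd]; exact hH) hlT havb hM ht1 ht2 hcon hbad
      rw [← hR, ← hX, ← hY, ← hHd] at h5
      have h6 := (not_le.1 hm).le.trans h5

      show ENNReal.ofReal (c * H * Real.log T ^ 2) ≤ U t
      rw [hU]
      exact enn_four (by norm_num) (mul_nonneg (div_nonneg hH.le (Real.sqrt_nonneg _))
        (norm_nonneg _)) (norm_nonneg _) (hX0 t) h6
  have hUm : Measurable U := by
    rw [hU]
    exact (((measurable_const).add ((hRm.norm.const_mul _).ennreal_ofReal)).add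
      hYm.norm.ennreal_ofReal).add hXm.ennreal_ofReal
  have hUi : ∫⁻ t in Icc T (2 * T), U t ≤
      ENNReal.ofReal (ε / 2 * T * (c * H * Real.log T ^ 2)) := by
    have e0 : ∫⁻ t in Icc T (2 * T), U t = (∫⁻ t in Icc T (2 * T), ENNReal.ofReal 1) +
        (∫⁻ t in Icc T (2 * T), ENNReal.ofReal (H / Real.sqrt (2 * Real.pi) * ‖R t‖)) +
        (∫⁻ t in Icc T (2 * T), ENNReal.ofReal ‖Y t‖) +
        ∫⁻ t in Icc T (2 * T), ENNReal.ofReal (X t) := by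
      rw [hU, lintegral_add_right _ hXm.ennreal_ofReal,
        lintegral_add_right _ hYm.norm.ennreal_ofReal,
        lintegral_add_right _ (hRm.norm.const_mul _).ennreal_ofReal]
    have e1 : ∫⁻ t in Icc T (2 * T), ENNReal.ofReal 1 = ENNReal.ofReal T := by
      rw [setLIntegral_const, Real.volume_Icc, ENNReal.ofReal_one, one_mul]
      congr 1
      ring
    have e2 : ∫⁻ t in Icc T (2 * T), ENNReal.ofReal (H / Real.sqrt (2 * Real.pi) * ‖R t‖) ≤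
        ENNReal.ofReal (H / Real.sqrt (2 * Real.pi) * (ε * c / 8 * T * Real.log T ^ 2)) := by
      have hq : 0 ≤ H / Real.sqrt (2 * Real.pi) := div_nonneg hH.le (Real.sqrt_nonneg _)
      rw [ENNReal.ofReal_mul hq]
      refine le_trans (le_of_eq ?_) (mul_le_mul_right hSB _)
      rw [← lintegral_const_mul' _ _ ENNReal.ofReal_ne_top]
      apply lintegral_congr
      intro t
      rw [ENNReal.ofReal_mul hq]
    have e3 : ∫⁻ t in Icc T (2 * T), ENNReal.ofReal ‖Y t‖ ≤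
        ENNReal.ofReal (m * (H * Real.sqrt (2 * Real.pi)) *
          ∑ γ ∈ ZS1 T m, ‖pB S β (1 / 2 + γ * I)‖) := by
      refine le_trans (le_of_eq ?_) hYi
      apply lintegral_congr
      intro t
      rw [ofReal_norm]
    have hp1 : 0 ≤ ∑ γ ∈ ZS1 T m, ‖pB S β (1 / 2 + γ * I)‖ :=
      Finset.sum_nonneg fun _ _ => norm_nonneg _
    obtain ⟨P, hP⟩ : ∃ P : ℝ, P = ∑ γ ∈ ZS1 T m, ‖pB S β (1 / 2 + γ * I)‖ := ⟨_, rfl⟩
    rw [← hP] at e3 hp1 hnear
    rw [e0, e1]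
    have hT0 : 0 < T := by linarith
    refine (add_le_add (add_le_add (add_le_add le_rfl e2) e3) hfar).trans ?_
    have hs1 : 1 ≤ Real.sqrt (2 * Real.pi) := by
      rw [Real.one_le_sqrt]
      linarith [Real.pi_gt_three]
    have hs3 : Real.sqrt (2 * Real.pi) ≤ 3 := by
      rw [Real.sqrt_le_left (by norm_num)]
      linarith [Real.pi_le_four]
    have hs0 : 0 ≤ Real.sqrt (2 * Real.pi) := Real.sqrt_nonneg _
    refine enn_four' hT0.le (mul_nonneg (div_nonneg hH.le hs0) (by positivity))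
      (mul_nonneg (mul_nonneg hM.le (mul_nonneg hH.le hs0)) hp1) hT0.le ?_
    obtain ⟨G, hGd⟩ : ∃ G : ℝ, G = H * Real.log T ^ 2 * T := ⟨_, rfl⟩
    have n1 : 2 * T ≤ ε * c / 8 * G := by
      have h5 := mul_le_mul_of_nonneg_right hLε hT0.le
      rw [hGd]
      linarith
    have n2 : H / Real.sqrt (2 * Real.pi) * (ε * c / 8 * T * Real.log T ^ 2) ≤
        ε * c / 8 * G := by
      have h5 : H / Real.sqrt (2 * Real.pi) ≤ H := div_le_self hH.le hs1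
      have h6 : 0 ≤ ε * c / 8 * T * Real.log T ^ 2 := by positivity
      have h7 := mul_le_mul_of_nonneg_right h5 h6
      rw [hGd]
      linarith
    have n3 : m * (H * Real.sqrt (2 * Real.pi)) * P ≤ ε * c / 8 * G := by
      have h5 : m * (H * Real.sqrt (2 * Real.pi)) * P ≤ m * (H * 3) * P :=
        mul_le_mul_of_nonneg_right (mul_le_mul_of_nonneg_left
          (mul_le_mul_of_nonneg_left hs3 hH.le) hM.le) hp1
      have h6 := mul_le_mul_of_nonneg_left hnear hH.le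
      rw [hGd]
      linarith
    have n4 : ε / 2 * T * (c * H * Real.log T ^ 2) = ε * c / 2 * G := by
      rw [hGd]
      ring
    rw [n4]
    have n5 : 0 ≤ ε * c * G := by
      rw [hGd]
      positivity
    linarith
  have hmark : volume ({t : ℝ | ENNReal.ofReal (c * H * Real.log T ^ 2) ≤ U t} ∩
      Icc T (2 * T)) ≤ ENNReal.ofReal (ε / 2 * T) := by
    have h5 := mul_meas_ge_le_lintegral (μ := volume.restrict (Icc T (2 * T))) hUm
      (ENNReal.ofReal (c * H * Real.log T ^ 2))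
    rw [Measure.restrict_apply' measurableSet_Icc] at h5
    have h6 := h5.trans hUi
    have hpos : 0 < c * H * Real.log T ^ 2 := by positivity
    have hεT : 0 ≤ ε / 2 * T := by
      have : 0 < T := by linarith
      positivity
    rw [ENNReal.ofReal_mul hεT, mul_comm (ENNReal.ofReal (ε / 2 * T))] at h6
    exact (ENNReal.mul_le_mul_iff_right (by
      rw [Ne, ENNReal.ofReal_eq_zero, not_le]
      exact hpos) ENNReal.ofReal_ne_top).1 h6
  have hεT : 0 ≤ ε / 2 * T := by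
    have : 0 < T := by linarith
    positivity
  refine (measure_mono hsub).trans ((measure_union_le _ _).trans
    ((add_le_add hmain hmark).trans (le_of_eq ?_)))
  rw [← ENNReal.ofReal_add hεT hεT]
  congr 1
  ring

end Pool.Agent.Lib.MP_6bc78b_nt.GP.H91C
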