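import Pool.Agent.Lib.MP_6bc78b_nt.GP.H91.Chb10c
import Pool.Agent.Lib.MP_6bc78b_nt.GP.H43.Defs10q

/-! Project GP10 (MP_6bc78b_nt), row CHB10Q: the measure of the centres without a simple zero with
a large derivative within `lam`; `lam` depends on `ε` only. -/

set_option autoImplicit false

open Complex Filter Topology MeasureTheory ArithmeticFunction Set
open scoped ENNReal

namespace Pool.Agent.Lib.MP_6bc78b_nt.GP.H91C

open Pool.Agent.Lib.MP_6bc78b_nt Pool.Agent.Lib.MP_6bc78b_nt.MS Pool.Agent.Lib.MP_6bc78b_nt.MS.P1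
open Pool.Agent.Lib.MP_6bc78b_nt.GP Pool.Agent.Lib.MP_6bc78b_nt.GP.G7
open Pool.Agent.Lib.MP_6bc78b_nt.GP.G10 Pool.Agent.Lib.MP_6bc78b_nt.GP.H91

/-- The sum of `|B|` over the zeros. -/
lemma pB_sum (hzdb : ZDBStatement) (hRH : RiemannHypothesis) : ∃ C T0 : ℝ, 0 < C ∧ 10 < T0 ∧
    ∀ (T q : ℝ) (S : Finset ℕ) (β : ℕ → ℝ) (Z : Finset ℝ), T0 ≤ T → 0 < q →
      Mol S β (Real.exp (Real.log (Real.log T) ^ 5)) 1 → Z ⊆ ZF T →
      ∑ m ∈ S, β m ^ 2 / m ≤ q ^ 2 → 1 ≤ Real.log T * q ^ 2 →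
      ∑ γ ∈ Z, ‖pB S β (1 / 2 + γ * I)‖ ≤ C * q * (T * Real.log T) := by
  obtain ⟨Cz, Tz, hCz, hTz, hz⟩ := hzdb hRH
  obtain ⟨Cn, Tn, hCn, hTn, hn⟩ := zcount
  refine ⟨Real.sqrt (2 * Cn * Cz), max Tz Tn, by positivity, lt_max_of_lt_left hTz,
    fun T q S β Z hT hq hM1 hZ hsq hq1 => ?_⟩
  have hTTz : Tz ≤ T := (le_max_left _ _).trans hT
  have hTTn : Tn ≤ T := (le_max_right _ _).trans hT
  have hTp : 0 < T := by linarith
  have hL0 : 0 < Real.log T := Real.log_pos (by linarith)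
  have hcard := hn T hTTn Z hZ
  have hsq2 : ∑ γ ∈ Z, ‖pB S β (1 / 2 + γ * I)‖ ^ 2 ≤ 2 * Cz * q ^ 2 * (T * Real.log T) := by
    have h5 := hz T S β hTTz hM1
    rw [finsum_mem_eq_finite_toFinset_sum _ (zfin T)] at h5
    have h6 : ∑ γ ∈ Z, ‖pB S β (1 / 2 + γ * I)‖ ^ 2 ≤
        ∑ γ ∈ (zfin T).toFinset, (mz γ : ℝ) * ‖pB S β (1 / 2 + γ * I)‖ ^ 2 := by
      have h7 : ∑ γ ∈ Z, ‖pB S β (1 / 2 + γ * I)‖ ^ 2 ≤
          ∑ γ ∈ Z, (mz γ : ℝ) * ‖pB S β (1 / 2 + γ * I)‖ ^ 2 := by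
        refine Finset.sum_le_sum fun γ hγ => ?_
        have hm1 := MS.P4.H30.zfac.2.2.1 γ (mem_ZF.1 (hZ hγ)).2.2
        have hm2 : (1 : ℝ) ≤ mz γ := by exact_mod_cast hm1
        exact le_mul_of_one_le_left (sq_nonneg _) hm2
      exact h7.trans (Finset.sum_le_sum_of_subset_of_nonneg hZ fun γ _ _ => by positivity)
    refine h6.trans (h5.trans ?_)
    have h8 : Real.log T * ∑ m ∈ S, β m ^ 2 / (m : ℝ) ≤ Real.log T * q ^ 2 :=
      mul_le_mul_of_nonneg_left hsq hL0.le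
    calc Cz * T * (Real.log T * ∑ m ∈ S, β m ^ 2 / (m : ℝ) + 1)
        ≤ Cz * T * (Real.log T * q ^ 2 + Real.log T * q ^ 2) :=
          mul_le_mul_of_nonneg_left (by linarith) (by positivity)
      _ = 2 * Cz * q ^ 2 * (T * Real.log T) := by ring
  have h5 : (∑ γ ∈ Z, ‖pB S β (1 / 2 + γ * I)‖) ^ 2 ≤
      (Z.card : ℝ) * ∑ γ ∈ Z, ‖pB S β (1 / 2 + γ * I)‖ ^ 2 := sq_sum_le_card_mul_sum_sq
  have h6 : (∑ γ ∈ Z, ‖pB S β (1 / 2 + γ * I)‖) ^ 2 ≤
      (Real.sqrt (2 * Cn * Cz) * q * (T * Real.log T)) ^ 2 := by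
    have h0 : 0 ≤ ∑ γ ∈ Z, ‖pB S β (1 / 2 + γ * I)‖ ^ 2 :=
      Finset.sum_nonneg fun _ _ => sq_nonneg _
    have h7 : (Real.sqrt (2 * Cn * Cz) * q * (T * Real.log T)) ^ 2 =
        (Cn * (T * Real.log T)) * (2 * Cz * q ^ 2 * (T * Real.log T)) := by
      rw [mul_pow, mul_pow, Real.sq_sqrt (by positivity)]
      ring
    rw [h7]
    refine h5.trans (mul_le_mul hcard hsq2 h0 (by positivity))
  exact (abs_le_of_sq_le_sq' h6 (by positivity)).2

theorem chb10q (hdx : DX1Statement) (hscl : SCLBQStatement) (herb : ERBStatement)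
    (hcon : CONBStatement) (havb : AVBStatement) (hmain : MAINBStatement) (hfar : FARBStatement)
    (hzdb : ZDBStatement) (hG : GAMCStatement) (hE : ETRStatement) : CHB10QStatement := by
  intro hRH ε hε
  obtain ⟨A, B, D, hD⟩ := hdx hRH
  obtain ⟨c, hc, hmain1⟩ := hmain A B
  obtain ⟨lamM, hlamM, hmain2⟩ := hmain1 (ε / 2) (by positivity)
  obtain ⟨Cp, Tp, hCp, hTp, hpb⟩ := pB_sum hzdb hRH
  obtain ⟨νE, hνE0, hνE1, herb1⟩ := herb hRH A B D hD (ε * c / 8) (by positivity)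
  obtain ⟨w, hw, hscl1⟩ := hscl νE hνE0
  obtain ⟨lamE, hlamE, herb2⟩ := herb1 w hw
  obtain ⟨lam, hlam⟩ : ∃ lam : ℝ, lam = max lamM lamE := ⟨_, rfl⟩
  have hlM : lamM ≤ lam := by rw [hlam]; exact le_max_left _ _
  have hlE : lamE ≤ lam := by rw [hlam]; exact le_max_right _ _
  have hl1 : 1 ≤ lam := hlamM.trans hlM
  have hl0 : 0 < lam := by linarith
  obtain ⟨Tm, hTm, hmain3⟩ := hmain2 lam hlM
  obtain ⟨Te, hTe, herb3⟩ := herb2 lam hlE
  obtain ⟨Tf, hTf, hfar1⟩ := hfar hRH lam hl1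
  obtain ⟨Tc, hcon1⟩ := eventually_atTop.1 (hcon hRH A B)
  refine ⟨lam, hl0, fun n => ?_⟩
  obtain ⟨Ts, hTs, hscl2⟩ := hscl1 (2 * n + 2)
  have hlog : Tendsto Real.log atTop atTop := Real.tendsto_log_atTop
  obtain ⟨T2, h2⟩ := eventually_atTop.1 ((hlog.comp hlog).eventually_ge_atTop 1)
  obtain ⟨T3, h3⟩ := eventually_atTop.1 (hlog.eventually
    ((Real.isLittleO_pow_log_id_atTop (n := 1)).bound (c := 1 / 10) (by positivity)))
  obtain ⟨T4, h4⟩ := eventually_atTop.1 (hlog.eventually_ge_atTop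
    (max 1 (max (16 / (ε * c)) lam)))
  obtain ⟨T5, h5⟩ := eventually_atTop.1 ((hlog.comp (hlog.comp hlog)).eventually_ge_atTop
    (max 1 (24 * Cp / (ε * c))))
  obtain ⟨T6, h6⟩ := eventually_atTop.1 ((hlog.comp hlog).eventually
    ((Real.isLittleO_pow_log_id_atTop (n := 2 * n + 2)).bound (c := 1) (by positivity)))
  obtain ⟨T0, hT0⟩ : ∃ T0 : ℝ, T0 = max (max (max Tm Te) (max Tf Tc)) (max (max Tp T5)
    (max (max Ts T2) (max (max T3 T4) (max T6 (2 * lam))))) := ⟨_, rfl⟩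
  refine ⟨T0, ?_, fun T hT => ?_⟩
  · rw [hT0]
    exact lt_max_of_lt_left (lt_max_of_lt_left (lt_max_of_lt_left hTm))
  rw [hT0] at hT
  have hTTm : Tm ≤ T := le_trans (le_max_of_le_left (le_max_of_le_left (le_max_left _ _))) hT
  have hTTe : Te ≤ T := le_trans (le_max_of_le_left (le_max_of_le_left (le_max_right _ _))) hT
  have hTTf : Tf ≤ T := le_trans (le_max_of_le_left (le_max_of_le_right (le_max_left _ _))) hT
  have hTTc : Tc ≤ T := le_trans (le_max_of_le_left (le_max_of_le_right (le_max_right _ _))) hT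
  replace hT := (le_max_right _ _).trans hT
  have hTTp : Tp ≤ T := le_trans (le_max_of_le_left (le_max_left _ _)) hT
  have hTT5 : T5 ≤ T := le_trans (le_max_of_le_left (le_max_right _ _)) hT
  replace hT := (le_max_right _ _).trans hT
  have hTTs : Ts ≤ T := le_trans (le_max_of_le_left (le_max_left _ _)) hT
  have hTT2 : T2 ≤ T := le_trans (le_max_of_le_left (le_max_right _ _)) hT
  replace hT := (le_max_right _ _).trans hT
  have hTT3 : T3 ≤ T := le_trans (le_max_of_le_left (le_max_left _ _)) hT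
  have hTT4 : T4 ≤ T := le_trans (le_max_of_le_left (le_max_right _ _)) hT
  replace hT := (le_max_right _ _).trans hT
  have hTT6 : T6 ≤ T := (le_max_left _ _).trans hT
  have hTl : 2 * lam ≤ T := (le_max_right _ _).trans hT
  clear hT
  have hT10 : 10 < T := by linarith
  have hTpos : 0 < T := by linarith
  have hl : 1 ≤ Real.log (Real.log T) := h2 T hTT2
  have h4' := h4 T hTT4
  have hL1 : 1 ≤ Real.log T := (le_max_left _ _).trans h4'
  have hLε : 16 / (ε * c) ≤ Real.log T := le_trans (le_max_of_le_right (le_max_left _ _)) h4'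
  have hLlam : lam ≤ Real.log T := le_trans (le_max_of_le_right (le_max_right _ _)) h4'
  have hL0 : 0 < Real.log T := by linarith
  have hl10 : 10 * Real.log (Real.log T) ≤ Real.log T := by
    have h := h3 T hTT3
    simp only [id, pow_one] at h
    rw [Real.norm_of_nonneg (by linarith), Real.norm_of_nonneg (by linarith)] at h
    linarith
  obtain ⟨y, hy⟩ : ∃ y : ℝ, y = Real.log (Real.log (Real.log T)) := ⟨_, rfl⟩
  have h5' := h5 T hTT5
  simp only [Function.comp_apply] at h5'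
  rw [← hy] at h5'
  have hy1 : 1 ≤ y := (le_max_left _ _).trans h5'
  have hy2 : 24 * Cp / (ε * c) ≤ y := (le_max_right _ _).trans h5'
  have hy0 : 0 < y := by linarith
  have hy3 : y ^ (2 * n + 2) ≤ Real.log T := by
    have h := h6 T hTT6
    simp only [Function.comp_apply, id, one_mul] at h
    rw [← hy, Real.norm_of_nonneg (by positivity), Real.norm_of_nonneg (by linarith)] at h
    linarith
  obtain ⟨K, S, β, S', β', hK1, hK2, hS, hSq⟩ := hscl2 T hTTs
  have hM1 : Mol S β (Real.exp (Real.log (Real.log T) ^ 5)) 1 := mol_mono hS.mol hνE1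
  obtain ⟨δ, hδ, hSB⟩ := herb3 T K S β S' β' hTTe hK1 hK2 hS
  have hδ0 : 0 < δ := lt_of_lt_of_le (by positivity) hδ.1
  have hδ1 : δ ≤ 1 / 2 := by
    refine hδ.2.trans ?_
    rw [div_le_iff₀ hTpos]
    linarith
  have hsl1 : 1 ≤ Real.sqrt (Real.log (Real.log T)) := by
    rw [Real.one_le_sqrt]
    exact hl
  have hH0 : 0 < HH T lam := by
    unfold HH
    positivity
  have hHL : 1 ≤ HH T lam * Real.log T := by
    unfold HH
    rw [div_mul_eq_mul_div, le_div_iff₀ (by positivity)]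
    have hs2 : Real.sqrt (Real.log (Real.log T)) ≤ Real.log (Real.log T) := by
      have h5 := Real.sq_sqrt (by linarith : 0 ≤ Real.log (Real.log T))
      nlinarith
    nlinarith
  have hbm := hmain3 T δ S β hTTm hδ.1 hδ.2 hM1
  rw [← hy] at hSq ⊢
  have hyn : 0 < y ^ n := by positivity
  have hyn1 : 0 < y ^ (n + 1) := by positivity
  refine step hE hG hRH (A := A) (B := B) (T := T) (δ := δ) (lam := lam) (c := c) (ε := ε)
    (S := S) (β := β) hS.mol.one_le hT10 hδ0 hδ1 hl0 hH0 (by linarith) havb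
    (m := Real.log T * y ^ n) (by positivity) hc hε hL0
    (fun x hx1 hx2 => hcon1 T hTTc x δ lam S β hx1 hx2 hδ.1 hδ.2 hl1 hLlam hM1) hbm hSB
    (hfar1 T S β hTTf hM1) ?_ ?_
  · have hq2 : (1 / y ^ (n + 1)) ^ 2 = 1 / y ^ (2 * n + 2) := by
      rw [div_pow, one_pow, ← pow_mul]
      congr 2
      ring
    have h7 := hpb T (1 / y ^ (n + 1)) S β (ZS1 T (Real.log T * y ^ n)) hTTp (by positivity) hM1
      (fun γ hγ => (mem_ZS1.1 hγ).1) (by rw [hq2]; exact hSq)
      (by rw [hq2, mul_one_div, le_div_iff₀ (by positivity), one_mul]; exact hy3)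
    have h8 : 0 ≤ 24 * (Real.log T * y ^ n) := by positivity
    refine (mul_le_mul_of_nonneg_left h7 h8).trans ?_
    have e1 : 24 * (Real.log T * y ^ n) * (Cp * (1 / y ^ (n + 1)) * (T * Real.log T)) =
        24 * Cp / y * (T * Real.log T ^ 2) := by
      rw [pow_succ]
      field_simp
    have e2 : ε * c * T * Real.log T ^ 2 = ε * c * (T * Real.log T ^ 2) := by ring
    rw [e1, e2]
    refine mul_le_mul_of_nonneg_right ?_ (by positivity)
    rw [div_le_iff₀ hy0]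
    rw [div_le_iff₀ (by positivity)] at hy2
    linarith
  · rw [div_le_iff₀ (by positivity)] at hLε
    have h9 : Real.log T ≤ HH T lam * Real.log T ^ 2 := by
      have := mul_le_mul_of_nonneg_right hHL hL0.le
      nlinarith
    have h10 := mul_le_mul_of_nonneg_right h9 (by positivity : 0 ≤ ε * c)
    linarith

end Pool.Agent.Lib.MP_6bc78b_nt.GP.H91C
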