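import Pool.Agent.Lib.MP_6bc78b_nt.GP.H91.Chb6a

/-! Project GP6, module CHB6: the measure of the centres with few simple zeros within `2 lam`. -/

set_option autoImplicit false

open Complex Filter Topology MeasureTheory ArithmeticFunction Set
open scoped ENNReal

namespace Pool.Agent.Lib.MP_6bc78b_nt.GP.H91K

open Pool.Agent.Lib.MP_6bc78b_nt Pool.Agent.Lib.MP_6bc78b_nt.MS Pool.Agent.Lib.MP_6bc78b_nt.MS.P1

/-- One centre: few simple zeros near it and a small local moment give a large window. -/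
theorem incl (hcel : CELStatement) {f : ℝ → ℂ} (hf : Continuous f) {t T lam H c L η s5 : ℝ}
    {I₀ R : ℝ → ℂ}
    (hL0 : 0 < L) (hη : 0 < η) (hc : 0 < c) (hlam0 : 0 < lam) (hH0 : 0 < H)
    (h8 : 8 ≤ c * H * L ^ 2) (hH4 : 5 * s5 * H ≤ lam) (ht1 : T ≤ t - lam) (ht2 : t + lam ≤ 2 * T)
    (e1 : ∀ x : ℝ, T ≤ x → x ≤ 2 * T → ‖f x - I₀ x - R x‖ ≤ 1)
    (e2 : ∀ x : ℝ, T ≤ x → x ≤ 2 * T → c * H * L ^ 2 ≤ (I₀ x).re)
    (e3 : ∀ x : ℝ, T ≤ x → x ≤ 2 * T → ∀ F : Finset ℝ,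
      (∀ γ : ℝ, |γ - x| < 5 * s5 * H → mz γ = 1 → γ ∈ F) →
      ‖R x‖ ≤ 1 + ∑ γ ∈ F, ‖deriv riemannZeta (1 / 2 + γ * I)‖ *
        Real.exp (-((γ - x) ^ 2 / (2 * H ^ 2))))
    (ht3 : ((zs t (2 * lam)).ncard : ℝ) ≤ (c / 12) ^ 2 * η * lam)
    (hc2 : ∫ x in (t + -(2 * lam))..(t + (2 * lam + 1 / L)), GG6 L x < lam * L ^ 4 / η) :
    lam * (c * H * L ^ 2) ≤ ‖∫ x in (t - lam)..(t + lam), f x‖ := by
  have hfin := zs_fin t (2 * lam)
  obtain ⟨F, hF⟩ : ∃ F : Finset ℝ, F = hfin.toFinset := ⟨_, rfl⟩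
  have hFm : ∀ γ : ℝ, γ ∈ F ↔ |γ - t| < 2 * lam ∧ mz γ = 1 := fun γ => by
    rw [hF, Set.Finite.mem_toFinset]
    rfl
  have hcard : (F.card : ℝ) ≤ (c / 12) ^ 2 * η * lam := by
    rw [hF, ← Set.ncard_eq_toFinset_card _ hfin]
    exact ht3
  have hS := sum_sq hcel hL0 t (2 * lam) (by positivity) F (fun γ hγ => (hFm γ).1 hγ)
  have e0 : t - 2 * lam = t + -(2 * lam) := by ring
  have e0' : t + 2 * lam + 1 / L = t + (2 * lam + 1 / L) := by ring
  rw [e0, e0'] at hS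
  have hSig0 : 0 ≤ ∑ γ ∈ F, ‖deriv riemannZeta (1 / 2 + γ * I)‖ :=
    Finset.sum_nonneg fun γ _ => norm_nonneg _
  have hI0 : 0 ≤ ∫ x in (t + -(2 * lam))..(t + (2 * lam + 1 / L)), GG6 L x :=
    intervalIntegral.integral_nonneg (by
      have : 0 < 1 / L := by positivity
      linarith) fun x _ => gg_nonneg hL0 x
  have hS2 : (∑ γ ∈ F, ‖deriv riemannZeta (1 / 2 + γ * I)‖) ^ 2 ≤
      (c / 12 * (lam * L ^ 2)) ^ 2 := by
    refine hS.trans ?_
    rw [← alg1 hη]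
    exact mul_le_mul hcard hc2.le hI0 (by positivity)
  have hS3 : ∑ γ ∈ F, ‖deriv riemannZeta (1 / 2 + γ * I)‖ ≤ c / 12 * (lam * L ^ 2) :=
    alg2 hSig0 (by positivity) hS2
  refine point hf hlam0 hH0 F (fun γ => ‖deriv riemannZeta (1 / 2 + γ * I)‖)
    (fun γ => norm_nonneg _) hS3 h8 ?_
  rintro x ⟨hx1, hx2⟩
  have hxT : T ≤ x := by linarith
  have hxT2 : x ≤ 2 * T := by linarith
  refine re_low (e1 x hxT hxT2) (e2 x hxT hxT2) (e3 x hxT hxT2 F fun γ hγ hmz => ?_)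
  rw [hFm]
  refine ⟨?_, hmz⟩
  have h9 : |γ - x| < lam := lt_of_lt_of_le hγ hH4
  have h10 : |x - t| ≤ lam := abs_le.2 ⟨by linarith, by linarith⟩
  have h11 := abs_sub_le γ x t
  linarith

/-- The centres in one part of `[T, 2 T]`. -/
theorem half (hdx : DX1Statement) (havg : AVGWStatement) (hbox : BOXStatement)
    (hcon : CONStatement) (hlft : LFTRStatement) (htls : TLS6Statement) (hetr : ETRStatement)
    (hcel : CELStatement) (hmom : MOM6Statement) :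
    RiemannHypothesis → ∃ c C T0 : ℝ, 0 < c ∧ 0 < C ∧ 10 < T0 ∧ ∀ T lam a b η : ℝ, T0 ≤ T →
      50 * Real.log T ≤ lam → lam ≤ T / 4 → T ≤ a - lam → b + lam ≤ 2 * T → 0 < η →
      volume {t : ℝ | a ≤ t ∧ t ≤ b ∧ ((zs t (2 * lam)).ncard : ℝ) ≤ c * η * lam} ≤
        ENNReal.ofReal (C * T * (Real.log T / lam + η)) := by
  intro hRH
  obtain ⟨A, B, D, hD⟩ := hdx hRH
  obtain ⟨C₁, T₁, hC₁, hT₁, h1⟩ := havg hRH A B D hD
  obtain ⟨T₂, h2⟩ := eventually_atTop.1 (hcon hRH A B)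
  obtain ⟨c, C₃, T₃, hc, hC₃, hT₃, h3⟩ := hlft A B
  obtain ⟨T₄, hT₄, h4⟩ := htls hRH
  obtain ⟨C₂, T₈, hC₂, hT₈, h8⟩ := hmom
  have hlog : Tendsto Real.log atTop atTop := Real.tendsto_log_atTop
  obtain ⟨T₅, h5⟩ := eventually_atTop.1 (hlog.eventually_ge_atTop (C₃ ^ 2 + 1))
  obtain ⟨T₆, h6⟩ := eventually_atTop.1 (hlog.eventually_ge_atTop (8 / c + 1))
  obtain ⟨T₇, hT₇, h7⟩ := H52.ev_large
  refine ⟨(c / 12) ^ 2, 8 * C₁ / c ^ 2 + 5 * C₂,
    max T₁ (max T₂ (max T₃ (max T₄ (max T₅ (max T₆ (max T₇ T₈)))))), by positivity, by positivity,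
    lt_max_of_lt_left hT₁, fun T lam a b η hT hl1 hl2 ha hb hη => ?_⟩
  have hTT₁ : T₁ ≤ T := (le_max_left _ _).trans hT
  have hr1 := (le_max_right _ _).trans hT
  have hTT₂ : T₂ ≤ T := (le_max_left _ _).trans hr1
  have hr2 := (le_max_right _ _).trans hr1
  have hTT₃ : T₃ ≤ T := (le_max_left _ _).trans hr2
  have hr3 := (le_max_right _ _).trans hr2
  have hTT₄ : T₄ ≤ T := (le_max_left _ _).trans hr3
  have hr4 := (le_max_right _ _).trans hr3
  have hTT₅ : T₅ ≤ T := (le_max_left _ _).trans hr4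
  have hr5 := (le_max_right _ _).trans hr4
  have hTT₆ : T₆ ≤ T := (le_max_left _ _).trans hr5
  have hr6 := (le_max_right _ _).trans hr5
  have hTT₇ : T₇ ≤ T := (le_max_left _ _).trans hr6
  have hTT₈ : T₈ ≤ T := (le_max_right _ _).trans hr6
  clear hr1 hr2 hr3 hr4 hr5 hr6 hT
  have hT10 : 10 < T := lt_of_lt_of_le hT₁ hTT₁
  have hT0 : 0 < T := by linarith
  obtain ⟨-, h72, -⟩ := h7 T hTT₇
  have h8T := h8 T hTT₈
  have hL5 : C₃ ^ 2 + 1 ≤ Real.log T := h5 T hTT₅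
  have hL6 : 8 / c + 1 ≤ Real.log T := h6 T hTT₆
  clear h5 h6 h7 h8 hTT₅ hTT₆ hTT₇ hTT₈ hlog
  have g1 := h1 T
  have g2 := h2 T hTT₂
  have g3 := fun x δ H => h3 T x δ H hTT₃
  have g4 := fun x δ H => h4 T x δ H hTT₄
  clear h1 h2 h3 h4
  obtain ⟨L, hLdef⟩ : ∃ L, L = Real.log T := ⟨_, rfl⟩
  rw [← hLdef] at h72 h8T hL5 hL6 g1 g2 g3 g4 hl1 ⊢
  have hL1 : 1 ≤ L := by nlinarith [sq_nonneg C₃]
  have hL0 : 0 < L := by linarith
  have hsqrt : C₃ ≤ Real.sqrt L := Real.le_sqrt_of_sq_le (by linarith)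
  have hsq1 : 1 ≤ Real.sqrt L := Real.one_le_sqrt.2 hL1
  have hsq2 : Real.sqrt L * Real.sqrt L = L := Real.mul_self_sqrt hL0.le
  have hlam50 : 50 ≤ lam := by linarith
  have hlam0 : 0 < lam := by linarith
  obtain ⟨H, hHdef⟩ : ∃ H, H = min (lam / (5 * Real.sqrt L)) (T / L) := ⟨_, rfl⟩
  have hH1 : 10 * Real.sqrt L ≤ H := by
    rw [hHdef]
    refine le_min ?_ h72
    rw [le_div_iff₀ (by positivity)]
    nlinarith
  have hH2 : H ≤ T / L := hHdef ▸ min_le_right _ _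
  have hH3 : H ≤ lam / (5 * Real.sqrt L) := hHdef ▸ min_le_left _ _
  have hH4 : 5 * Real.sqrt L * H ≤ lam := by
    have h8 := mul_le_mul_of_nonneg_left hH3 (by positivity : (0 : ℝ) ≤ 5 * Real.sqrt L)
    exact h8.trans (le_of_eq (alg5 (by linarith)))
  have hHl : H ≤ lam := hH3.trans (div_le_self hlam0.le (by linarith))
  have hHC : C₃ ≤ H := by linarith
  have hH10 : 10 ≤ H := by linarith
  have hH0 : 0 < H := by linarith
  clear hHdef hH3
  obtain ⟨δ, ⟨hδ1, hδ2⟩, hδ⟩ := g1 H lam hTT₁ hH1 hHl (by linarith)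
  have hδ0 : 0 < δ := lt_of_lt_of_le (by positivity) hδ1
  have hδh : δ ≤ 1 / 2 := by
    refine hδ2.trans ?_
    rw [div_le_div_iff₀ hT0 (by norm_num)]
    linarith
  have h9 := hbox A B δ H lam hδ0 hδh hH0 hlam0
  have hcont := H91C.se_cont hetr A B δ H hδ0 hδh hH0
  have hwc : Continuous (fun t : ℝ => ∫ x in (t - lam)..(t + lam), SE A B δ H x) := by
    have := win_cont hcont (-lam) lam
    simpa only [← sub_eq_add_neg] using this
  have hcHL : 8 ≤ c * H * L ^ 2 := alg6 hc hL6 (by linarith) hL1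
  have hm1p : 0 < lam * (c * H * L ^ 2) := by positivity
  -- the inclusion
  have hsub : {t : ℝ | a ≤ t ∧ t ≤ b ∧ ((zs t (2 * lam)).ncard : ℝ) ≤ (c / 12) ^ 2 * η * lam} ⊆
      {t : ℝ | lam * (c * H * L ^ 2) ≤ ‖∫ x in (t - lam)..(t + lam), SE A B δ H x‖} ∪
      {t : ℝ | T ≤ t ∧ t ≤ 2 * T ∧
        lam * L ^ 4 / η ≤ ∫ x in (t + -(2 * lam))..(t + (2 * lam + 1 / L)), GG6 L x} := by
    rintro t ⟨ht1, ht2, ht3⟩
    by_cases hc2 : lam * L ^ 4 / η ≤ ∫ x in (t + -(2 * lam))..(t + (2 * lam + 1 / L)), GG6 L x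
    · exact Or.inr ⟨by linarith, by linarith, hc2⟩
    push Not at hc2
    refine Or.inl ?_
    exact incl hcel hcont (I₀ := fun x => IL A B T δ H x) (R := fun x => SS T δ H x) hL0 hη hc
      hlam0 hH0 hcHL hH4 (by linarith) (by linarith)
      (fun x hx1 hx2 => g2 x δ H hx1 hx2 hδ1 hδ2 (by linarith) hH2)
      (fun x hx1 hx2 => g3 x δ H hx1 hx2 hδ1 hδ2 hHC hH2)
      (fun x hx1 hx2 F hF => g4 x δ H hx1 hx2 hδ1 hδ2 (by linarith) hH2 F hF) ht3 hc2
  -- the two measures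
  have hv1 : volume {t : ℝ | lam * (c * H * L ^ 2) ≤
      ‖∫ x in (t - lam)..(t + lam), SE A B δ H x‖} ≤
      ENNReal.ofReal (8 * C₁ / c ^ 2 * T * (L / lam)) := by
    have hB : ∫⁻ t : ℝ, ENNReal.ofReal (‖∫ x in (t - lam)..(t + lam), SE A B δ H x‖ ^ 2) ≤
        ENNReal.ofReal (8 * lam ^ 2 * H ^ 2 * (C₁ * T * L ^ 5 / lam)) := by
      refine h9.trans ?_
      rw [ENNReal.ofReal_mul (by positivity : 0 ≤ 8 * lam ^ 2 * H ^ 2)]
      exact mul_le_mul_right hδ _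
    exact (sq_mark hwc hm1p hB).trans
      (ENNReal.ofReal_le_ofReal (le_of_eq (alg3 hc hlam0 hL0 hH0)))
  have hv2 := mom_mark hL1 hT0 hlam50 hl2 hη hC₂ h8T
  refine (measure_mono hsub).trans ((measure_union_le _ _).trans ((add_le_add hv1 hv2).trans ?_))
  rw [← ENNReal.ofReal_add (by positivity) (by positivity)]
  refine ENNReal.ofReal_le_ofReal ?_
  have e1 : (8 * C₁ / c ^ 2 + 5 * C₂) * T * (L / lam + η) =
      8 * C₁ / c ^ 2 * T * (L / lam) + 5 * C₂ * T * η +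
        (8 * C₁ / c ^ 2 * T * η + 5 * C₂ * T * (L / lam)) := by ring
  rw [e1]
  have e2 : 0 ≤ 8 * C₁ / c ^ 2 * T * η + 5 * C₂ * T * (L / lam) := by positivity
  linarith

/-- CHB6. -/
theorem chb6 (hdx : DX1Statement) (havg : AVGWStatement) (hbox : BOXStatement)
    (hcon : CONStatement) (hlft : LFTRStatement) (htls : TLS6Statement) (hetr : ETRStatement)
    (hcel : CELStatement) (hmom : MOM6Statement) : CHB6Statement := by
  intro hRH
  obtain ⟨c, C, T0, hc, hC, hT0, h⟩ := half hdx havg hbox hcon hlft htls hetr hcel hmom hRH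
  refine ⟨c, 4 * C, 100, 2 * T0, hc, by positivity, by norm_num, by linarith,
    fun T lam η hT hl1 hl2 hη => ?_⟩
  have hTp : 0 < T := by linarith
  have hL1 : 1 ≤ Real.log T := by
    rw [← Real.log_exp 1]
    refine Real.log_le_log (Real.exp_pos _) ?_
    have := Real.exp_one_lt_d9
    linarith
  have hL0 : 0 < Real.log T := by linarith
  have hlam : 0 < lam := by linarith
  have l1 : Real.log (9 * T / 10) ≤ Real.log T := Real.log_le_log (by positivity) (by linarith)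
  have l2 : Real.log (6 * T / 5) ≤ 2 * Real.log T := by
    have h1 : 2 * Real.log T = Real.log (T ^ 2) := by rw [Real.log_pow]; norm_num
    rw [h1]
    refine Real.log_le_log (by positivity) ?_
    nlinarith
  have h1 := h (9 * T / 10) lam T (3 * T / 2) η (by linarith) (by linarith) (by linarith)
    (by linarith) (by linarith) hη
  have h2 := h (6 * T / 5) lam (3 * T / 2) (2 * T) η (by linarith) (by linarith) (by linarith)
    (by linarith) (by linarith) hη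
  have hsub : {t : ℝ | T ≤ t ∧ t ≤ 2 * T ∧
        (({γ : ℝ | |γ - t| < 2 * lam ∧ mz γ = 1}.ncard : ℕ) : ℝ) ≤ c * η * lam} ⊆
      {t : ℝ | T ≤ t ∧ t ≤ 3 * T / 2 ∧ ((zs t (2 * lam)).ncard : ℝ) ≤ c * η * lam} ∪
      {t : ℝ | 3 * T / 2 ≤ t ∧ t ≤ 2 * T ∧ ((zs t (2 * lam)).ncard : ℝ) ≤ c * η * lam} := by
    rintro t ⟨h3, h4, h5⟩
    rcases le_total t (3 * T / 2) with h6 | h6
    · exact Or.inl ⟨h3, h6, h5⟩
    · exact Or.inr ⟨h6, h4, h5⟩
  refine (measure_mono hsub).trans ((measure_union_le _ _).trans ((add_le_add h1 h2).trans ?_))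
  have l3 : 0 ≤ Real.log (9 * T / 10) := Real.log_nonneg (by linarith)
  have l4 : 0 ≤ Real.log (6 * T / 5) := Real.log_nonneg (by linarith)
  rw [← ENNReal.ofReal_add (by positivity) (by positivity)]
  refine ENNReal.ofReal_le_ofReal ?_
  have d1 : Real.log (9 * T / 10) / lam ≤ Real.log T / lam :=
    div_le_div_of_nonneg_right l1 hlam.le
  have d2 : Real.log (6 * T / 5) / lam ≤ 2 * (Real.log T / lam) := by
    rw [← mul_div_assoc]
    exact div_le_div_of_nonneg_right l2 hlam.le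
  set x := Real.log T / lam with hx
  have hx0 : 0 ≤ x := by positivity
  have h3 : C * (9 * T / 10) * (Real.log (9 * T / 10) / lam + η) ≤ C * (9 * T / 10) * (x + η) :=
    mul_le_mul_of_nonneg_left (by linarith) (by positivity)
  have h4 : C * (6 * T / 5) * (Real.log (6 * T / 5) / lam + η) ≤ C * (6 * T / 5) * (2 * x + η) :=
    mul_le_mul_of_nonneg_left (by linarith) (by positivity)
  have h5 : 0 ≤ C * T * x := by positivity
  have h6 : 0 ≤ C * T * η := by positivity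
  nlinarith

end Pool.Agent.Lib.MP_6bc78b_nt.GP.H91K
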