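import Pool.Agent.Lib.MP_6bc78b_nt.GP.H91.Chb7a
import Pool.Agent.Lib.MP_6bc78b_nt.GP.H62.Defs7

/-! Project GP7, module CHB7: the measure of the centres with few simple zeros within `2 lam`,
`(log log T)^K ≤ lam ≤ log T`. -/

set_option autoImplicit false

open Complex Filter Topology MeasureTheory ArithmeticFunction Set
open scoped ENNReal

namespace Pool.Agent.Lib.MP_6bc78b_nt.GP.H91L

open Pool.Agent.Lib.MP_6bc78b_nt Pool.Agent.Lib.MP_6bc78b_nt.MS Pool.Agent.Lib.MP_6bc78b_nt.MS.P1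
open Pool.Agent.Lib.MP_6bc78b_nt.GP.H91K Pool.Agent.Lib.MP_6bc78b_nt.GP.G7

/-- The measure of the centres with a large far integral. -/
theorem far_mark {G : Finset ℝ} {H rho T lam m S : ℝ} (hH : 0 < H) (hT0 : 0 ≤ T) (hlam : 0 < lam)
    (hm : 0 < m) (hS : ∑ γ ∈ G, ‖deriv riemannZeta (1 / 2 + γ * I)‖ ≤ S) :
    volume {t : ℝ | T ≤ t ∧ t ≤ 2 * T ∧ m ≤ ∫ x in (t + -lam)..(t + lam), far G H rho x} ≤
      ENNReal.ofReal ((2 * lam) * (Real.exp (-(3 / 8 * rho ^ 2)) * (S * (6 * H))) / m) := by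
  refine (win_mark (far_cont G H rho) (far_nonneg G H rho) (a := T - lam) (b := 2 * T + lam) hT0
    (by linarith) (by linarith) (by linarith) hm).trans (ENNReal.ofReal_le_ofReal ?_)
  refine div_le_div_of_nonneg_right ?_ hm.le
  have e1 : lam - -lam = 2 * lam := by ring
  rw [e1]
  refine mul_le_mul_of_nonneg_left ?_ (by positivity)
  refine (far_int G hH rho _ _ (by linarith)).trans ?_
  exact mul_le_mul_of_nonneg_left (mul_le_mul_of_nonneg_right hS (by positivity))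
    (Real.exp_pos _).le

theorem alg7 {c ε₀ lam L H T : ℝ} (hc : 0 < c) (hlam : 0 < lam) (hL : 0 < L) (hH : 0 < H) :
    8 * lam ^ 2 * H ^ 2 * (ε₀ * T * L ^ 4) / (lam * (c * H * L ^ 2)) ^ 2 = 8 * ε₀ / c ^ 2 * T := by
  field_simp

theorem alg8 {c C₄ lam L H T : ℝ} (hc : 0 < c) (hlam : 0 < lam) (hL : 0 < L) (hH : 0 < H) :
    (2 * lam) * ((L ^ 3)⁻¹ * ((C₄ * T * L ^ 3) * (6 * H))) / (1 / 4 * (lam * (c * H * L ^ 2))) =
      48 * C₄ / (c * L ^ 2) * T := by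
  field_simp
  ring

/-- The numbers. -/
theorem nums {L l lam C₃ : ℝ} (hl : l = Real.log L) (hL : 1 ≤ L) (h1 : 60 ≤ l) (h2 : C₃ ≤ l)
    (h3 : l ^ 2 ≤ lam) :
    1 ≤ Real.sqrt (8 * l) ∧ Real.sqrt l ≤ lam / Real.sqrt (8 * l) ∧
      C₃ ≤ lam / Real.sqrt (8 * l) ∧ 1 ≤ lam / Real.sqrt (8 * l) ∧
      lam / Real.sqrt (8 * l) ≤ lam ∧ 50 ≤ lam ∧
      Real.exp (-(3 / 8 * Real.sqrt (8 * l) ^ 2)) = (L ^ 3)⁻¹ := by
  have hl0 : 0 < l := by linarith
  have hs1 : 1 ≤ Real.sqrt (8 * l) := Real.one_le_sqrt.2 (by linarith)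
  have hs0 : 0 < Real.sqrt (8 * l) := by linarith
  have hsl : Real.sqrt (8 * l) ≤ l := by
    rw [← Real.sqrt_sq hl0.le]
    refine Real.sqrt_le_sqrt ?_
    rw [Real.sqrt_sq hl0.le]
    nlinarith
  have hlam : 3600 ≤ lam := by nlinarith
  have hH : l ≤ lam / Real.sqrt (8 * l) := by
    rw [le_div_iff₀ hs0]
    nlinarith
  refine ⟨hs1, ?_, h2.trans hH, by linarith, div_le_self (by linarith) hs1, by linarith, ?_⟩
  · refine le_trans ?_ hH
    rw [← Real.sqrt_sq hl0.le]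
    refine Real.sqrt_le_sqrt ?_
    rw [Real.sqrt_sq hl0.le]
    nlinarith
  · rw [Real.sq_sqrt (by linarith)]
    have e1 : -(3 / 8 * (8 * l)) = -Real.log (L ^ 3) := by
      rw [Real.log_pow, hl]
      push_cast
      ring
    rw [e1, Real.exp_neg, Real.exp_log (by positivity)]

theorem ineq1 {L T : ℝ} (h1 : 1 ≤ L) (h : L ^ 2 ≤ T / 20) :
    L ≤ T / L ∧ L ≤ T / 4 ∧ Real.sqrt L ≤ L ∧ L ≤ L ^ 2 := by
  have h2 : L ≤ L ^ 2 := by nlinarith
  refine ⟨?_, by nlinarith, ?_, h2⟩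
  · rw [le_div_iff₀ (by linarith)]
    nlinarith
  · refine Real.sqrt_le_iff.2 ⟨by linarith, h2⟩

theorem ineq2 {c C₄ ε L : ℝ} (hc : 0 < c) (hε : 0 < ε) (h1 : 1 ≤ L) (h2 : L ≤ L ^ 2)
    (h : 192 * C₄ / (c * ε) ≤ L) : 48 * C₄ / (c * L ^ 2) ≤ ε / 4 := by
  have hL : 0 < L := by linarith
  rw [div_le_iff₀ (by positivity)]
  rw [div_le_iff₀ (by positivity)] at h
  have k3 : L * (c * ε) ≤ L ^ 2 * (c * ε) := mul_le_mul_of_nonneg_right h2 (by positivity)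
  linarith

/-- The centres in one part of `[T, 2 T]`. -/
theorem half7 (hdx : DX1Statement) (havg : AVG7Statement) (hbox : BOXStatement)
    (hcon : CONStatement) (hlft : LFTRStatement) (htls : TLS6Statement) (hetr : ETRStatement)
    (hcel : CELStatement) (hmom : MOM6Statement) :
    RiemannHypothesis → ∀ ε : ℝ, 0 < ε → ∃ (c : ℝ) (K : ℕ) (T0 : ℝ), 0 < c ∧ 10 < T0 ∧
      ∀ T lam a b : ℝ, T0 ≤ T → Real.log (Real.log T) ^ K ≤ lam → lam ≤ Real.log T →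
      T ≤ a - lam → b + lam ≤ 2 * T →
      volume {t : ℝ | a ≤ t ∧ t ≤ b ∧ ((zs t (2 * lam)).ncard : ℝ) ≤ c * lam} ≤
        ENNReal.ofReal (ε * T) := by
  intro hRH ε hε
  obtain ⟨A, B, D, hD⟩ := hdx hRH
  obtain ⟨c, C₃, T₃, hc, hC₃, hT₃, h3⟩ := hlft A B
  obtain ⟨K, T₁, hT₁, h1⟩ := havg hRH A B D hD (ε * c ^ 2 / 32) (by positivity)
  obtain ⟨T₂, h2⟩ := eventually_atTop.1 (hcon hRH A B)
  obtain ⟨T₄, hT₄, h4⟩ := htls hRH
  obtain ⟨C₄, T₉, hC₄, hT₉, h9⟩ := sumd hcel hmom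
  obtain ⟨C₂, T₈, hC₂, hT₈, h8⟩ := hmom
  have hlog : Tendsto Real.log atTop atTop := Real.tendsto_log_atTop
  obtain ⟨T₅, h5⟩ := eventually_atTop.1 ((hlog.comp hlog).eventually_ge_atTop (C₃ + 60))
  obtain ⟨T₆, h6⟩ := eventually_atTop.1
    (hlog.eventually_ge_atTop (8 / c + 192 * C₄ / (c * ε) + 1))
  obtain ⟨T₇, h7⟩ := eventually_atTop.1 ((Real.isLittleO_pow_log_id_atTop (n := 2)).bound
    (c := 1 / 20) (by norm_num))
  obtain ⟨η, hη⟩ : ∃ η : ℝ, η = ε / (20 * C₂) := ⟨_, rfl⟩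
  have hη0 : 0 < η := by rw [hη]; positivity
  refine ⟨(c / 12) ^ 2 * η, K + 2,
    max T₁ (max T₂ (max T₃ (max T₄ (max T₅ (max T₆ (max T₇ (max T₈ T₉))))))), by positivity,
    lt_max_of_lt_left hT₁, fun T lam a b hT hl1 hl2 ha hb => ?_⟩
  have hTT₁ : T₁ ≤ T := (le_max_left _ _).trans hT
  have hr1 := (le_max_right _ _).trans hT
  have hTT₂ : T₂ ≤ T := (le_max_left _ _).trans hr1
  have hr2 := (le_max_right _ _).trans hr1
  have hTT₃ : T₃ ≤ T := (le_max_left _ _).trans hr2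
  have hr3 := (le_max_right _ _).trans hr2
  have hTT₄ : T₄ ≤ T := (le_max_left _ _).trans hr3
  have hr4 := (le_max_right _ _).trans hr3
  have hTT₅ : T₅ ≤ T := (le_max_left _ _).trans hr4
  have hr5 := (le_max_right _ _).trans hr4
  have hTT₆ : T₆ ≤ T := (le_max_left _ _).trans hr5
  have hr6 := (le_max_right _ _).trans hr5
  have hTT₇ : T₇ ≤ T := (le_max_left _ _).trans hr6
  have hr7 := (le_max_right _ _).trans hr6
  have hTT₈ : T₈ ≤ T := (le_max_left _ _).trans hr7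
  have hTT₉ : T₉ ≤ T := (le_max_right _ _).trans hr7
  clear hr1 hr2 hr3 hr4 hr5 hr6 hr7 hT
  have hT10 : 10 < T := lt_of_lt_of_le hT₁ hTT₁
  have hT0 : 0 < T := by linarith
  have h8T := h8 T hTT₈
  have hL5 : C₃ + 60 ≤ Real.log (Real.log T) := h5 T hTT₅
  have hL6 : 8 / c + 192 * C₄ / (c * ε) + 1 ≤ Real.log T := h6 T hTT₆
  have hL7 := h7 T hTT₇
  have g1 := h1 T
  have g2 := h2 T hTT₂
  have g3 := fun x δ H => h3 T x δ H hTT₃
  have g4 := fun x δ H => h4 T x δ H hTT₄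
  have g9 := h9 T hTT₉
  clear h1 h2 h3 h4 h5 h6 h7 h8 h9 hTT₅ hTT₆ hTT₇ hTT₈ hlog
  obtain ⟨L, hLdef⟩ : ∃ L, L = Real.log T := ⟨_, rfl⟩
  rw [← hLdef] at h8T hL5 hL6 hL7 g1 g2 g3 g4 g9 hl1 hl2
  have hc8 : 0 < 8 / c := by positivity
  have hc9 : 0 < 192 * C₄ / (c * ε) := by positivity
  have hL1 : 1 ≤ L := by linarith
  have hL0 : 0 < L := by linarith
  have hL7' : L ^ 2 ≤ T / 20 := by
    rw [Real.norm_of_nonneg (by positivity)] at hL7
    simp only [id, Real.norm_of_nonneg hT0.le] at hL7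
    linarith
  obtain ⟨l, hldef⟩ : ∃ l, l = Real.log L := ⟨_, rfl⟩
  rw [← hldef] at hL5 g1 hl1
  have hl60 : 60 ≤ l := by linarith
  have hl2' : l ^ 2 ≤ lam := by
    refine le_trans ?_ hl1
    exact pow_le_pow_right₀ (by linarith) (by omega)
  have hlK : l ^ K ≤ lam := by
    refine le_trans ?_ hl1
    exact pow_le_pow_right₀ (by linarith) (by omega)
  obtain ⟨hs1, hH1, hHC, hH10, hHl, hlam50, hexp⟩ := nums hldef hL1 hl60
    (by linarith : C₃ ≤ l) hl2'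
  obtain ⟨r, hr⟩ : ∃ r, r = Real.sqrt (8 * l) := ⟨_, rfl⟩
  rw [← hr] at hs1 hH1 hHC hH10 hHl hexp
  have hr0 : 0 < r := by linarith
  have hlam0 : 0 < lam := by linarith
  obtain ⟨H, hHdef⟩ : ∃ H, H = lam / r := ⟨_, rfl⟩
  rw [← hHdef] at hH1 hHC hH10 hHl
  have hrH : r * H = lam := by
    rw [hHdef]
    field_simp
  have hH0 : 0 < H := by linarith
  obtain ⟨hLT, hLT4, hsqL, hL2⟩ := ineq1 hL1 hL7'
  have hH2 : H ≤ T / L := by linarith
  obtain ⟨δ, ⟨hδ1, hδ2⟩, hδ⟩ := g1 H lam hTT₁ hlK hl2 hH1 hHl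
  have hδ0 : 0 < δ := lt_of_lt_of_le (by positivity) hδ1
  have hδh : δ ≤ 1 / 2 := by
    refine hδ2.trans ?_
    rw [div_le_div_iff₀ hT0 (by norm_num)]
    linarith
  have h9 := hbox A B δ H lam hδ0 hδh hH0 hlam0
  have hcont := H91C.se_cont hetr A B δ H hδ0 hδh hH0
  have hwc : Continuous (fun t : ℝ => ∫ x in (t - lam)..(t + lam), SE A B δ H x) := by
    have := win_cont hcont (-lam) lam
    simpa only [← sub_eq_add_neg] using this
  have hcHL : 8 ≤ c * H * L ^ 2 := alg6 hc (by linarith) hH10 hL1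
  have hm1p : 0 < lam * (c * H * L ^ 2) := by positivity
  obtain ⟨G, hG⟩ : ∃ G : Finset ℝ, G = (zs_fin (9 * T / 4) (7 * T / 4)).toFinset := ⟨_, rfl⟩
  have hGm : ∀ γ : ℝ, γ ∈ G ↔ |γ - 9 * T / 4| < 7 * T / 4 ∧ mz γ = 1 := fun γ => by
    rw [hG, Set.Finite.mem_toFinset]
    rfl
  have hGS := g9 G fun γ hγ => by
    have h1 := abs_lt.1 ((hGm γ).1 hγ).1
    exact ⟨by linarith [h1.1], by linarith [h1.2], ((hGm γ).1 hγ).2⟩
  -- the inclusion
  have hsub : {t : ℝ | a ≤ t ∧ t ≤ b ∧ ((zs t (2 * lam)).ncard : ℝ) ≤ (c / 12) ^ 2 * η * lam} ⊆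
      ({t : ℝ | lam * (c * H * L ^ 2) ≤ ‖∫ x in (t - lam)..(t + lam), SE A B δ H x‖} ∪
      {t : ℝ | T ≤ t ∧ t ≤ 2 * T ∧
        lam * L ^ 4 / η ≤ ∫ x in (t + -(2 * lam))..(t + (2 * lam + 1 / L)), GG6 L x}) ∪
      {t : ℝ | T ≤ t ∧ t ≤ 2 * T ∧
        1 / 4 * (lam * (c * H * L ^ 2)) ≤ ∫ x in (t + -lam)..(t + lam), far G H r x} := by
    rintro t ⟨ht1, ht2, ht3⟩
    by_cases hc3 : 1 / 4 * (lam * (c * H * L ^ 2)) ≤ ∫ x in (t + -lam)..(t + lam), far G H r x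
    · exact Or.inr ⟨by linarith, by linarith, hc3⟩
    refine Or.inl ?_
    by_cases hc2 : lam * L ^ 4 / η ≤ ∫ x in (t + -(2 * lam))..(t + (2 * lam + 1 / L)), GG6 L x
    · exact Or.inr ⟨by linarith, by linarith, hc2⟩
    push Not at hc2 hc3
    refine Or.inl ?_
    refine incl7 hcel hcont (far_cont G H r) (far_nonneg G H r) (I₀ := fun x => IL A B T δ H x)
      (R := fun x => SS T δ H x) hL0 hη0 hc
      hlam0 hH0 hcHL (by linarith) (by linarith)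
      (fun x hx1 hx2 => g2 x δ H hx1 hx2 hδ1 hδ2 hH10 hH2)
      (fun x hx1 hx2 => g3 x δ H hx1 hx2 hδ1 hδ2 hHC hH2)
      (fun x hx1 hx2 hx3 F hF => ?_) ht3 hc2 hc3.le
    have k1 := g4 x δ H hx1 hx2 hδ1 hδ2 hH10 hH2 (F ∪ G) (fun γ hγ hmz => by
      rw [Finset.mem_union]
      refine Or.inr ((hGm γ).2 ⟨?_, hmz⟩)
      have hb1 : 5 * Real.sqrt L * H ≤ 5 * L * L :=
        mul_le_mul (by linarith) (by linarith) hH0.le (by linarith)
      have hb0 : 5 * L * L = 5 * L ^ 2 := by ring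
      have hb2 : |γ - x| < T / 4 := by linarith
      have hb3 := abs_lt.1 hb2
      exact abs_lt.2 ⟨by linarith [hb3.1], by linarith [hb3.2]⟩)
    have k2 := split_far (t := t) (x := x) (rho := r) (r := 2 * lam) hH0 hr0.le F G
      (by rw [hrH]; linarith) (fun γ hγ h => hF γ h ((hGm γ).1 hγ).2)
    linarith
  -- the measures
  have hv1 : volume {t : ℝ | lam * (c * H * L ^ 2) ≤
      ‖∫ x in (t - lam)..(t + lam), SE A B δ H x‖} ≤
      ENNReal.ofReal (ε / 4 * T) := by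
    have hB : ∫⁻ t : ℝ, ENNReal.ofReal (‖∫ x in (t - lam)..(t + lam), SE A B δ H x‖ ^ 2) ≤
        ENNReal.ofReal (8 * lam ^ 2 * H ^ 2 * (ε * c ^ 2 / 32 * T * L ^ 4)) := by
      refine h9.trans ?_
      rw [ENNReal.ofReal_mul (by positivity : 0 ≤ 8 * lam ^ 2 * H ^ 2)]
      exact mul_le_mul_right hδ _
    refine (sq_mark hwc hm1p hB).trans (ENNReal.ofReal_le_ofReal (le_of_eq ?_))
    rw [alg7 hc hlam0 hL0 hH0]
    field_simp
    ring
  have hv2 := mom_mark hL1 hT0 hlam50 (by linarith : lam ≤ T / 4) hη0 hC₂ h8T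
  have e5 : 5 * C₂ * T * η = ε / 4 * T := by
    rw [hη]
    field_simp
    ring
  rw [e5] at hv2
  have hv3 := far_mark (G := G) (rho := r) (m := 1 / 4 * (lam * (c * H * L ^ 2))) hH0 hT0.le hlam0
    (by positivity) hGS
  rw [hexp, alg8 hc hlam0 hL0 hH0] at hv3
  have e6 : 48 * C₄ / (c * L ^ 2) * T ≤ ε / 4 * T := by
    exact mul_le_mul_of_nonneg_right (ineq2 hc hε hL1 hL2 (by linarith)) hT0.le
  have hv3' := hv3.trans (ENNReal.ofReal_le_ofReal e6)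
  refine (measure_mono hsub).trans ((measure_union_le _ _).trans
    ((add_le_add ((measure_union_le _ _).trans (add_le_add hv1 hv2)) hv3').trans ?_))
  rw [← ENNReal.ofReal_add (by positivity) (by positivity),
    ← ENNReal.ofReal_add (by positivity) (by positivity)]
  refine ENNReal.ofReal_le_ofReal ?_
  have k4 := mul_pos hε hT0
  have k5 : ε / 4 * T + ε / 4 * T + ε / 4 * T = 3 / 4 * (ε * T) := by ring
  rw [k5]
  linarith

end Pool.Agent.Lib.MP_6bc78b_nt.GP.H91L
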