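import Pool.Agent.Lib.MP_6bc78b_nt.GP.H91.Chb6
import Pool.Agent.Lib.MP_6bc78b_nt.GP.H30.Tls

/-! Project GP7, module CHB7, first part: one centre, the far zeros. -/

set_option autoImplicit false

open Complex Filter Topology MeasureTheory ArithmeticFunction Set
open scoped ENNReal

namespace Pool.Agent.Lib.MP_6bc78b_nt.GP.H91L

open Pool.Agent.Lib.MP_6bc78b_nt Pool.Agent.Lib.MP_6bc78b_nt.MS Pool.Agent.Lib.MP_6bc78b_nt.MS.P1
open Pool.Agent.Lib.MP_6bc78b_nt.GP.H91K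

/-- The majorant of the sum over the far zeros. -/
noncomputable def far (G : Finset ℝ) (H rho x : ℝ) : ℝ :=
  Real.exp (-(3 / 8 * rho ^ 2)) * ∑ γ ∈ G, ‖deriv riemannZeta (1 / 2 + γ * I)‖ *
    Real.exp (-((γ - x) ^ 2 / (2 * (2 * H) ^ 2)))

theorem far_nonneg (G : Finset ℝ) (H rho x : ℝ) : 0 ≤ far G H rho x :=
  mul_nonneg (Real.exp_pos _).le (Finset.sum_nonneg fun γ _ => by positivity)

theorem far_cont (G : Finset ℝ) (H rho : ℝ) : Continuous (far G H rho) := by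
  unfold far
  refine continuous_const.mul (continuous_finsetSum _ fun γ _ => ?_)
  fun_prop

theorem far_int (G : Finset ℝ) {H : ℝ} (hH : 0 < H) (rho p q : ℝ) (hpq : p ≤ q) :
    ∫ x in p..q, far G H rho x ≤
      Real.exp (-(3 / 8 * rho ^ 2)) * ((∑ γ ∈ G, ‖deriv riemannZeta (1 / 2 + γ * I)‖) * (6 * H)) := by
  unfold far
  rw [intervalIntegral.integral_const_mul]
  refine mul_le_mul_of_nonneg_left ?_ (Real.exp_pos _).le
  have hc : ∀ γ : ℝ, Continuous (fun x : ℝ => ‖deriv riemannZeta (1 / 2 + γ * I)‖ *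
      Real.exp (-((γ - x) ^ 2 / (2 * (2 * H) ^ 2)))) := fun γ => by fun_prop
  rw [intervalIntegral.integral_finsetSum fun γ _ => (hc γ).intervalIntegrable _ _,
    Finset.sum_mul]
  refine Finset.sum_le_sum fun γ _ => ?_
  rw [intervalIntegral.integral_const_mul]
  refine mul_le_mul_of_nonneg_left ?_ (norm_nonneg _)
  have h1 := gauss_le (by linarith : 0 < 2 * H) γ p q hpq
  linarith

/-- The sum over a finite set of simple zeros near `x`, from the near and the far ones. -/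
theorem split_far {H rho x r t : ℝ} (hH : 0 < H) (hrho : 0 ≤ rho) (F G : Finset ℝ)
    (hx : |x - t| + rho * H ≤ r) (hF : ∀ γ ∈ G, |γ - t| < r → γ ∈ F) :
    ∑ γ ∈ F ∪ G, ‖deriv riemannZeta (1 / 2 + γ * I)‖ * Real.exp (-((γ - x) ^ 2 / (2 * H ^ 2))) ≤
      ∑ γ ∈ F, ‖deriv riemannZeta (1 / 2 + γ * I)‖ * Real.exp (-((γ - x) ^ 2 / (2 * H ^ 2))) +
        far G H rho x := by
  rw [← Finset.union_sdiff_self_eq_union, Finset.sum_union Finset.disjoint_sdiff]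
  refine add_le_add le_rfl ?_
  unfold far
  rw [Finset.mul_sum]
  refine (Finset.sum_le_sum (g := fun γ : ℝ => Real.exp (-(3 / 8 * rho ^ 2)) *
    (‖deriv riemannZeta (1 / 2 + γ * I)‖ * Real.exp (-((γ - x) ^ 2 / (2 * (2 * H) ^ 2)))))
    fun γ hγ => ?_).trans
    (Finset.sum_le_sum_of_subset_of_nonneg Finset.sdiff_subset fun γ _ _ => by positivity)
  rw [Finset.mem_sdiff] at hγ
  have h1 : r ≤ |γ - t| := by
    by_contra h
    exact hγ.2 (hF γ hγ.1 (not_le.1 h))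
  have h2 : rho * H ≤ |γ - x| := by
    have := abs_sub_le γ x t
    linarith
  have h3 : (rho * H) ^ 2 ≤ (γ - x) ^ 2 := by
    rw [← sq_abs (γ - x)]
    exact pow_le_pow_left₀ (by positivity) h2 2
  have e1 : Real.exp (-(3 / 8 * rho ^ 2)) *
      (‖deriv riemannZeta (1 / 2 + γ * I)‖ * Real.exp (-((γ - x) ^ 2 / (2 * (2 * H) ^ 2)))) =
      ‖deriv riemannZeta (1 / 2 + γ * I)‖ *
        Real.exp (-(3 / 8 * rho ^ 2) + -((γ - x) ^ 2 / (2 * (2 * H) ^ 2))) := by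
    rw [Real.exp_add]
    ring
  rw [e1]
  refine mul_le_mul_of_nonneg_left (Real.exp_le_exp.2 ?_) (norm_nonneg _)
  have e2 : (γ - x) ^ 2 / (2 * H ^ 2) = (γ - x) ^ 2 / (2 * (2 * H) ^ 2) +
      3 / 8 * ((γ - x) ^ 2 / H ^ 2) := by
    field_simp
    ring
  have e3 : rho ^ 2 ≤ (γ - x) ^ 2 / H ^ 2 := by
    rw [le_div_iff₀ (by positivity)]
    calc rho ^ 2 * H ^ 2 = (rho * H) ^ 2 := by ring
      _ ≤ _ := h3
  rw [e2]
  linarith

/-- The lower bound for the window, from the pointwise bound. -/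
theorem point7 {f : ℝ → ℂ} (hf : Continuous f) {g : ℝ → ℝ} (hg : Continuous g)
    (hg0 : ∀ x, 0 ≤ g x) {t lam H c L : ℝ} (hl : 0 < lam) (hH : 0 < H)
    (F : Finset ℝ) (w : ℝ → ℝ) (hw : ∀ γ, 0 ≤ w γ)
    (hsum : ∑ γ ∈ F, w γ ≤ c / 12 * (lam * L ^ 2)) (h8 : 8 ≤ c * H * L ^ 2)
    (hgi : ∫ x in (t - lam)..(t + lam), g x ≤ 1 / 4 * (lam * (c * H * L ^ 2)))
    (h : ∀ x ∈ Icc (t - lam) (t + lam),
      (c * H * L ^ 2 - 2) - (∑ γ ∈ F, w γ * Real.exp (-((γ - x) ^ 2 / (2 * H ^ 2))) + g x) ≤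
        (f x).re) :
    lam * (c * H * L ^ 2) ≤ ‖∫ x in (t - lam)..(t + lam), f x‖ := by
  have hle : t - lam ≤ t + lam := by linarith
  have hgc : Continuous (fun x => (g x : ℂ)) := Complex.continuous_ofReal.comp hg
  have hfg : Continuous (fun x => f x + (g x : ℂ)) := hf.add hgc
  have h0 := avg_low6 hfg (m := c * H * L ^ 2 - 2) hl hH F w hw (fun x hx => by
    have := h x hx
    rw [Complex.add_re, Complex.ofReal_re]
    linarith)
  have h1 : (∫ x in (t - lam)..(t + lam), (f x + (g x : ℂ))) =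
      (∫ x in (t - lam)..(t + lam), f x) + ((∫ x in (t - lam)..(t + lam), g x : ℝ) : ℂ) := by
    rw [intervalIntegral.integral_add (hf.intervalIntegrable _ _)
      (hgc.intervalIntegrable _ _),
      intervalIntegral.integral_ofReal]
  rw [h1] at h0
  have h2 := norm_add_le (∫ x in (t - lam)..(t + lam), f x)
    ((∫ x in (t - lam)..(t + lam), g x : ℝ) : ℂ)
  have hS4 : 3 * H * ∑ γ ∈ F, w γ ≤ 3 * H * (c / 12 * (lam * L ^ 2)) :=
    mul_le_mul_of_nonneg_left hsum (by linarith)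
  have hS5 : 3 * H * (c / 12 * (lam * L ^ 2)) = 1 / 4 * (lam * (c * H * L ^ 2)) := by ring
  have hS6 : 8 * lam ≤ lam * (c * H * L ^ 2) := by
    rw [mul_comm 8 lam]
    exact mul_le_mul_of_nonneg_left h8 hl.le
  have hS7 : 2 * lam * (c * H * L ^ 2 - 2) = 2 * (lam * (c * H * L ^ 2)) - 4 * lam := by ring
  have hgi0 : 0 ≤ ∫ x in (t - lam)..(t + lam), g x :=
    intervalIntegral.integral_nonneg hle fun x _ => hg0 x
  rw [Complex.norm_real, Real.norm_of_nonneg hgi0] at h2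
  rw [hS7] at h0
  linarith

/-- The sum of the derivatives at the simple zeros. -/
theorem sumd (hcel : CELStatement) (hmom : MOM6Statement) : ∃ C T0 : ℝ, 0 < C ∧ 10 < T0 ∧
    ∀ T : ℝ, T0 ≤ T → ∀ F : Finset ℝ, (∀ γ ∈ F, T / 2 < γ ∧ γ < 4 * T ∧ mz γ = 1) →
      ∑ γ ∈ F, ‖deriv riemannZeta (1 / 2 + γ * I)‖ ≤ C * T * Real.log T ^ 3 := by
  obtain ⟨T₁, hT₁, h1⟩ := H30.zeros_count
  obtain ⟨C₂, T₂, hC₂, hT₂, h2⟩ := hmom
  have hch : 0 < Real.cosh (Real.pi / 2) := Real.cosh_pos _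
  refine ⟨1 + 10 * Real.cosh (Real.pi / 2) * C₂, max T₁ T₂, by positivity,
    lt_max_of_lt_left hT₁, fun T hT F hF => ?_⟩
  have hTT₁ : T₁ ≤ T := (le_max_left _ _).trans hT
  have hTT₂ : T₂ ≤ T := (le_max_right _ _).trans hT
  have hT10 : 10 < T := lt_of_lt_of_le hT₁ hTT₁
  have hT0 : 0 < T := by linarith
  have g1 := h1 T hTT₁ F fun γ hγ => ⟨(hF γ hγ).1, (hF γ hγ).2.1⟩
  have g2 := h2 T hTT₂
  obtain ⟨L, hLdef⟩ : ∃ L, L = Real.log T := ⟨_, rfl⟩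
  rw [← hLdef] at g2 ⊢
  have hL1 : 1 ≤ L := by
    rw [hLdef, ← Real.log_exp 1]
    refine Real.log_le_log (Real.exp_pos _) ?_
    have := Real.exp_one_lt_d9
    linarith
  have hL0 : 0 < L := by linarith
  have hlog : Real.log (4 * T + 1) ≤ 2 * L := by
    rw [hLdef]
    have e : 2 * Real.log T = Real.log (T ^ 2) := by rw [Real.log_pow]; norm_num
    rw [e]
    exact Real.log_le_log (by linarith) (by nlinarith)
  have hcard : (F.card : ℝ) ≤ 10 * Real.cosh (Real.pi / 2) * (T * L) := by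
    have e1 : (F.card : ℝ) = ∑ γ ∈ F, (zeroMult γ : ℝ) := by
      rw [Finset.card_eq_sum_ones, Nat.cast_sum]
      refine Finset.sum_congr rfl fun γ hγ => ?_
      rw [← MS.P4.H30.mz_eq, (hF γ hγ).2.2]
    rw [e1]
    refine g1.trans ?_
    have e2 : 4 * T + 2 ≤ 5 * T := by linarith
    have e3 : 0 ≤ Real.log (4 * T + 1) := Real.log_nonneg (by linarith)
    calc (4 * T + 2) * (Real.cosh (Real.pi / 2) * Real.log (4 * T + 1)) ≤
        (5 * T) * (Real.cosh (Real.pi / 2) * (2 * L)) :=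
          mul_le_mul e2 (mul_le_mul_of_nonneg_left hlog hch.le) (by positivity) (by positivity)
      _ = _ := by ring
  have hS := sum_sq hcel hL0 (9 * T / 4) (7 * T / 4) (by positivity) F (fun γ hγ =>
    ⟨abs_lt.2 ⟨by linarith [(hF γ hγ).1], by linarith [(hF γ hγ).2.1]⟩, (hF γ hγ).2.2⟩)
  have hiL0 : 0 < 1 / L := by positivity
  have hiL : 1 / L ≤ 1 := by
    rw [div_le_one hL0]
    exact hL1
  have hmono : ∫ x in (9 * T / 4 - 7 * T / 4)..(9 * T / 4 + 7 * T / 4 + 1 / L), GG6 L x ≤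
      C₂ * T * L ^ 4 := by
    refine le_trans ?_ g2
    refine intervalIntegral.integral_mono_interval (by linarith) (by linarith) (by linarith)
      (Filter.Eventually.of_forall fun x => gg_nonneg hL0 x)
      ((gg_cont L).intervalIntegrable _ _)
  have hI0 : 0 ≤ ∫ x in (9 * T / 4 - 7 * T / 4)..(9 * T / 4 + 7 * T / 4 + 1 / L), GG6 L x :=
    intervalIntegral.integral_nonneg (by linarith) fun x _ => gg_nonneg hL0 x
  refine alg2 (Finset.sum_nonneg fun γ _ => norm_nonneg _) (by positivity) (hS.trans ?_)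
  obtain ⟨ch, hchd⟩ : ∃ ch, ch = Real.cosh (Real.pi / 2) := ⟨_, rfl⟩
  rw [← hchd] at hcard hch ⊢
  calc (F.card : ℝ) * ∫ x in (9 * T / 4 - 7 * T / 4)..(9 * T / 4 + 7 * T / 4 + 1 / L), GG6 L x ≤
      (10 * ch * (T * L)) * (C₂ * T * L ^ 4) := mul_le_mul hcard hmono hI0 (by positivity)
    _ = (10 * ch * C₂) * (T ^ 2 * L ^ 5) := by ring
    _ ≤ (1 + 10 * ch * C₂) ^ 2 * (T ^ 2 * L ^ 6) := by
        refine mul_le_mul ?_ ?_ (by positivity) (by positivity)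
        · have : 0 < 10 * ch * C₂ := by positivity
          nlinarith
        · exact mul_le_mul_of_nonneg_left (pow_le_pow_right₀ hL1 (by norm_num)) (by positivity)
    _ = ((1 + 10 * ch * C₂) * T * L ^ 3) ^ 2 := by ring

/-- One centre: few simple zeros near it, a small local moment and a small far integral give a
large window. -/
theorem incl7 (hcel : CELStatement) {f : ℝ → ℂ} (hf : Continuous f) {g : ℝ → ℝ}
    (hg : Continuous g) (hg0 : ∀ x, 0 ≤ g x) {t T lam H c L η : ℝ} {I₀ R : ℝ → ℂ}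
    (hL0 : 0 < L) (hη : 0 < η) (hc : 0 < c) (hlam0 : 0 < lam) (hH0 : 0 < H)
    (h8 : 8 ≤ c * H * L ^ 2) (ht1 : T ≤ t - lam) (ht2 : t + lam ≤ 2 * T)
    (e1 : ∀ x : ℝ, T ≤ x → x ≤ 2 * T → ‖f x - I₀ x - R x‖ ≤ 1)
    (e2 : ∀ x : ℝ, T ≤ x → x ≤ 2 * T → c * H * L ^ 2 ≤ (I₀ x).re)
    (e3 : ∀ x : ℝ, T ≤ x → x ≤ 2 * T → |x - t| ≤ lam → ∀ F : Finset ℝ,
      (∀ γ : ℝ, |γ - t| < 2 * lam → mz γ = 1 → γ ∈ F) →
      ‖R x‖ ≤ 1 + (∑ γ ∈ F, ‖deriv riemannZeta (1 / 2 + γ * I)‖ *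
        Real.exp (-((γ - x) ^ 2 / (2 * H ^ 2))) + g x))
    (ht3 : ((zs t (2 * lam)).ncard : ℝ) ≤ (c / 12) ^ 2 * η * lam)
    (hc2 : ∫ x in (t + -(2 * lam))..(t + (2 * lam + 1 / L)), GG6 L x < lam * L ^ 4 / η)
    (hc3 : ∫ x in (t - lam)..(t + lam), g x ≤ 1 / 4 * (lam * (c * H * L ^ 2))) :
    lam * (c * H * L ^ 2) ≤ ‖∫ x in (t - lam)..(t + lam), f x‖ := by
  have hfin := zs_fin t (2 * lam)
  obtain ⟨F, hF⟩ : ∃ F : Finset ℝ, F = hfin.toFinset := ⟨_, rfl⟩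
  have hFm : ∀ γ : ℝ, γ ∈ F ↔ |γ - t| < 2 * lam ∧ mz γ = 1 := fun γ => by
    rw [hF, Set.Finite.mem_toFinset]
    rfl
  have hcard : (F.card : ℝ) ≤ (c / 12) ^ 2 * η * lam := by
    rw [hF, ← Set.ncard_eq_toFinset_card _ hfin]
    exact ht3
  have hS := sum_sq hcel hL0 t (2 * lam) (by positivity) F (fun γ hγ => (hFm γ).1 hγ)
  have e0 : t - 2 * lam = t + -(2 * lam) := by ring
  have e0' : t + 2 * lam + 1 / L = t + (2 * lam + 1 / L) := by ring
  rw [e0, e0'] at hS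
  have hSig0 : 0 ≤ ∑ γ ∈ F, ‖deriv riemannZeta (1 / 2 + γ * I)‖ :=
    Finset.sum_nonneg fun γ _ => norm_nonneg _
  have hI0 : 0 ≤ ∫ x in (t + -(2 * lam))..(t + (2 * lam + 1 / L)), GG6 L x :=
    intervalIntegral.integral_nonneg (by
      have : 0 < 1 / L := by positivity
      linarith) fun x _ => gg_nonneg hL0 x
  have hS2 : (∑ γ ∈ F, ‖deriv riemannZeta (1 / 2 + γ * I)‖) ^ 2 ≤
      (c / 12 * (lam * L ^ 2)) ^ 2 := by
    refine hS.trans ?_
    rw [← alg1 hη]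
    exact mul_le_mul hcard hc2.le hI0 (by positivity)
  have hS3 : ∑ γ ∈ F, ‖deriv riemannZeta (1 / 2 + γ * I)‖ ≤ c / 12 * (lam * L ^ 2) :=
    alg2 hSig0 (by positivity) hS2
  refine point7 hf hg hg0 hlam0 hH0 F (fun γ => ‖deriv riemannZeta (1 / 2 + γ * I)‖)
    (fun γ => norm_nonneg _) hS3 h8 hc3 ?_
  rintro x ⟨hx1, hx2⟩
  have hxT : T ≤ x := by linarith
  have hxT2 : x ≤ 2 * T := by linarith
  have h10 : |x - t| ≤ lam := abs_le.2 ⟨by linarith, by linarith⟩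
  exact re_low (e1 x hxT hxT2) (e2 x hxT hxT2) (e3 x hxT hxT2 h10 F fun γ hγ hmz =>
    (hFm γ).2 ⟨hγ, hmz⟩)

end Pool.Agent.Lib.MP_6bc78b_nt.GP.H91L
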