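import Pool.Agent.Lib.MP_6bc78b_nt.GP.H91.PieceB

/-! Project GP10 (MP_6bc78b_nt): the whole frequency side of finding 5600 (low part, pieces, tail)
in one inequality. Generic form. -/

set_option autoImplicit false

open Complex Filter Topology MeasureTheory ArithmeticFunction Set
open scoped ENNReal

namespace Pool.Agent.Lib.MP_6bc78b_nt.GP.H91

open Pool.Agent.Lib.MP_6bc78b_nt.MS Pool.Agent.Lib.MP_6bc78b_nt.MS.P1
open Pool.Agent.Lib.MP_6bc78b_nt.GP Pool.Agent.Lib.MP_6bc78b_nt.GP.G7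

/-- `∫ f(u) e^{iut} du`. -/
noncomputable def RR (f : ℝ → ℂ) (t : ℝ) : ℂ := ∫ u : ℝ, f u * Complex.exp (u * t * I)

lemma RR_cont {f : ℝ → ℂ} (hf : Integrable f) : Continuous (RR f) := by
  unfold RR
  refine continuous_of_dominated (F := fun t u : ℝ => f u * Complex.exp (u * t * I))
    (bound := fun u => ‖f u‖) ?_ ?_ hf.norm ?_
  · intro t
    exact hf.aestronglyMeasurable.mul
      (Continuous.aestronglyMeasurable (by fun_prop))
  · intro t
    refine Filter.Eventually.of_forall fun x => ?_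
    rw [norm_mul, norm_exp_I2, mul_one]
  · refine Filter.Eventually.of_forall fun x => ?_
    fun_prop

lemma int_mulexp {f : ℝ → ℂ} (hf : Integrable f) (t : ℝ) :
    Integrable (fun u : ℝ => f u * Complex.exp (u * t * I)) := by
  refine hf.norm.mono' (hf.aestronglyMeasurable.mul
      (Continuous.aestronglyMeasurable (by fun_prop))) ?_
  refine Filter.Eventually.of_forall fun x => ?_
  rw [norm_mul, norm_exp_I2, mul_one]

lemma RR_add {f g : ℝ → ℂ} (hf : Integrable f) (hg : Integrable g) (t : ℝ) :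
    RR (fun u => f u + g u) t = RR f t + RR g t := by
  unfold RR
  rw [← integral_add (int_mulexp hf t) (int_mulexp hg t)]
  apply integral_congr_ae
  refine Filter.Eventually.of_forall fun u => ?_
  ring

lemma RR_sum {f : ℕ → ℝ → ℂ} {N : ℕ} (hf : ∀ k < N, Integrable (f k)) (t : ℝ) :
    RR (fun u => ∑ k ∈ Finset.range N, f k u) t = ∑ k ∈ Finset.range N, RR (f k) t := by
  unfold RR
  rw [← integral_finsetSum]
  · apply integral_congr_ae
    refine Filter.Eventually.of_forall fun u => ?_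
    simp only [Finset.sum_mul]
  · intro k hk
    exact int_mulexp (hf k (Finset.mem_range.1 hk)) t

/-- Mean square to mean. -/
lemma l1_of_l2 {f : ℝ → ℂ} (hf : Measurable f) (c T : ℝ) :
    ∫⁻ t in Icc c (c + T), ‖f t‖ₑ ≤
      ENNReal.ofReal T ^ (1 / 2 : ℝ) * (∫⁻ t : ℝ, ‖f t‖ₑ ^ 2) ^ (1 / 2 : ℝ) := by
  have h := ENNReal.lintegral_mul_le_Lp_mul_Lq (volume.restrict (Icc c (c + T)))
    (Real.HolderConjugate.two_two) (f := fun _ => (1 : ℝ≥0∞)) (g := fun t => ‖f t‖ₑ)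
    aemeasurable_const (hf.enorm.aemeasurable)
  simp only [Pi.mul_apply, one_mul] at h
  refine h.trans ?_
  refine mul_le_mul' (ENNReal.rpow_le_rpow ?_ (by norm_num))
    (ENNReal.rpow_le_rpow ?_ (by norm_num))
  · simp only [ENNReal.one_rpow, lintegral_const, one_mul, Measure.restrict_apply MeasurableSet.univ,
      univ_inter, Real.volume_Icc]
    rw [add_sub_cancel_left]
  · refine le_trans (le_of_eq ?_) (setLIntegral_le_lintegral (Icc c (c + T)) _)
    apply lintegral_congr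
    intro t
    norm_num

/-- A part of the frequencies, by Plancherel. -/
lemma part_l2 (hP : PLCStatement) {f : ℝ → ℂ} (hf : Integrable f) {A : Set ℝ}
    (hA : MeasurableSet A) (hz : ∀ u, u ∉ A → f u = 0) {E : ℝ} (hE0 : 0 ≤ E)
    (hE : ∫⁻ u in A, ‖f u‖ₑ ^ 2 ≤ ENNReal.ofReal E) {T : ℝ} (hT : 0 ≤ T) (c : ℝ) :
    ∫⁻ t in Icc c (c + T), ‖RR f t‖ₑ ≤ ENNReal.ofReal (Real.sqrt (2 * Real.pi * T * E)) := by
  have h1 := l1_of_l2 (RR_cont hf).measurable c T
  have h2 : ∫⁻ t : ℝ, ‖RR f t‖ₑ ^ 2 ≤ ENNReal.ofReal (2 * Real.pi * E) := by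
    have h := hP f hf
    have e2 : ∀ t : ℝ, ‖RR f t‖ₑ ^ 2 =
        ENNReal.ofReal (‖∫ w : ℝ, f w * Complex.exp (t * w * I)‖ ^ 2) := by
      intro t
      rw [ENNReal.ofReal_pow (norm_nonneg _), ofReal_norm]
      unfold RR
      congr 2
      apply integral_congr_ae
      refine Filter.Eventually.of_forall fun u => ?_
      simp only [mul_comm (u : ℂ) (t : ℂ)]
    simp only [e2]
    refine h.trans ?_
    rw [ENNReal.ofReal_mul (p := 2 * Real.pi) (q := E) (by positivity)]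
    refine mul_le_mul_right (le_trans (le_of_eq ?_) hE) _
    rw [← lintegral_indicator hA]
    apply lintegral_congr
    intro u
    by_cases hu : u ∈ A
    · rw [Set.indicator_of_mem hu, ENNReal.ofReal_pow (norm_nonneg _), ofReal_norm]
    · rw [Set.indicator_of_notMem hu, hz u hu]
      simp
  refine h1.trans ?_
  have h3 := ENNReal.rpow_le_rpow h2 (by norm_num : (0 : ℝ) ≤ 1 / 2)
  refine (mul_le_mul_right h3 _).trans (le_of_eq ?_)
  rw [← ENNReal.mul_rpow_of_nonneg _ _ (by norm_num : (0 : ℝ) ≤ 1 / 2),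
    ← ENNReal.ofReal_mul hT, ENNReal.ofReal_rpow_of_nonneg (by positivity) (by norm_num),
    ← Real.sqrt_eq_rpow]
  congr 2
  ring

/-- **The frequency side.** -/
theorem core (hM : MVTXStatement) (hP : PLCStatement) : ∃ C : ℝ, 0 < C ∧
    ∀ (χ : ℝ → ℝ) (wh F : ℝ → ℂ) (T c : ℝ) (N : ℕ) (j : ℕ → ℝ) (S : ℕ → Finset ℕ)
      (g φ : ℕ → ℝ → ℂ) (m E a b : ℕ → ℝ) (El Et : ℝ),
    Continuous χ → (∀ u, 0 ≤ χ u) → (∀ u, χ u ≤ 1) → (∀ u, 1 ≤ |u| → χ u = 0) →
    (∀ u, |u| ≤ 1 / 2 → χ u = 1) →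
    Continuous wh → Continuous F → Integrable (fun u => wh u * F u) → 1 ≤ T →
    (∀ k, 0 < j k) → (∀ k, j k ≤ j (k + 1)) →
    (∀ k < N, ∀ q ∈ S k, 1 ≤ q ∧ (q : ℝ) ≤ T ∧ a k + j (k + 1) ≤ Real.log q ∧
      Real.log q + j (k + 1) ≤ b k) →
    (∀ k < N, 0 < ∑ q ∈ S k, 1 / (q : ℝ)) →
    (∀ k < N, Continuous (g k)) →
    (∀ k < N, ∀ u, F u = ((1 / ∑ q ∈ S k, 1 / (q : ℝ) : ℝ) : ℂ) *
      ∑ q ∈ S k, (((q : ℝ) ^ (-(1 / 2) : ℝ) : ℝ) : ℂ) * g k (u + Real.log q)) →
    (∀ k < N, Integrable (φ k)) → (∀ k < N, ∫ x, ‖φ k x‖ ≤ m k) →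
    (∀ k < N, ∀ u, FT (φ k) u = wh u * ((χ (u / j (k + 1)) - χ (u / j k) : ℝ) : ℂ)) →
    (∀ k < N, 0 ≤ E k) →
    (∀ k < N, ∫⁻ v in Icc (a k) (b k), ‖g k v‖ₑ ^ 2 ≤ ENNReal.ofReal (E k)) →
    0 ≤ El → 0 ≤ Et →
    ∫⁻ u in {u : ℝ | |u| ≤ j 0}, ‖wh u * F u‖ₑ ^ 2 ≤ ENNReal.ofReal El →
    ∫⁻ u in {u : ℝ | j N / 2 ≤ |u|}, ‖wh u * F u‖ₑ ^ 2 ≤ ENNReal.ofReal Et →
    ∫⁻ t in Icc c (c + T), ‖∫ u : ℝ, wh u * F u * Complex.exp (u * t * I)‖ₑ ≤
      ENNReal.ofReal (Real.sqrt (2 * Real.pi * T * El) + Real.sqrt (2 * Real.pi * T * Et) +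
        ∑ k ∈ Finset.range N, C * m k * Real.sqrt (T * E k / ∑ q ∈ S k, 1 / (q : ℝ))) := by
  obtain ⟨C, hC, hpb⟩ := piece_bound hM hP
  refine ⟨C, hC, ?_⟩
  intro χ wh F T c N j S g φ m E a b El Et hχ hχ0 hχ1 hχz hχo hwh hF hint hT hj hjm hS hW hg hFg
    hφ hm hFT hE0 hE hEl0 hEt0 hEl hEt
  have hT0 : 0 < T := by linarith
  -- the pieces
  set G : ℝ → ℂ := fun u => wh u * F u with hG
  have hbd : ∀ w : ℝ → ℝ, Continuous w → (∀ u, |w u| ≤ 1) →
      Integrable (fun u => G u * ((w u : ℝ) : ℂ)) := by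
    intro w hw hw1
    refine hint.norm.mono' (hint.aestronglyMeasurable.mul
      (Continuous.aestronglyMeasurable (by fun_prop))) ?_
    refine Filter.Eventually.of_forall fun u => ?_
    rw [norm_mul, Complex.norm_real, Real.norm_eq_abs]
    nlinarith [hw1 u, norm_nonneg (G u), abs_nonneg (w u)]
  have hcj : ∀ k, Continuous (fun u : ℝ => χ (u / j k)) := fun k => by fun_prop
  have hlow : Integrable (fun u => G u * ((χ (u / j 0) : ℝ) : ℂ)) :=
    hbd _ (hcj 0) (fun u => by rw [abs_le]; constructor <;> linarith [hχ0 (u / j 0), hχ1 (u / j 0)])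
  have htail : Integrable (fun u => G u * ((1 - χ (u / j N) : ℝ) : ℂ)) :=
    hbd _ (continuous_const.sub (hcj N))
      (fun u => by rw [abs_le]; constructor <;> linarith [hχ0 (u / j N), hχ1 (u / j N)])
  have hpc : ∀ k, Integrable (fun u => G u * ((χ (u / j (k + 1)) - χ (u / j k) : ℝ) : ℂ)) :=
    fun k => hbd _ ((hcj (k + 1)).sub (hcj k))
      (fun u => by
        rw [abs_le]
        constructor <;> linarith [hχ0 (u / j k), hχ1 (u / j k), hχ0 (u / j (k + 1)),
          hχ1 (u / j (k + 1))])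
  have hdec : ∀ t : ℝ, ∫ u : ℝ, wh u * F u * Complex.exp (u * t * I) =
      RR (fun u => G u * ((χ (u / j 0) : ℝ) : ℂ)) t +
      (∑ k ∈ Finset.range N, RR (fun u => G u * ((χ (u / j (k + 1)) - χ (u / j k) : ℝ) : ℂ)) t) +
      RR (fun u => G u * ((1 - χ (u / j N) : ℝ) : ℂ)) t := by
    intro t
    rw [← RR_sum (fun k _ => hpc k) t]
    have hs : Integrable (fun u => ∑ k ∈ Finset.range N,
        G u * ((χ (u / j (k + 1)) - χ (u / j k) : ℝ) : ℂ)) :=
      integrable_finsetSum _ (fun k _ => hpc k)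
    have hls : Integrable (fun u => G u * ((χ (u / j 0) : ℝ) : ℂ) + ∑ k ∈ Finset.range N,
        G u * ((χ (u / j (k + 1)) - χ (u / j k) : ℝ) : ℂ)) := hlow.add hs
    rw [← RR_add hlow hs t, ← RR_add hls htail t]
    unfold RR
    apply integral_congr_ae
    refine Filter.Eventually.of_forall fun u => ?_
    have e3 : ∑ k ∈ Finset.range N, G u * ((χ (u / j (k + 1)) - χ (u / j k) : ℝ) : ℂ) =
        G u * ((χ (u / j N) - χ (u / j 0) : ℝ) : ℂ) := by
      rw [← Finset.mul_sum, ← Complex.ofReal_sum,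
        Finset.sum_range_sub (fun k => χ (u / j k)) N]
    simp only [e3]
    simp only [hG]
    push_cast
    ring
  have hjpos : ∀ k (u : ℝ), |u / j k| = |u| / j k := fun k u => by
    rw [abs_div, abs_of_pos (hj k)]
  -- low part
  have b1 : ∫⁻ t in Icc c (c + T), ‖RR (fun u => G u * ((χ (u / j 0) : ℝ) : ℂ)) t‖ₑ ≤
      ENNReal.ofReal (Real.sqrt (2 * Real.pi * T * El)) := by
    have hmA : MeasurableSet {u : ℝ | |u| ≤ j 0} := measurableSet_le (by fun_prop) (by fun_prop)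
    refine part_l2 hP hlow hmA ?_ hEl0 ?_ hT0.le c
    · intro u hu
      rw [Set.mem_ofPred_eq, not_le] at hu
      rw [hχz (u / j 0) (by rw [hjpos, le_div_iff₀ (hj 0)]; linarith)]
      simp
    · refine le_trans (lintegral_mono fun u => ?_) hEl
      rw [enorm_mul]
      have : ‖((χ (u / j 0) : ℝ) : ℂ)‖ₑ ≤ 1 := by
        rw [← ofReal_norm, Complex.norm_real, Real.norm_eq_abs, abs_of_nonneg (hχ0 _)]
        exact ENNReal.ofReal_le_one.2 (hχ1 _)
      calc (‖G u‖ₑ * ‖((χ (u / j 0) : ℝ) : ℂ)‖ₑ) ^ 2 ≤ (‖G u‖ₑ * 1) ^ 2 := by gcongr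
        _ = ‖wh u * F u‖ₑ ^ 2 := by rw [mul_one]
  -- tail
  have b2 : ∫⁻ t in Icc c (c + T), ‖RR (fun u => G u * ((1 - χ (u / j N) : ℝ) : ℂ)) t‖ₑ ≤
      ENNReal.ofReal (Real.sqrt (2 * Real.pi * T * Et)) := by
    have hmA : MeasurableSet {u : ℝ | j N / 2 ≤ |u|} :=
      measurableSet_le (by fun_prop) (by fun_prop)
    refine part_l2 hP htail hmA ?_ hEt0 ?_ hT0.le c
    · intro u hu
      rw [Set.mem_ofPred_eq, not_le] at hu
      rw [hχo (u / j N) (by rw [hjpos, div_le_iff₀ (hj N)]; linarith)]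
      simp
    · refine le_trans (lintegral_mono fun u => ?_) hEt
      rw [enorm_mul]
      have : ‖((1 - χ (u / j N) : ℝ) : ℂ)‖ₑ ≤ 1 := by
        rw [← ofReal_norm, Complex.norm_real, Real.norm_eq_abs,
          abs_of_nonneg (by linarith [hχ1 (u / j N)])]
        exact ENNReal.ofReal_le_one.2 (by linarith [hχ0 (u / j N)])
      calc (‖G u‖ₑ * ‖((1 - χ (u / j N) : ℝ) : ℂ)‖ₑ) ^ 2 ≤ (‖G u‖ₑ * 1) ^ 2 := by gcongr
        _ = ‖wh u * F u‖ₑ ^ 2 := by rw [mul_one]
  -- one piece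
  have b3 : ∀ k < N, ∫⁻ t in Icc c (c + T),
      ‖RR (fun u => G u * ((χ (u / j (k + 1)) - χ (u / j k) : ℝ) : ℂ)) t‖ₑ ≤
      ENNReal.ofReal (C * m k * Real.sqrt (T * E k / ∑ q ∈ S k, 1 / (q : ℝ))) := by
    intro k hk
    set W : ℝ := ∑ q ∈ S k, 1 / (q : ℝ) with hWd
    have hWp : 0 < W := hW k hk
    have hpb' := hpb (S k) T c (φ k) (g k) (a k) (b k) (ENNReal.ofReal (E k)) hT
      (fun q hq => ⟨(hS k hk q hq).1, (hS k hk q hq).2.1⟩) (hφ k hk) (hg k hk)
      (fun q hq v hv => by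
        obtain ⟨-, -, h3, h4⟩ := hS k hk q hq
        rw [hFT k hk]
        have hv' : j (k + 1) ≤ |v - Real.log q| := by
          by_contra hcon
          push Not at hcon
          rw [abs_lt] at hcon
          exact hv ⟨by linarith [hcon.1], by linarith [hcon.2]⟩
        rw [hχz _ (by rw [hjpos, le_div_iff₀ (hj _)]; linarith),
          hχz _ (by rw [hjpos, le_div_iff₀ (hj _)]; linarith [hjm k])]
        simp) (hE k hk)
    have e4 : ∀ t : ℝ, RR (fun u => G u * ((χ (u / j (k + 1)) - χ (u / j k) : ℝ) : ℂ)) t =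
        ((1 / W : ℝ) : ℂ) * ∫ u : ℝ, FT (φ k) u *
          (∑ q ∈ S k, (((q : ℝ) ^ (-(1 / 2) : ℝ) : ℝ) : ℂ) * g k (u + Real.log q)) *
          Complex.exp (u * t * I) := by
      intro t
      unfold RR
      rw [← integral_const_mul]
      apply integral_congr_ae
      refine Filter.Eventually.of_forall fun u => ?_
      simp only [hG]
      rw [hFT k hk u, hFg k hk u]
      ring
    calc ∫⁻ t in Icc c (c + T),
        ‖RR (fun u => G u * ((χ (u / j (k + 1)) - χ (u / j k) : ℝ) : ℂ)) t‖ₑ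
        = ENNReal.ofReal (1 / W) * ∫⁻ t in Icc c (c + T), ‖∫ u : ℝ, FT (φ k) u *
          (∑ q ∈ S k, (((q : ℝ) ^ (-(1 / 2) : ℝ) : ℝ) : ℂ) * g k (u + Real.log q)) *
          Complex.exp (u * t * I)‖ₑ := by
          rw [← lintegral_const_mul' _ _ ENNReal.ofReal_ne_top]
          apply lintegral_congr
          intro t
          rw [e4 t, enorm_mul, ← ofReal_norm (((1 / W : ℝ) : ℂ)), Complex.norm_real,
            Real.norm_of_nonneg (by positivity)]
      _ ≤ ENNReal.ofReal (1 / W) * (ENNReal.ofReal (C * ∫ x : ℝ, ‖φ k x‖) *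
        (ENNReal.ofReal (T * W) * ENNReal.ofReal (E k)) ^ (1 / 2 : ℝ)) :=
          mul_le_mul_right hpb' _
      _ ≤ ENNReal.ofReal (1 / W) * (ENNReal.ofReal (C * m k) *
        (ENNReal.ofReal (T * W) * ENNReal.ofReal (E k)) ^ (1 / 2 : ℝ)) := by
          refine mul_le_mul_right (mul_le_mul_left (ENNReal.ofReal_le_ofReal ?_) _) _
          exact mul_le_mul_of_nonneg_left (hm k hk) hC.le
      _ = ENNReal.ofReal (C * m k * Real.sqrt (T * E k / W)) := by
          have hm0 : 0 ≤ m k := le_trans (integral_nonneg fun x => norm_nonneg _) (hm k hk)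
          rw [← ENNReal.ofReal_mul (by positivity),
            ENNReal.ofReal_rpow_of_nonneg (mul_nonneg (by positivity) (hE0 k hk)) (by norm_num),
            ← Real.sqrt_eq_rpow, ← ENNReal.ofReal_mul (by positivity),
            ← ENNReal.ofReal_mul (by positivity)]
          congr 1
          have e5 : T * W * E k = W ^ 2 * (T * E k / W) := by
            field_simp
          rw [e5, Real.sqrt_mul (by positivity), Real.sqrt_sq hWp.le]
          field_simp
  -- together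
  have hm1 : Measurable (fun t => RR (fun u => G u * ((χ (u / j 0) : ℝ) : ℂ)) t) :=
    (RR_cont hlow).measurable
  have hm2 : Measurable (fun t => RR (fun u => G u * ((1 - χ (u / j N) : ℝ) : ℂ)) t) :=
    (RR_cont htail).measurable
  have hm3 : ∀ k, Measurable (fun t => RR (fun u => G u *
      ((χ (u / j (k + 1)) - χ (u / j k) : ℝ) : ℂ)) t) := fun k => (RR_cont (hpc k)).measurable
  calc ∫⁻ t in Icc c (c + T), ‖∫ u : ℝ, wh u * F u * Complex.exp (u * t * I)‖ₑ
      ≤ ∫⁻ t in Icc c (c + T), (‖RR (fun u => G u * ((χ (u / j 0) : ℝ) : ℂ)) t‖ₑ +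
        (∑ k ∈ Finset.range N,
          ‖RR (fun u => G u * ((χ (u / j (k + 1)) - χ (u / j k) : ℝ) : ℂ)) t‖ₑ) +
        ‖RR (fun u => G u * ((1 - χ (u / j N) : ℝ) : ℂ)) t‖ₑ) := by
        apply lintegral_mono
        intro t
        simp only [hdec t]
        refine (enorm_add_le _ _).trans (add_le_add ((enorm_add_le _ _).trans
          (add_le_add le_rfl ?_)) le_rfl)
        exact enorm_sum_le _ _
    _ = (∫⁻ t in Icc c (c + T), ‖RR (fun u => G u * ((χ (u / j 0) : ℝ) : ℂ)) t‖ₑ) +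
        (∑ k ∈ Finset.range N, ∫⁻ t in Icc c (c + T),
          ‖RR (fun u => G u * ((χ (u / j (k + 1)) - χ (u / j k) : ℝ) : ℂ)) t‖ₑ) +
        ∫⁻ t in Icc c (c + T), ‖RR (fun u => G u * ((1 - χ (u / j N) : ℝ) : ℂ)) t‖ₑ := by
        rw [lintegral_add_right _ hm2.enorm, lintegral_add_left hm1.enorm,
          lintegral_finsetSum _ (fun k _ => (hm3 k).enorm)]
    _ ≤ ENNReal.ofReal (Real.sqrt (2 * Real.pi * T * El)) +
        (∑ k ∈ Finset.range N,
          ENNReal.ofReal (C * m k * Real.sqrt (T * E k / ∑ q ∈ S k, 1 / (q : ℝ)))) +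
        ENNReal.ofReal (Real.sqrt (2 * Real.pi * T * Et)) :=
        add_le_add (add_le_add b1 (Finset.sum_le_sum fun k hk => b3 k (Finset.mem_range.1 hk))) b2
    _ = _ := by
        have hs0 : ∀ k ∈ Finset.range N,
            0 ≤ C * m k * Real.sqrt (T * E k / ∑ q ∈ S k, 1 / (q : ℝ)) := by
          intro k hk
          have hk' := Finset.mem_range.1 hk
          have hm0 : 0 ≤ m k := le_trans (integral_nonneg fun x => norm_nonneg _) (hm k hk')
          positivity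
        rw [← ENNReal.ofReal_sum_of_nonneg hs0,
          ← ENNReal.ofReal_add (Real.sqrt_nonneg _) (Finset.sum_nonneg hs0),
          ← ENNReal.ofReal_add (add_nonneg (Real.sqrt_nonneg _) (Finset.sum_nonneg hs0))
            (Real.sqrt_nonneg _)]
        congr 1
        ring

end Pool.Agent.Lib.MP_6bc78b_nt.GP.H91
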