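import Pool.Agent.Lib.MP_6bc78b_nt.GP.H91.Core
import Pool.Agent.Lib.MP_6bc78b_nt.GP.H43.Defs10b
import Pool.Agent.Lib.MP_6bc78b_nt.GP.H61.Rgtb
import Pool.Agent.Lib.MP_6bc78b_nt.GP.H32.Plt

/-! Project GP10 (MP_6bc78b_nt), row ERB, first part: the functions `EM`, the window. -/

set_option autoImplicit false

open Complex Filter Topology MeasureTheory ArithmeticFunction Set
open scoped ENNReal

namespace Pool.Agent.Lib.MP_6bc78b_nt.GP.H91E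

open Pool.Agent.Lib.MP_6bc78b_nt.MS Pool.Agent.Lib.MP_6bc78b_nt.MS.P1
open Pool.Agent.Lib.MP_6bc78b_nt.GP Pool.Agent.Lib.MP_6bc78b_nt.GP.G7
open Pool.Agent.Lib.MP_6bc78b_nt.GP.G10 Pool.Agent.Lib.MP_6bc78b_nt.GP.H91

lemma sinc_mul (x : ℝ) : |Real.sinc x * x| ≤ 1 := by
  by_cases hx : x = 0
  · subst hx
    simp
  · rw [Real.sinc_of_ne_zero hx, div_mul_cancel₀ _ hx]
    exact Real.abs_sin_le_one x

lemma wd_sq (lam H u : ℝ) : wd lam H u ^ 2 ≤ 512 / (1 + lam ^ 2 * u ^ 2) := by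
  set x : ℝ := lam / 16 * u with hx
  have h1 : Real.sinc x ^ 2 ≤ 1 := by
    have := Real.abs_sinc_le_one x
    rw [← sq_abs]
    nlinarith [abs_nonneg (Real.sinc x)]
  have h2 : (Real.sinc x * x) ^ 2 ≤ 1 := by
    have := sinc_mul x
    rw [← sq_abs]
    nlinarith [abs_nonneg (Real.sinc x * x)]
  have h3 : wd lam H u ^ 2 ≤ Real.sinc x ^ 2 := by
    unfold wd
    rw [← hx]
    have e1 : (Real.sinc x ^ 8 * Real.exp (-(H ^ 2 * u ^ 2 / 2))) ^ 2 =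
        Real.sinc x ^ 2 * ((Real.sinc x ^ 2) ^ 7 * Real.exp (-(H ^ 2 * u ^ 2 / 2)) ^ 2) := by ring
    rw [e1]
    have h4 : (Real.sinc x ^ 2) ^ 7 ≤ 1 := pow_le_one₀ (sq_nonneg _) h1
    have h5 : Real.exp (-(H ^ 2 * u ^ 2 / 2)) ^ 2 ≤ 1 := by
      refine pow_le_one₀ (Real.exp_pos _).le ?_
      rw [Real.exp_le_one_iff]
      have : 0 ≤ H ^ 2 * u ^ 2 / 2 := by positivity
      linarith
    have h6 : (Real.sinc x ^ 2) ^ 7 * Real.exp (-(H ^ 2 * u ^ 2 / 2)) ^ 2 ≤ 1 :=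
      mul_le_one₀ h4 (by positivity) h5
    nlinarith [sq_nonneg (Real.sinc x)]
  refine h3.trans ?_
  rw [le_div_iff₀ (by positivity)]
  have e2 : lam ^ 2 * u ^ 2 = 256 * x ^ 2 := by
    rw [hx]
    ring
  rw [e2]
  have e3 : (Real.sinc x * x) ^ 2 = Real.sinc x ^ 2 * x ^ 2 := by ring
  rw [e3] at h2
  nlinarith

lemma wd_sq_exp (lam H u : ℝ) : wd lam H u ^ 2 ≤ Real.exp (-(H ^ 2 * u ^ 2)) := by
  unfold wd
  have e1 : (Real.sinc (lam / 16 * u) ^ 8 * Real.exp (-(H ^ 2 * u ^ 2 / 2))) ^ 2 =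
      (Real.sinc (lam / 16 * u) ^ 2) ^ 8 * (Real.exp (-(H ^ 2 * u ^ 2 / 2)) ^ 2) := by ring
  have e2 : Real.exp (-(H ^ 2 * u ^ 2 / 2)) ^ 2 = Real.exp (-(H ^ 2 * u ^ 2)) := by
    rw [← Real.exp_nat_mul]
    congr 1
    push_cast
    ring
  rw [e1, e2]
  have h1 : Real.sinc (lam / 16 * u) ^ 2 ≤ 1 := by
    have := Real.abs_sinc_le_one (lam / 16 * u)
    rw [← sq_abs]
    nlinarith [abs_nonneg (Real.sinc (lam / 16 * u))]
  have h4 : (Real.sinc (lam / 16 * u) ^ 2) ^ 8 ≤ 1 := pow_le_one₀ (sq_nonneg _) h1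
  nlinarith [Real.exp_pos (-(H ^ 2 * u ^ 2))]

lemma wd_abs (lam H u : ℝ) : |wd lam H u| ≤ Real.exp (-(H ^ 2 * u ^ 2 / 2)) := by
  have h := wd_sq_exp lam H u
  have e2 : Real.exp (-(H ^ 2 * u ^ 2)) = Real.exp (-(H ^ 2 * u ^ 2 / 2)) ^ 2 := by
    rw [← Real.exp_nat_mul]
    congr 1
    push_cast
    ring
  rw [e2] at h
  exact abs_le_of_sq_le_sq h (Real.exp_pos _).le

lemma wd_cont (lam H : ℝ) : Continuous (wd lam H) := by
  unfold wd
  have := Real.continuous_sinc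
  fun_prop

/-- The function `e^{v/2} EE_B(z'(v))`. -/
noncomputable def FM (A B δ : ℝ) (S : Finset ℕ) (β : ℕ → ℝ) (v : ℝ) : ℂ :=
  ((Real.exp (v / 2) : ℝ) : ℂ) * EM A B S β (zp v δ)

lemma EM_cont (hE : ETRStatement) (A B δ : ℝ) (hδ : 0 < δ) (hδ1 : δ < 1) (S : Finset ℕ)
    (β : ℕ → ℝ) (hS : ∀ m ∈ S, 1 ≤ m) : Continuous (fun v : ℝ => EM A B S β (zp v δ)) := by
  unfold EM
  refine continuous_finsetSum _ fun m hm => ?_
  have h1 : (fun v : ℝ => EE A B (m * zp v δ)) = fun v : ℝ => EE A B (zp (v + Real.log m) δ) := by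
    funext v
    rw [H61B.EE_shift A B v δ m (hS m hm)]
  have h2 : Continuous (fun v : ℝ => EE A B (zp (v + Real.log m) δ)) :=
    ((hE A B).1 δ hδ hδ1).comp (continuous_id.add continuous_const)
  rw [← h1] at h2
  exact continuous_const.mul h2

lemma FM_cont (hE : ETRStatement) (A B δ : ℝ) (hδ : 0 < δ) (hδ1 : δ < 1) (S : Finset ℕ)
    (β : ℕ → ℝ) (hS : ∀ m ∈ S, 1 ≤ m) : Continuous (FM A B δ S β) := by
  unfold FM
  have := EM_cont hE A B δ hδ hδ1 S β hS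
  exact (Complex.continuous_ofReal.comp (by fun_prop)).mul this

lemma EM_bd (hE : ETRStatement) (A B δ : ℝ) (hδ : 0 < δ) (hδ1 : δ ≤ 1 / 2) (S : Finset ℕ)
    (β : ℕ → ℝ) (hS : ∀ m ∈ S, 1 ≤ m) : ∃ M : ℝ, 0 ≤ M ∧ ∀ v : ℝ,
    ‖EM A B S β (zp v δ)‖ ≤ M * Real.exp (2 * |v|) := by
  obtain ⟨-, C, hC, hb⟩ := hE A B
  refine ⟨∑ m ∈ S, |β m| * (C * Real.exp (2 * |Real.log m|) / δ ^ 2), by positivity, fun v => ?_⟩
  unfold EM
  refine (norm_sum_le _ _).trans ?_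
  rw [Finset.sum_mul]
  refine Finset.sum_le_sum fun m hm => ?_
  rw [norm_mul, Complex.norm_real, Real.norm_eq_abs, ← H61B.EE_shift A B v δ m (hS m hm),
    mul_assoc]
  refine mul_le_mul_of_nonneg_left ((hb _ δ hδ hδ1).trans ?_) (abs_nonneg _)
  have h1 : Real.exp (2 * |v + Real.log m|) ≤ Real.exp (2 * |Real.log m|) * Real.exp (2 * |v|) := by
    rw [← Real.exp_add]
    apply Real.exp_le_exp.2
    have := abs_add_le v (Real.log m)
    linarith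
  calc C * Real.exp (2 * |v + Real.log m|) / δ ^ 2
      ≤ C * (Real.exp (2 * |Real.log m|) * Real.exp (2 * |v|)) / δ ^ 2 := by gcongr
    _ = C * Real.exp (2 * |Real.log m|) / δ ^ 2 * Real.exp (2 * |v|) := by ring

lemma wFM_int (hE : ETRStatement) (A B δ : ℝ) (hδ : 0 < δ) (hδ1 : δ ≤ 1 / 2) (S : Finset ℕ)
    (β : ℕ → ℝ) (hS : ∀ m ∈ S, 1 ≤ m) (lam H : ℝ) (hH : 0 < H) :
    Integrable (fun u : ℝ => ((wd lam H u : ℝ) : ℂ) * FM A B δ S β u) := by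
  obtain ⟨M, hM, hb⟩ := EM_bd hE A B δ hδ hδ1 S β hS
  have hg := (H32.integrable_gauss_abs (H ^ 2 / 2) (by positivity)).const_mul M
  have hc : Continuous (fun u : ℝ => ((wd lam H u : ℝ) : ℂ) * FM A B δ S β u) :=
    (Complex.continuous_ofReal.comp (wd_cont lam H)).mul
      (FM_cont hE A B δ hδ (by linarith) S β hS)
  refine hg.mono' hc.aestronglyMeasurable (Eventually.of_forall fun u => ?_)
  unfold FM
  rw [norm_mul, norm_mul, Complex.norm_real, Complex.norm_real, Real.norm_eq_abs,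
    Real.norm_of_nonneg (Real.exp_pos _).le]
  calc |wd lam H u| * (Real.exp (u / 2) * ‖EM A B S β (zp u δ)‖)
      ≤ Real.exp (-(H ^ 2 * u ^ 2 / 2)) * (Real.exp (u / 2) * (M * Real.exp (2 * |u|))) := by
        gcongr
        · exact wd_abs lam H u
        · exact hb u
    _ = M * Real.exp (-(H ^ 2 * u ^ 2 / 2) + u / 2 + 2 * |u|) := by
        rw [Real.exp_add, Real.exp_add]
        ring
    _ ≤ M * Real.exp (-(H ^ 2 / 2 * u ^ 2) + 3 * |u|) := by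
        refine mul_le_mul_of_nonneg_left (Real.exp_le_exp.2 ?_) hM
        have h6 := le_abs_self u
        have h7 := abs_nonneg u
        have h8 : H ^ 2 / 2 * u ^ 2 = H ^ 2 * u ^ 2 / 2 := by ring
        rw [h8]
        linarith

lemma Qk_mem {w : ℝ} {k q : ℕ} (hq : q ∈ Qk w k) : q.Prime ∧ pk w k < Real.log q ∧
    Real.log q ≤ pk w (k + 1) ∧ (q : ℝ) ≤ Real.exp (pk w (k + 1)) := by
  classical
  unfold Qk qs at hq
  rw [Finset.mem_filter, Finset.mem_range] at hq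
  obtain ⟨h1, h2, h3⟩ := hq
  have hq0 : (0 : ℝ) < q := by exact_mod_cast h2.pos
  have h4 : (q : ℝ) ≤ Real.exp (pk w (k + 1)) := by
    have : q ≤ ⌊Real.exp (pk w (k + 1))⌋₊ := by omega
    exact (Nat.le_floor_iff (Real.exp_pos _).le).1 this
  refine ⟨h2, ?_, ?_, h4⟩
  · rw [Real.lt_log_iff_exp_lt hq0]
    exact h3
  · rw [Real.log_le_iff_le_exp hq0]
    exact h4

/-- Factorisation at the scale `k`. -/
lemma FM_fac {w : ℝ} {K : ℕ} {S : Finset ℕ} {β : ℕ → ℝ} {S' : ℕ → Finset ℕ} {β' : ℕ → ℕ → ℝ}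
    {N ν : ℝ} (hS : Scl w K S β S' β' N ν) (A B δ : ℝ) {k : ℕ} (hk : k ≤ K) (u : ℝ) :
    FM A B δ S β u = ((1 / ∑ q ∈ Qk w k, 1 / (q : ℝ) : ℝ) : ℂ) *
      ∑ q ∈ Qk w k, (((q : ℝ) ^ (-(1 / 2) : ℝ) : ℝ) : ℂ) *
        FM A B δ (S' k) (β' k) (u + Real.log q) := by
  have h1 := hS.fac k hk (fun m => EE A B (m * zp u δ))
  unfold FM EM
  rw [h1]
  have e0 : ((1 / ∑ q ∈ Qk w k, 1 / (q : ℝ) : ℝ) : ℂ) = 1 / (Wk w k : ℂ) := by
    unfold Wk Wq Qk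
    push_cast
    rfl
  rw [e0, ← mul_assoc, mul_comm (((Real.exp (u / 2) : ℝ) : ℂ)) (1 / (Wk w k : ℂ)), mul_assoc]
  congr 1
  rw [Finset.mul_sum]
  refine Finset.sum_congr rfl fun q hq => ?_
  have hqp := (Qk_mem hq).1
  have hq0 : (0 : ℝ) < q := by exact_mod_cast hqp.pos
  have e1 : Real.exp (u / 2) = (q : ℝ) ^ (-(1 / 2) : ℝ) * Real.exp ((u + Real.log q) / 2) := by
    rw [Real.rpow_def_of_pos hq0, ← Real.exp_add]
    congr 1
    ring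
  have e2 : ((Real.exp (u / 2) : ℝ) : ℂ) = (((q : ℝ) ^ (-(1 / 2) : ℝ) : ℝ) : ℂ) *
      ((Real.exp ((u + Real.log q) / 2) : ℝ) : ℂ) := by
    rw [← Complex.ofReal_mul, ← e1]
  rw [e2, mul_assoc]
  congr 2
  refine Finset.sum_congr rfl fun m hm => ?_
  congr 1
  have hm1 := (hS.mol' k hk).one_le m hm
  have hm0 : (0 : ℝ) < m := by exact_mod_cast hm1
  rw [← H61B.EE_shift A B (u + Real.log q) δ m hm1]
  have h3 := H61B.EE_shift A B u δ (q * m) (Nat.mul_pos hqp.pos hm1)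
  rw [← h3]
  congr 2
  push_cast
  rw [Real.log_mul hq0.ne' hm0.ne']
  ring

lemma SB_eq (A B δ : ℝ) (w : ℝ → ℝ) (S : Finset ℕ) (β : ℕ → ℝ) (t : ℝ) :
    G10.SB A B δ w S β t =
      ∫ u : ℝ, ((w u : ℝ) : ℂ) * FM A B δ S β u * Complex.exp (u * t * I) := by
  unfold G10.SB FM
  apply integral_congr_ae
  refine Filter.Eventually.of_forall fun u => ?_
  simp only []
  push_cast
  ring

end Pool.Agent.Lib.MP_6bc78b_nt.GP.H91E
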