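import Pool.Agent.Lib.MP_6bc78b_nt.GP.H91.Chb10q

/-! Project GP11 (MP_6bc78b_nt), row NEAR, first part: the sum of `|ζ'(ρ) B(ρ)|` over the simple
zeros near `t` with a large derivative. -/

set_option autoImplicit false

open Complex Filter Topology MeasureTheory ArithmeticFunction Set
open scoped ENNReal

namespace Pool.Agent.Lib.MP_6bc78b_nt.GP.H91N

open Pool.Agent.Lib.MP_6bc78b_nt Pool.Agent.Lib.MP_6bc78b_nt.MS Pool.Agent.Lib.MP_6bc78b_nt.MS.P1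
open Pool.Agent.Lib.MP_6bc78b_nt.GP Pool.Agent.Lib.MP_6bc78b_nt.GP.G7
open Pool.Agent.Lib.MP_6bc78b_nt.GP.G10 Pool.Agent.Lib.MP_6bc78b_nt.GP.H91
open Pool.Agent.Lib.MP_6bc78b_nt.GP.H91C

/-- The simple zeros near `t` with a derivative of size at least `m`. -/
def zs (t lam m : ℝ) : Set ℝ :=
  {γ : ℝ | |γ - t| < lam ∧ mz γ = 1 ∧ m ≤ ‖deriv riemannZeta (1 / 2 + γ * I)‖}

/-- The zeros with a large derivative near `t`. -/
noncomputable def Zn (T m lam t : ℝ) : Finset ℝ := by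
  classical exact (ZS2 T m).filter (fun γ : ℝ => |γ - t| < lam)

/-- The other zeros with a large derivative. -/
noncomputable def Zfr (T m lam t : ℝ) : Finset ℝ := by
  classical exact (ZS2 T m).filter (fun γ : ℝ => ¬ |γ - t| < lam)

lemma mem_Zn {T m lam t γ : ℝ} : γ ∈ Zn T m lam t ↔ γ ∈ ZS2 T m ∧ |γ - t| < lam := by
  unfold Zn
  rw [Finset.mem_filter]

lemma mem_Zfr {T m lam t γ : ℝ} : γ ∈ Zfr T m lam t ↔ γ ∈ ZS2 T m ∧ ¬ |γ - t| < lam := by
  unfold Zfr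
  rw [Finset.mem_filter]

lemma Zn_sum (T m lam t : ℝ) (f : ℝ → ℂ) :
    ∑ γ ∈ ZS2 T m, f γ = ∑ γ ∈ Zn T m lam t, f γ + ∑ γ ∈ Zfr T m lam t, f γ := by
  classical
  unfold Zn Zfr
  rw [Finset.sum_filter_add_sum_filter_not]

lemma zero_of_mz {γ : ℝ} (h : mz γ = 1) : riemannZeta (1 / 2 + γ * I) = 0 := by
  by_contra hne
  have h1 : mz γ = 0 := by
    unfold mz analyticOrderNatAt
    rw [analyticOrderAt_eq_zero.2 (Or.inr hne)]
    rfl
  omega

lemma Zn_iff {T m lam t : ℝ} (hm : 0 < m) (ht1 : T ≤ t) (ht2 : t ≤ 2 * T) (hlT : lam ≤ T / 2)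
    (γ : ℝ) : γ ∈ Zn T m lam t ↔ γ ∈ zs t lam m := by
  rw [mem_Zn, mem_ZS2, mem_ZF, not_lt]
  constructor
  · rintro ⟨⟨⟨h1, h2, h3⟩, h4⟩, h5⟩
    refine ⟨h5, ?_, h4⟩
    have hm1 := MS.P4.H30.zfac.2.2.1 γ h3
    rcases Nat.lt_or_ge (mz γ) 2 with h | h
    · omega
    · exfalso
      rw [MS.P4.H30.zfac.2.2.2.2.1 γ h, norm_zero] at h4
      linarith
  · rintro ⟨h1, h2, h3⟩
    have h4 := abs_lt.1 h1
    exact ⟨⟨⟨by linarith, by linarith, zero_of_mz h2⟩, h3⟩, h1⟩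

/-- The near zeros: one average of the Gaussian. -/
lemma near_le (hG : GAMCStatement) {δ H : ℝ} (hδ : 0 ≤ δ) (hH : 0 < H) (S : Finset ℕ)
    (β : ℕ → ℝ) {Z : Finset ℝ} (hZ : ∀ γ ∈ Z, 0 ≤ γ ∧ riemannZeta (1 / 2 + γ * I) = 0) {w : ℝ}
    (hw : 0 < w) (t : ℝ) :
    ‖(G10.Av w)^[8] (fun x => ∑ γ ∈ Z, tm δ H S β γ x) t‖ ≤
      (2 * w)⁻¹ * (H * Real.sqrt (2 * Real.pi)) *
        ∑ γ ∈ Z, ‖deriv riemannZeta (1 / 2 + γ * I)‖ * ‖pB S β (1 / 2 + γ * I)‖ := by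
  rw [Av_eq]
  have hc : Continuous (fun x => ∑ γ ∈ Z, tm δ H S β γ x) :=
    continuous_finsetSum _ fun γ _ => tm_cont δ H S β γ
  rw [show (8 : ℕ) = 7 + 1 from rfl, Function.iterate_succ_apply]
  refine H10A.Av_norm_iter hw 7 fun x _ => ?_
  unfold H10A.Av
  rw [norm_mul, Complex.norm_real, Real.norm_of_nonneg (by positivity), mul_assoc]
  refine mul_le_mul_of_nonneg_left ?_ (by positivity)
  have hb : 0 < 1 / (2 * H ^ 2) := by positivity
  have hgi : ∀ γ : ℝ, Integrable (fun y : ℝ => Real.exp (-((γ - y) ^ 2 / (2 * H ^ 2)))) := by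
    intro γ
    have h := (integrable_exp_neg_mul_sq hb).comp_sub_left γ
    refine h.congr (Eventually.of_forall fun x => ?_)
    simp only []
    congr 1
    ring
  have hgv : ∀ γ : ℝ, ∫ y : ℝ, Real.exp (-((γ - y) ^ 2 / (2 * H ^ 2))) =
      H * Real.sqrt (2 * Real.pi) := by
    intro γ
    have h1 := gint H γ hH
    rw [← ofReal_integral_eq_lintegral_ofReal (hgi γ) (Eventually.of_forall fun x =>
      (Real.exp_pos _).le)] at h1
    have h2 : 0 ≤ ∫ y : ℝ, Real.exp (-((γ - y) ^ 2 / (2 * H ^ 2))) :=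
      integral_nonneg fun y => (Real.exp_pos _).le
    exact (ENNReal.ofReal_eq_ofReal_iff h2 (by positivity)).1 h1
  obtain ⟨b, hb'⟩ : ∃ b : ℝ → ℝ, b = fun y => ∑ γ ∈ Z, ‖deriv riemannZeta (1 / 2 + γ * I)‖ *
      ‖pB S β (1 / 2 + γ * I)‖ * Real.exp (-((γ - y) ^ 2 / (2 * H ^ 2))) := ⟨_, rfl⟩
  have hbi : Integrable b := by
    rw [hb']
    exact integrable_finsetSum _ fun γ _ => (hgi γ).const_mul _
  have hb0 : ∀ y, 0 ≤ b y := by
    intro y
    rw [hb']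
    exact Finset.sum_nonneg fun γ _ => by positivity
  have hle : ∀ y, ‖∑ γ ∈ Z, tm δ H S β γ y‖ ≤ b y := by
    intro y
    rw [hb']
    refine (norm_sum_le _ _).trans (Finset.sum_le_sum fun γ hγ => ?_)
    exact norm_tm hG hδ hH S β (hZ γ hγ).1 (hZ γ hγ).2 y
  have hbt : ∫ y : ℝ, b y = H * Real.sqrt (2 * Real.pi) *
      ∑ γ ∈ Z, ‖deriv riemannZeta (1 / 2 + γ * I)‖ * ‖pB S β (1 / 2 + γ * I)‖ := by
    rw [hb', integral_finsetSum _ fun γ _ => (hgi γ).const_mul _, Finset.mul_sum]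
    refine Finset.sum_congr rfl fun γ _ => ?_
    rw [integral_const_mul, hgv]
    ring
  rw [← hbt, ← integral_add_left_eq_self b x]
  have hbx : Integrable (fun y : ℝ => b (x + y)) := hbi.comp_add_left x
  calc ‖∫ y in (-w)..w, (fun x => ∑ γ ∈ Z, tm δ H S β γ x) (x + y)‖
      ≤ ∫ y in (-w)..w, b (x + y) := by
        refine intervalIntegral.norm_integral_le_of_norm_le (by linarith)
          (Eventually.of_forall fun y _ => hle (x + y)) hbx.intervalIntegrable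
    _ = ∫ y in Ioc (-w) w, b (x + y) := by
        rw [intervalIntegral.integral_of_le (by linarith)]
    _ ≤ ∫ y : ℝ, b (x + y) :=
        setIntegral_le_integral hbx (Eventually.of_forall fun y => hb0 _)

end Pool.Agent.Lib.MP_6bc78b_nt.GP.H91N
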