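import Pool.Agent.Lib.MP_6bc78b_nt.GP.H91.Near

/-! Project GP11 (MP_6bc78b_nt), row NEAR, second part: the measure of the centres with a small
sum of `|ζ'(ρ) B(ρ)|` over the simple zeros near `t` with a large derivative. -/

set_option autoImplicit false

open Complex Filter Topology MeasureTheory ArithmeticFunction Set
open scoped ENNReal

namespace Pool.Agent.Lib.MP_6bc78b_nt.GP.H91N

open Pool.Agent.Lib.MP_6bc78b_nt Pool.Agent.Lib.MP_6bc78b_nt.MS Pool.Agent.Lib.MP_6bc78b_nt.MS.P1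
open Pool.Agent.Lib.MP_6bc78b_nt.GP Pool.Agent.Lib.MP_6bc78b_nt.GP.G7
open Pool.Agent.Lib.MP_6bc78b_nt.GP.G10 Pool.Agent.Lib.MP_6bc78b_nt.GP.H91
open Pool.Agent.Lib.MP_6bc78b_nt.GP.H91C

/-- One centre. -/
lemma centre2 (hE : ETRStatement) (hG : GAMCStatement) (hRH : RiemannHypothesis) {A B T δ lam : ℝ}
    {S : Finset ℕ} {β : ℕ → ℝ} (hS : ∀ m ∈ S, 1 ≤ m) (hT : 10 < T) (hδ : 0 < δ)
    (hδ1 : δ ≤ 1 / 2) (hlam : 0 < lam) (hH : 0 < HH T lam) (hlT : lam / 2 ≤ T / 4)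
    (havb : AVBStatement) {m : ℝ} {t : ℝ} (ht1 : T ≤ t)
    (ht2 : t ≤ 2 * T)
    (hcon : ∀ x : ℝ, 3 / 4 * T ≤ x → x ≤ 3 * T → ‖G10.SB A B δ (gd (HH T lam)) S β x -
      ILG A B T δ (fun s => pB S β s * GH (HH T lam) x s) -
      SSG T δ (fun s => pB S β s * GH (HH T lam) x s)‖ ≤ 1) :
    ‖LI A B T δ lam S β t‖ ≤
      1 + HH T lam / Real.sqrt (2 * Real.pi) * ‖G10.SB A B δ (wd lam (HH T lam)) S β t‖ +
      ‖YZ δ (HH T lam) lam S β (ZS1 T m) t‖ + SFB T lam S β t +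
      24 * HH T lam / lam * ∑ γ ∈ Zn T m lam t,
        ‖deriv riemannZeta (1 / 2 + γ * I)‖ * ‖pB S β (1 / 2 + γ * I)‖ := by
  have hw : 0 < lam / 16 := by positivity
  have hsum : ∀ x, SSG T δ (fun s => pB S β s * GH (HH T lam) x s) =
      ∑ γ ∈ ZS1 T m, tm δ (HH T lam) S β γ x + ∑ γ ∈ ZS2 T m, tm δ (HH T lam) S β γ x := by
    intro x
    rw [SSG_eq, ZS_sum T m]
  have hc1 : Continuous (G10.SB A B δ (gd (HH T lam)) S β) :=
    SB_cont hE A B δ hδ hδ1 S β hS (gd_cont _) (H := HH T lam)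
      (M := HH T lam / Real.sqrt (2 * Real.pi)) hH (by positivity) (fun u => by
        unfold gd
        rw [abs_of_nonneg (by positivity)])
  have hc2 : Continuous (fun x : ℝ => ILG A B T δ (fun s => pB S β s * GH (HH T lam) x s)) :=
    ILG_cont hRH A B δ (HH T lam) S β hS (by linarith)
  have hc3 : Continuous (fun x => ∑ γ ∈ ZS1 T m, tm δ (HH T lam) S β γ x) :=
    continuous_finsetSum _ fun γ _ => tm_cont _ _ _ _ _
  have hc4 : Continuous (fun x => ∑ γ ∈ ZS2 T m, tm δ (HH T lam) S β γ x) :=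
    continuous_finsetSum _ fun γ _ => tm_cont _ _ _ _ _
  have hc5 : Continuous (fun x => ∑ γ ∈ Zn T m lam t, tm δ (HH T lam) S β γ x) :=
    continuous_finsetSum _ fun γ _ => tm_cont _ _ _ _ _
  have hc6 : Continuous (fun x => ∑ γ ∈ Zfr T m lam t, tm δ (HH T lam) S β γ x) :=
    continuous_finsetSum _ fun γ _ => tm_cont _ _ _ _ _
  -- the averaged identity
  have hav := havb A B δ lam (HH T lam) t S β hδ hδ1 hlam hH hS
  have herr : ‖(G10.Av (lam / 16))^[8] (fun x => (G10.SB A B δ (gd (HH T lam)) S β x -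
      ILG A B T δ (fun s => pB S β s * GH (HH T lam) x s)) -
      (∑ γ ∈ ZS1 T m, tm δ (HH T lam) S β γ x +
        ∑ γ ∈ ZS2 T m, tm δ (HH T lam) S β γ x)) t‖ ≤ 1 := by
    rw [Av_eq]
    refine H10A.Av_norm_iter hw 8 fun x hx => ?_
    push_cast at hx
    have hx' := abs_le.1 hx
    have h1 := hcon x (by linarith [hx'.1]) (by linarith [hx'.2])
    rw [hsum x] at h1
    exact h1
  have hlin : (G10.Av (lam / 16))^[8] (fun x => (G10.SB A B δ (gd (HH T lam)) S β x -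
      ILG A B T δ (fun s => pB S β s * GH (HH T lam) x s)) -
      (∑ γ ∈ ZS1 T m, tm δ (HH T lam) S β γ x + ∑ γ ∈ ZS2 T m, tm δ (HH T lam) S β γ x)) t =
      ((G10.Av (lam / 16))^[8] (fun x => G10.SB A B δ (gd (HH T lam)) S β x) t -
      LI A B T δ lam S β t) -
      (YZ δ (HH T lam) lam S β (ZS1 T m) t + YZ δ (HH T lam) lam S β (ZS2 T m) t) := by
    unfold LI YZ
    rw [Av_eq]
    have q1 := H10A.Av_sub_iter (w := lam / 16) 8
      (F := fun x => G10.SB A B δ (gd (HH T lam)) S β x -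
        ILG A B T δ (fun s => pB S β s * GH (HH T lam) x s))
      (G := fun x => ∑ γ ∈ ZS1 T m, tm δ (HH T lam) S β γ x +
        ∑ γ ∈ ZS2 T m, tm δ (HH T lam) S β γ x)
      (hc1.sub hc2) (hc3.add hc4)
    have q2 := H10A.Av_sub_iter (w := lam / 16) 8
      (F := fun x => G10.SB A B δ (gd (HH T lam)) S β x)
      (G := fun x => ILG A B T δ (fun s => pB S β s * GH (HH T lam) x s)) hc1 hc2
    have q3 := H10A.Av_add_iter (w := lam / 16) 8
      (F := fun x => ∑ γ ∈ ZS1 T m, tm δ (HH T lam) S β γ x)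
      (G := fun x => ∑ γ ∈ ZS2 T m, tm δ (HH T lam) S β γ x) hc3 hc4
    rw [q1]
    simp only []
    rw [q2, q3]
  rw [hlin, hav] at herr
  have hsplit : YZ δ (HH T lam) lam S β (ZS2 T m) t =
      YZ δ (HH T lam) lam S β (Zn T m lam t) t + YZ δ (HH T lam) lam S β (Zfr T m lam t) t := by
    unfold YZ
    rw [Av_eq]
    have q3 := H10A.Av_add_iter (w := lam / 16) 8
      (F := fun x => ∑ γ ∈ Zn T m lam t, tm δ (HH T lam) S β γ x)
      (G := fun x => ∑ γ ∈ Zfr T m lam t, tm δ (HH T lam) S β γ x) hc5 hc6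
    have e : (fun x => ∑ γ ∈ ZS2 T m, tm δ (HH T lam) S β γ x) =
        fun x => (fun x => ∑ γ ∈ Zn T m lam t, tm δ (HH T lam) S β γ x) x +
          (fun x => ∑ γ ∈ Zfr T m lam t, tm δ (HH T lam) S β γ x) x := by
      funext x
      exact Zn_sum T m lam t _
    rw [e, q3]
  have hfar : ‖YZ δ (HH T lam) lam S β (Zfr T m lam t) t‖ ≤ SFB T lam S β t :=
    far_le hG (by linarith) hδ.le hlam hH S β (fun γ hγ => (mem_ZS2.1 (mem_Zfr.1 hγ).1).1)
      fun γ hγ => not_lt.1 (mem_Zfr.1 hγ).2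
  have hs3 : Real.sqrt (2 * Real.pi) ≤ 3 := by
    rw [Real.sqrt_le_left (by norm_num)]
    linarith [Real.pi_le_four]
  have hnear : ‖YZ δ (HH T lam) lam S β (Zn T m lam t) t‖ ≤
      24 * HH T lam / lam * ∑ γ ∈ Zn T m lam t,
        ‖deriv riemannZeta (1 / 2 + γ * I)‖ * ‖pB S β (1 / 2 + γ * I)‖ := by
    have h1 := near_le hG hδ.le hH S β (Z := Zn T m lam t) (fun γ hγ => by
      have h2 := mem_ZF.1 (mem_ZS2.1 (mem_Zn.1 hγ).1).1
      exact ⟨by linarith [h2.1], h2.2.2⟩) hw t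
    refine h1.trans (mul_le_mul_of_nonneg_right ?_
      (Finset.sum_nonneg fun _ _ => mul_nonneg (norm_nonneg _) (norm_nonneg _)))
    have e1 : (2 * (lam / 16))⁻¹ = 8 / lam := by
      field_simp
      norm_num
    rw [e1]
    have e2 : 24 * HH T lam / lam = 8 / lam * (HH T lam * 3) := by ring
    rw [e2]
    exact mul_le_mul_of_nonneg_left (mul_le_mul_of_nonneg_left hs3 hH.le) (by positivity)
  have h7 := four_le herr
  have h5 : ‖((HH T lam / Real.sqrt (2 * Real.pi) : ℝ) : ℂ) *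
      G10.SB A B δ (wd lam (HH T lam)) S β t‖ =
      HH T lam / Real.sqrt (2 * Real.pi) * ‖G10.SB A B δ (wd lam (HH T lam)) S β t‖ := by
    rw [norm_mul, Complex.norm_real, Real.norm_of_nonneg (by positivity)]
  rw [h5] at h7
  have h8 : ‖YZ δ (HH T lam) lam S β (ZS2 T m) t‖ ≤
      ‖YZ δ (HH T lam) lam S β (Zn T m lam t) t‖ +
      ‖YZ δ (HH T lam) lam S β (Zfr T m lam t) t‖ := by
    rw [hsplit]
    exact norm_add_le _ _
  linarith

/-- The exceptional set for one `T`. -/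
theorem step2 (hE : ETRStatement) (hG : GAMCStatement) (hRH : RiemannHypothesis)
    {A B T δ lam c ε : ℝ} {S : Finset ℕ} {β : ℕ → ℝ} (hS : ∀ m ∈ S, 1 ≤ m) (hT : 10 < T)
    (hδ : 0 < δ) (hδ1 : δ ≤ 1 / 2) (hlam : 0 < lam) (hH : 0 < HH T lam) (hlT : lam / 2 ≤ T / 4)
    (havb : AVBStatement) {m : ℝ} (hM : 0 < m) (hc : 0 < c) (hε : 0 < ε)
    (hL : 0 < Real.log T)
    (hcon : ∀ x : ℝ, 3 / 4 * T ≤ x → x ≤ 3 * T → ‖G10.SB A B δ (gd (HH T lam)) S β x -
      ILG A B T δ (fun s => pB S β s * GH (HH T lam) x s) -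
      SSG T δ (fun s => pB S β s * GH (HH T lam) x s)‖ ≤ 1)
    (hmain : volume {t : ℝ | T ≤ t ∧ t ≤ 2 * T ∧
      ‖LI A B T δ lam S β t‖ ≤ 2 * c * HH T lam * Real.log T ^ 2} ≤ ENNReal.ofReal (ε / 2 * T))
    (hSB : ∫⁻ t in Icc T (2 * T), ENNReal.ofReal ‖G10.SB A B δ (wd lam (HH T lam)) S β t‖ ≤
      ENNReal.ofReal (ε * c / 8 * T * Real.log T ^ 2))
    (hfar : ∫⁻ t in Icc T (2 * T), ENNReal.ofReal (SFB T lam S β t) ≤ ENNReal.ofReal T)
    (hnear : 24 * m * ∑ γ ∈ ZS1 T m, ‖pB S β (1 / 2 + γ * I)‖ ≤ ε * c * T * Real.log T ^ 2)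
    (hLε : 16 ≤ ε * c * (HH T lam * Real.log T ^ 2)) :
    volume {t : ℝ | T ≤ t ∧ t ≤ 2 * T ∧ ∀ F : Finset ℝ, (∀ γ : ℝ, γ ∈ F ↔ γ ∈ zs t lam m) →
      ∑ γ ∈ F, ‖deriv riemannZeta (1 / 2 + γ * I)‖ * ‖pB S β (1 / 2 + γ * I)‖ <
        c / 24 * lam * Real.log T ^ 2} ≤ ENNReal.ofReal (ε * T) := by
  obtain ⟨H, hHd⟩ : ∃ H : ℝ, H = HH T lam := ⟨_, rfl⟩
  obtain ⟨R, hR⟩ : ∃ R : ℝ → ℂ, R = G10.SB A B δ (wd lam (HH T lam)) S β := ⟨_, rfl⟩
  obtain ⟨Y, hY⟩ : ∃ Y : ℝ → ℂ, Y = YZ δ (HH T lam) lam S β (ZS1 T m) := ⟨_, rfl⟩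
  obtain ⟨X, hX⟩ : ∃ X : ℝ → ℝ, X = SFB T lam S β := ⟨_, rfl⟩
  have hRm : Measurable R := by
    rw [hR]
    exact (SB_cont hE A B δ hδ hδ1 S β hS (H91E.wd_cont lam (HH T lam)) (H := HH T lam) (M := 1)
      hH (by norm_num) (fun u => by rw [one_mul]; exact H91E.wd_abs lam _ u)).measurable
  have hYm : Measurable Y := by
    rw [hY]
    unfold YZ
    rw [Av_eq]
    exact (H10A.Av_cont_iter 8 (continuous_finsetSum _ fun γ _ => tm_cont _ _ _ _ _)).measurable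
  have hXm : Measurable X := by
    rw [hX]
    exact SFB_meas T lam S β
  have hX0 : ∀ t, 0 ≤ X t := by
    intro t
    rw [hX]
    unfold SFB
    exact finsum_nonneg fun γ => finsum_nonneg fun _ => by positivity
  have hYi : ∫⁻ t in Icc T (2 * T), ‖Y t‖ₑ ≤ ENNReal.ofReal (m * (H * Real.sqrt (2 * Real.pi)) *
      ∑ γ ∈ ZS1 T m, ‖pB S β (1 / 2 + γ * I)‖) := by
    rw [hY, hHd]
    exact near_mean hG hδ.le hH S β (Z := ZS1 T m)
      (fun γ hγ => ⟨by linarith [(mem_ZF.1 (mem_ZS1.1 hγ).1).1],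
        (mem_ZF.1 (mem_ZS1.1 hγ).1).2.2⟩)
      (m := m) (fun γ hγ => (mem_ZS1.1 hγ).2.le) (w := lam / 16) (by positivity) T (2 * T)
  rw [← hR] at hSB
  rw [← hX] at hfar
  obtain ⟨U, hU⟩ : ∃ U : ℝ → ℝ≥0∞, U = fun t => ENNReal.ofReal 1 +
      ENNReal.ofReal (H / Real.sqrt (2 * Real.pi) * ‖R t‖) +
      ENNReal.ofReal ‖Y t‖ + ENNReal.ofReal (X t) := ⟨_, rfl⟩
  rw [← hHd] at hH hmain hLε
  have hsub : {t : ℝ | T ≤ t ∧ t ≤ 2 * T ∧ ∀ F : Finset ℝ,
      (∀ γ : ℝ, γ ∈ F ↔ γ ∈ zs t lam m) →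
      ∑ γ ∈ F, ‖deriv riemannZeta (1 / 2 + γ * I)‖ * ‖pB S β (1 / 2 + γ * I)‖ <
        c / 24 * lam * Real.log T ^ 2} ⊆
      {t : ℝ | T ≤ t ∧ t ≤ 2 * T ∧ ‖LI A B T δ lam S β t‖ ≤ 2 * c * H * Real.log T ^ 2} ∪
      ({t : ℝ | ENNReal.ofReal (c * H * Real.log T ^ 2) ≤ U t} ∩ Icc T (2 * T)) := by
    rintro t ⟨ht1, ht2, hbad⟩
    by_cases hm : ‖LI A B T δ lam S β t‖ ≤ 2 * c * H * Real.log T ^ 2
    · exact Or.inl ⟨ht1, ht2, hm⟩
    · refine Or.inr ⟨?_, ht1, ht2⟩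
      have h5 := centre2 hE hG hRH (A := A) (B := B) (T := T) (δ := δ) (lam := lam) (m := m)
        hS hT hδ hδ1 hlam (by rw [← hHd]; exact hH) hlT havb ht1 ht2 hcon
      rw [← hR, ← hX, ← hY, ← hHd] at h5
      have h6 := (not_le.1 hm).le.trans h5
      have h7 := hbad (Zn T m lam t) (Zn_iff hM ht1 ht2 (by linarith))
      have h8 : 24 * H / lam * ∑ γ ∈ Zn T m lam t,
          ‖deriv riemannZeta (1 / 2 + γ * I)‖ * ‖pB S β (1 / 2 + γ * I)‖ ≤
          c * H * Real.log T ^ 2 := by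
        refine (mul_le_mul_of_nonneg_left h7.le (by positivity)).trans (le_of_eq ?_)
        field_simp
      show ENNReal.ofReal (c * H * Real.log T ^ 2) ≤ U t
      rw [hU]
      exact enn_four (by norm_num) (mul_nonneg (div_nonneg hH.le (Real.sqrt_nonneg _))
        (norm_nonneg _)) (norm_nonneg _) (hX0 t) (by linarith)
  have hUm : Measurable U := by
    rw [hU]
    exact (((measurable_const).add ((hRm.norm.const_mul _).ennreal_ofReal)).add
      hYm.norm.ennreal_ofReal).add hXm.ennreal_ofReal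
  have hUi : ∫⁻ t in Icc T (2 * T), U t ≤
      ENNReal.ofReal (ε / 2 * T * (c * H * Real.log T ^ 2)) := by
    have e0 : ∫⁻ t in Icc T (2 * T), U t = (∫⁻ t in Icc T (2 * T), ENNReal.ofReal 1) +
        (∫⁻ t in Icc T (2 * T), ENNReal.ofReal (H / Real.sqrt (2 * Real.pi) * ‖R t‖)) +
        (∫⁻ t in Icc T (2 * T), ENNReal.ofReal ‖Y t‖) +
        ∫⁻ t in Icc T (2 * T), ENNReal.ofReal (X t) := by
      rw [hU, lintegral_add_right _ hXm.ennreal_ofReal,
        lintegral_add_right _ hYm.norm.ennreal_ofReal,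
        lintegral_add_right _ (hRm.norm.const_mul _).ennreal_ofReal]
    have e1 : ∫⁻ t in Icc T (2 * T), ENNReal.ofReal 1 = ENNReal.ofReal T := by
      rw [setLIntegral_const, Real.volume_Icc, ENNReal.ofReal_one, one_mul]
      congr 1
      ring
    have e2 : ∫⁻ t in Icc T (2 * T), ENNReal.ofReal (H / Real.sqrt (2 * Real.pi) * ‖R t‖) ≤
        ENNReal.ofReal (H / Real.sqrt (2 * Real.pi) * (ε * c / 8 * T * Real.log T ^ 2)) := by
      have hq : 0 ≤ H / Real.sqrt (2 * Real.pi) := div_nonneg hH.le (Real.sqrt_nonneg _)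
      rw [ENNReal.ofReal_mul hq]
      refine le_trans (le_of_eq ?_) (mul_le_mul_right hSB _)
      rw [← lintegral_const_mul' _ _ ENNReal.ofReal_ne_top]
      apply lintegral_congr
      intro t
      rw [ENNReal.ofReal_mul hq]
    have e3 : ∫⁻ t in Icc T (2 * T), ENNReal.ofReal ‖Y t‖ ≤
        ENNReal.ofReal (m * (H * Real.sqrt (2 * Real.pi)) *
          ∑ γ ∈ ZS1 T m, ‖pB S β (1 / 2 + γ * I)‖) := by
      refine le_trans (le_of_eq ?_) hYi
      apply lintegral_congr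
      intro t
      rw [ofReal_norm]
    have hp1 : 0 ≤ ∑ γ ∈ ZS1 T m, ‖pB S β (1 / 2 + γ * I)‖ :=
      Finset.sum_nonneg fun _ _ => norm_nonneg _
    obtain ⟨P, hP⟩ : ∃ P : ℝ, P = ∑ γ ∈ ZS1 T m, ‖pB S β (1 / 2 + γ * I)‖ := ⟨_, rfl⟩
    rw [← hP] at e3 hp1 hnear
    rw [e0, e1]
    have hT0 : 0 < T := by linarith
    refine (add_le_add (add_le_add (add_le_add le_rfl e2) e3) hfar).trans ?_
    have hs1 : 1 ≤ Real.sqrt (2 * Real.pi) := by
      rw [Real.one_le_sqrt]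
      linarith [Real.pi_gt_three]
    have hs3 : Real.sqrt (2 * Real.pi) ≤ 3 := by
      rw [Real.sqrt_le_left (by norm_num)]
      linarith [Real.pi_le_four]
    have hs0 : 0 ≤ Real.sqrt (2 * Real.pi) := Real.sqrt_nonneg _
    refine enn_four' hT0.le (mul_nonneg (div_nonneg hH.le hs0) (by positivity))
      (mul_nonneg (mul_nonneg hM.le (mul_nonneg hH.le hs0)) hp1) hT0.le ?_
    obtain ⟨G, hGd⟩ : ∃ G : ℝ, G = H * Real.log T ^ 2 * T := ⟨_, rfl⟩
    have n1 : 2 * T ≤ ε * c / 8 * G := by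
      have h5 := mul_le_mul_of_nonneg_right hLε hT0.le
      rw [hGd]
      linarith
    have n2 : H / Real.sqrt (2 * Real.pi) * (ε * c / 8 * T * Real.log T ^ 2) ≤
        ε * c / 8 * G := by
      have h5 : H / Real.sqrt (2 * Real.pi) ≤ H := div_le_self hH.le hs1
      have h6 : 0 ≤ ε * c / 8 * T * Real.log T ^ 2 := by positivity
      have h7 := mul_le_mul_of_nonneg_right h5 h6
      rw [hGd]
      linarith
    have n3 : m * (H * Real.sqrt (2 * Real.pi)) * P ≤ ε * c / 8 * G := by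
      have h5 : m * (H * Real.sqrt (2 * Real.pi)) * P ≤ m * (H * 3) * P :=
        mul_le_mul_of_nonneg_right (mul_le_mul_of_nonneg_left
          (mul_le_mul_of_nonneg_left hs3 hH.le) hM.le) hp1
      have h6 := mul_le_mul_of_nonneg_left hnear hH.le
      rw [hGd]
      linarith
    have n4 : ε / 2 * T * (c * H * Real.log T ^ 2) = ε * c / 2 * G := by
      rw [hGd]
      ring
    rw [n4]
    have n5 : 0 ≤ ε * c * G := by
      rw [hGd]
      positivity
    linarith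
  have hmark : volume ({t : ℝ | ENNReal.ofReal (c * H * Real.log T ^ 2) ≤ U t} ∩
      Icc T (2 * T)) ≤ ENNReal.ofReal (ε / 2 * T) := by
    have h5 := mul_meas_ge_le_lintegral (μ := volume.restrict (Icc T (2 * T))) hUm
      (ENNReal.ofReal (c * H * Real.log T ^ 2))
    rw [Measure.restrict_apply' measurableSet_Icc] at h5
    have h6 := h5.trans hUi
    have hpos : 0 < c * H * Real.log T ^ 2 := by positivity
    have hεT : 0 ≤ ε / 2 * T := by
      have : 0 < T := by linarith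
      positivity
    rw [ENNReal.ofReal_mul hεT, mul_comm (ENNReal.ofReal (ε / 2 * T))] at h6
    exact (ENNReal.mul_le_mul_iff_right (by
      rw [Ne, ENNReal.ofReal_eq_zero, not_le]
      exact hpos) ENNReal.ofReal_ne_top).1 h6
  have hεT : 0 ≤ ε / 2 * T := by
    have : 0 < T := by linarith
    positivity
  refine (measure_mono hsub).trans ((measure_union_le _ _).trans
    ((add_le_add hmain hmark).trans (le_of_eq ?_)))
  rw [← ENNReal.ofReal_add hεT hεT]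
  congr 1
  ring

/-- NEAR for a given polynomial with the multiscale structure. -/
theorem near0 (hdx : DX1Statement) (herb : ERBStatement)
    (hcon : CONBStatement) (havb : AVBStatement) (hmain : MAINBStatement) (hfar : FARBStatement)
    (hzdb : ZDBStatement) (hG : GAMCStatement) (hE : ETRStatement) (hRH : RiemannHypothesis) :
    ∃ c : ℝ, 0 < c ∧ ∀ ε : ℝ, 0 < ε → ∃ ν : ℝ, 0 < ν ∧ ν ≤ 1 ∧ ∀ w : ℝ, 2 ≤ w →
      ∃ lam κ : ℝ, 1 ≤ lam ∧ 0 < κ ∧ ∃ T0 : ℝ, 10 < T0 ∧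
        ∀ (T g : ℝ) (K : ℕ) (S : Finset ℕ) (β : ℕ → ℝ) (S' : ℕ → Finset ℕ) (β' : ℕ → ℕ → ℝ),
          T0 ≤ T → 1200 * Real.log (Real.log T) ≤ pk w K →
          pk w K ≤ (1200 * Real.log (Real.log T)) ^ 2 →
          Scl w K S β S' β' (Real.exp (Real.log (Real.log T) ^ 5)) ν →
          0 < g → g ^ 2 ≤ κ ^ 2 * Real.log T → ∑ m ∈ S, β m ^ 2 / m ≤ (κ / g) ^ 2 →
          volume {t : ℝ | T ≤ t ∧ t ≤ 2 * T ∧ ∀ F : Finset ℝ,
            (∀ γ : ℝ, γ ∈ F ↔ γ ∈ zs t lam (g * Real.log T)) →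
            ∑ γ ∈ F, ‖deriv riemannZeta (1 / 2 + γ * I)‖ * ‖pB S β (1 / 2 + γ * I)‖ <
              c * lam * Real.log T ^ 2} ≤ ENNReal.ofReal (ε * T) := by
  obtain ⟨A, B, D, hD⟩ := hdx hRH
  obtain ⟨c0, hc0, hmain1⟩ := hmain A B
  obtain ⟨Cp, Tp, hCp, hTp, hpb⟩ := pB_sum hzdb hRH
  obtain ⟨c, hcd⟩ : ∃ c : ℝ, c = c0 / 2 := ⟨_, rfl⟩
  have hc : 0 < c := by rw [hcd]; positivity
  refine ⟨c / 24, by positivity, fun ε hε => ?_⟩
  obtain ⟨lamM, hlamM, hmain2⟩ := hmain1 (ε / 2) (by positivity)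
  obtain ⟨νE, hνE0, hνE1, herb1⟩ := herb hRH A B D hD (ε * c / 8) (by positivity)
  refine ⟨νE, hνE0, hνE1, fun w hw => ?_⟩
  obtain ⟨lamE, hlamE, herb2⟩ := herb1 w hw
  obtain ⟨lam, hlam⟩ : ∃ lam : ℝ, lam = max lamM lamE := ⟨_, rfl⟩
  have hlM : lamM ≤ lam := by rw [hlam]; exact le_max_left _ _
  have hlE : lamE ≤ lam := by rw [hlam]; exact le_max_right _ _
  have hl1 : 1 ≤ lam := hlamM.trans hlM
  have hl0 : 0 < lam := by linarith
  obtain ⟨Tm, hTm, hmain3⟩ := hmain2 lam hlM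
  obtain ⟨Te, hTe, herb3⟩ := herb2 lam hlE
  obtain ⟨Tf, hTf, hfar1⟩ := hfar hRH lam hl1
  obtain ⟨Tc, hcon1⟩ := eventually_atTop.1 (hcon hRH A B)
  obtain ⟨κ, hκ⟩ : ∃ κ : ℝ, κ = ε * c / (24 * Cp) := ⟨_, rfl⟩
  have hκ0 : 0 < κ := by rw [hκ]; positivity
  refine ⟨lam, κ, hl1, hκ0, ?_⟩
  have hlog : Tendsto Real.log atTop atTop := Real.tendsto_log_atTop
  obtain ⟨T2, h2⟩ := eventually_atTop.1 ((hlog.comp hlog).eventually_ge_atTop 1)
  obtain ⟨T3, h3⟩ := eventually_atTop.1 (hlog.eventually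
    ((Real.isLittleO_pow_log_id_atTop (n := 1)).bound (c := 1 / 10) (by positivity)))
  obtain ⟨T4, h4⟩ := eventually_atTop.1 (hlog.eventually_ge_atTop
    (max 1 (max (16 / (ε * c)) lam)))
  obtain ⟨T0, hT0⟩ : ∃ T0 : ℝ, T0 = max (max (max Tm Te) (max Tf Tc)) (max Tp
    (max T2 (max (max T3 T4) (2 * lam)))) := ⟨_, rfl⟩
  refine ⟨T0, ?_, fun T g K S β S' β' hT hK1 hK2 hS hg hgL hSq => ?_⟩
  · rw [hT0]
    exact lt_max_of_lt_left (lt_max_of_lt_left (lt_max_of_lt_left hTm))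
  rw [hT0] at hT
  have hTTm : Tm ≤ T := le_trans (le_max_of_le_left (le_max_of_le_left (le_max_left _ _))) hT
  have hTTe : Te ≤ T := le_trans (le_max_of_le_left (le_max_of_le_left (le_max_right _ _))) hT
  have hTTf : Tf ≤ T := le_trans (le_max_of_le_left (le_max_of_le_right (le_max_left _ _))) hT
  have hTTc : Tc ≤ T := le_trans (le_max_of_le_left (le_max_of_le_right (le_max_right _ _))) hT
  replace hT := (le_max_right _ _).trans hT
  have hTTp : Tp ≤ T := le_trans (le_max_left _ _) hT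
  replace hT := (le_max_right _ _).trans hT
  have hTT2 : T2 ≤ T := le_trans (le_max_left _ _) hT
  replace hT := (le_max_right _ _).trans hT
  have hTT3 : T3 ≤ T := le_trans (le_max_of_le_left (le_max_left _ _)) hT
  have hTT4 : T4 ≤ T := le_trans (le_max_of_le_left (le_max_right _ _)) hT
  have hTl : 2 * lam ≤ T := (le_max_right _ _).trans hT
  clear hT
  have hT10 : 10 < T := by linarith
  have hTpos : 0 < T := by linarith
  have hl : 1 ≤ Real.log (Real.log T) := h2 T hTT2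
  have h4' := h4 T hTT4
  have hL1 : 1 ≤ Real.log T := (le_max_left _ _).trans h4'
  have hLε : 16 / (ε * c) ≤ Real.log T := le_trans (le_max_of_le_right (le_max_left _ _)) h4'
  have hLlam : lam ≤ Real.log T := le_trans (le_max_of_le_right (le_max_right _ _)) h4'
  have hL0 : 0 < Real.log T := by linarith
  have hl10 : 10 * Real.log (Real.log T) ≤ Real.log T := by
    have h := h3 T hTT3
    simp only [id, pow_one] at h
    rw [Real.norm_of_nonneg (by linarith), Real.norm_of_nonneg (by linarith)] at h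
    linarith
  have hM1 : Mol S β (Real.exp (Real.log (Real.log T) ^ 5)) 1 := mol_mono hS.mol hνE1
  obtain ⟨δ, hδ, hSB⟩ := herb3 T K S β S' β' hTTe hK1 hK2 hS
  have hδ0 : 0 < δ := lt_of_lt_of_le (by positivity) hδ.1
  have hδ1 : δ ≤ 1 / 2 := by
    refine hδ.2.trans ?_
    rw [div_le_iff₀ hTpos]
    linarith
  have hsl1 : 1 ≤ Real.sqrt (Real.log (Real.log T)) := by
    rw [Real.one_le_sqrt]
    exact hl
  have hH0 : 0 < HH T lam := by
    unfold HH
    positivity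
  have hHL : 1 ≤ HH T lam * Real.log T := by
    unfold HH
    rw [div_mul_eq_mul_div, le_div_iff₀ (by positivity)]
    have hs2 : Real.sqrt (Real.log (Real.log T)) ≤ Real.log (Real.log T) := by
      have h5 := Real.sq_sqrt (by linarith : 0 ≤ Real.log (Real.log T))
      nlinarith
    nlinarith
  have hbm := hmain3 T δ S β hTTm hδ.1 hδ.2 hM1
  have hc2 : c0 = 2 * c := by rw [hcd]; ring
  rw [hc2] at hbm
  refine step2 hE hG hRH (A := A) (B := B) (T := T) (δ := δ) (lam := lam) (c := c) (ε := ε)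
    (S := S) (β := β) hS.mol.one_le hT10 hδ0 hδ1 hl0 hH0 (by linarith) havb
    (m := g * Real.log T) (by positivity) hc hε hL0
    (fun x hx1 hx2 => hcon1 T hTTc x δ lam S β hx1 hx2 hδ.1 hδ.2 hl1 hLlam hM1) hbm hSB
    (hfar1 T S β hTTf hM1) ?_ ?_
  · have h7 := hpb T (κ / g) S β (ZS1 T (g * Real.log T)) hTTp (by positivity) hM1
      (fun γ hγ => (mem_ZS1.1 hγ).1) hSq (by
        rw [div_pow, mul_div_assoc', le_div_iff₀ (by positivity), one_mul, mul_comm]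
        exact hgL)
    refine (mul_le_mul_of_nonneg_left h7 (by positivity)).trans (le_of_eq ?_)
    rw [hκ]
    field_simp
  · rw [div_le_iff₀ (by positivity)] at hLε
    have h9 : Real.log T ≤ HH T lam * Real.log T ^ 2 := by
      have := mul_le_mul_of_nonneg_right hHL hL0.le
      nlinarith
    have h10 := mul_le_mul_of_nonneg_right h9 (by positivity : 0 ≤ ε * c)
    linarith

end Pool.Agent.Lib.MP_6bc78b_nt.GP.H91N
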