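import Pool.Agent.Lib.MP_6bc78b_nt.GP.H62.Defs7

/-! Project GP10 (MP_6bc78b_nt), step (5) of finding 5600: one piece of the window, whose
frequencies are below the logarithms of the primes of one scale, is tested against a band of
positive frequencies. Generic form. -/

set_option autoImplicit false

open Complex Filter Topology MeasureTheory ArithmeticFunction Set
open scoped ENNReal

namespace Pool.Agent.Lib.MP_6bc78b_nt.GP.H91

open Pool.Agent.Lib.MP_6bc78b_nt.MS Pool.Agent.Lib.MP_6bc78b_nt.MS.P1
open Pool.Agent.Lib.MP_6bc78b_nt.GP Pool.Agent.Lib.MP_6bc78b_nt.GP.G7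

/-- `∑_{q ∈ S} q^{-1/2 - it}`. -/
noncomputable def BS (S : Finset ℕ) (t : ℝ) : ℂ :=
  ∑ q ∈ S, (((q : ℝ) ^ (-(1 / 2) : ℝ) : ℝ) : ℂ) * Complex.exp (-(Real.log q * t * I))

/-- The transform of `φ`. -/
noncomputable def FT (φ : ℝ → ℂ) (u : ℝ) : ℂ := ∫ x : ℝ, φ x * Complex.exp (-(u * x * I))

/-- The band integral. -/
noncomputable def GB (g : ℝ → ℂ) (a b t : ℝ) : ℂ := ∫ v in Icc a b, g v * Complex.exp (v * t * I)

lemma norm_exp_I1 (x y : ℝ) : ‖Complex.exp (-(x * y * I : ℂ))‖ = 1 := by
  have h : (-(x * y * I) : ℂ) = ((-(x * y) : ℝ) : ℂ) * I := by push_cast; ring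
  rw [h, Complex.norm_exp_ofReal_mul_I]

lemma norm_exp_I2 (x y : ℝ) : ‖Complex.exp ((x * y * I : ℂ))‖ = 1 := by
  have h : ((x * y * I) : ℂ) = ((x * y : ℝ) : ℂ) * I := by push_cast; ring
  rw [h, Complex.norm_exp_ofReal_mul_I]

lemma FT_cont {φ : ℝ → ℂ} (hφ : Integrable φ) : Continuous (FT φ) := by
  unfold FT
  refine continuous_of_dominated (F := fun u x : ℝ => φ x * Complex.exp (-(u * x * I)))
    (bound := fun x => ‖φ x‖) ?_ ?_ hφ.norm ?_
  · intro u
    exact hφ.aestronglyMeasurable.mul
      (Continuous.aestronglyMeasurable (by fun_prop))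
  · intro u
    refine Filter.Eventually.of_forall fun x => ?_
    rw [norm_mul, norm_exp_I1, mul_one]
  · refine Filter.Eventually.of_forall fun x => ?_
    fun_prop

lemma GB_cont {g : ℝ → ℂ} {a b : ℝ} (hg : IntegrableOn g (Icc a b)) : Continuous (GB g a b) := by
  unfold GB
  refine continuous_of_dominated (F := fun t v : ℝ => g v * Complex.exp (v * t * I))
    (bound := fun v => ‖g v‖) ?_ ?_ hg.norm ?_
  · intro u
    exact hg.aestronglyMeasurable.mul
      (Continuous.aestronglyMeasurable (by fun_prop))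
  · intro u
    refine Filter.Eventually.of_forall fun x => ?_
    rw [norm_mul, norm_exp_I2, mul_one]
  · refine Filter.Eventually.of_forall fun x => ?_
    fun_prop

lemma BS_cont (S : Finset ℕ) : Continuous (BS S) := by
  unfold BS
  fun_prop

/-- One prime. -/
lemma one_q {φ : ℝ → ℂ} (hφ : Integrable φ) {g : ℝ → ℂ} (hg : Continuous g) {a b l : ℝ}
    (hsup : ∀ v, v ∉ Icc a b → FT φ (v - l) = 0) (t : ℝ) :
    Integrable (fun u : ℝ => FT φ u * g (u + l) * Complex.exp (u * t * I)) ∧
    ∫ u : ℝ, FT φ u * g (u + l) * Complex.exp (u * t * I) =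
      Complex.exp (-(l * t * I)) * ∫ x : ℝ, φ x * (Complex.exp (l * x * I) * GB g a b (t - x)) := by
  have hgI : IntegrableOn g (Icc a b) := hg.continuousOn.integrableOn_Icc
  have hF : Continuous (FT φ) := FT_cont hφ
  have hprod : Integrable (fun z : ℝ × ℝ => (g z.1 * Complex.exp (z.1 * t * I)) *
      (φ z.2 * Complex.exp (-((z.1 - l) * z.2 * I)))) ((volume.restrict (Icc a b)).prod volume) := by
    have h0 : Integrable (fun z : ℝ × ℝ => g z.1 * φ z.2)
        ((volume.restrict (Icc a b)).prod volume) := hgI.mul_prod hφ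
    refine h0.norm.mono' ?_ ?_
    · have h1 : (fun z : ℝ × ℝ => (g z.1 * Complex.exp (z.1 * t * I)) *
          (φ z.2 * Complex.exp (-((z.1 - l) * z.2 * I)))) = fun z : ℝ × ℝ => (g z.1 * φ z.2) *
          (Complex.exp (z.1 * t * I) * Complex.exp (-((z.1 - l) * z.2 * I))) := by
        funext z
        ring
      rw [h1]
      exact h0.aestronglyMeasurable.mul (Continuous.aestronglyMeasurable (by fun_prop))
    · refine Filter.Eventually.of_forall fun z => ?_
      have h2 : (-((z.1 - l) * z.2 * I) : ℂ) = -(((z.1 - l : ℝ) : ℂ) * (z.2 : ℂ) * I) := by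
        push_cast
        ring
      rw [norm_mul, norm_mul, norm_mul, norm_exp_I2, h2, norm_exp_I1, mul_one, mul_one, norm_mul]
  -- the function of `v`
  have hcomp : Integrable (fun v : ℝ => FT φ (v - l) * g v * Complex.exp ((v - l) * t * I)) := by
    have hc : Continuous (fun v : ℝ => FT φ (v - l) * g v * Complex.exp ((v - l) * t * I)) := by
      have := hF.comp (continuous_id.sub (continuous_const (y := l)))
      have h3 : Continuous (fun v : ℝ => FT φ (v - l)) := this
      fun_prop
    refine (integrableOn_iff_integrable_of_support_subset ?_).mp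
      (hc.continuousOn.integrableOn_Icc (a := a) (b := b))
    intro v hv
    by_contra hn
    exact hv (by simp only [hsup v hn, zero_mul])
  have hshift : ∀ u : ℝ, FT φ u * g (u + l) * Complex.exp (u * t * I) =
      (fun v : ℝ => FT φ (v - l) * g v * Complex.exp ((v - l) * t * I)) (u + l) := by
    intro u
    simp only [add_sub_cancel_right]
    congr 2
    push_cast
    ring
  constructor
  · have := hcomp.comp_add_right l
    refine this.congr (Filter.Eventually.of_forall fun u => ?_)
    exact (hshift u).symm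
  · calc ∫ u : ℝ, FT φ u * g (u + l) * Complex.exp (u * t * I)
        = ∫ u : ℝ, (fun v : ℝ => FT φ (v - l) * g v * Complex.exp ((v - l) * t * I)) (u + l) :=
          integral_congr_ae (Filter.Eventually.of_forall hshift)
      _ = ∫ v : ℝ, FT φ (v - l) * g v * Complex.exp ((v - l) * t * I) :=
          integral_add_right_eq_self (fun v : ℝ => FT φ (v - l) * g v *
            Complex.exp ((v - l) * t * I)) l
      _ = ∫ v in Icc a b, FT φ (v - l) * g v * Complex.exp ((v - l) * t * I) := by
          symm
          apply setIntegral_eq_integral_of_forall_compl_eq_zero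
          intro v hv
          simp only [hsup v hv, zero_mul]
      _ = ∫ v in Icc a b, ∫ x : ℝ, Complex.exp (-(l * t * I)) *
            ((g v * Complex.exp (v * t * I)) * (φ x * Complex.exp (-((v - l) * x * I)))) := by
          apply integral_congr_ae
          refine Filter.Eventually.of_forall fun v => ?_
          simp only [FT]
          rw [integral_const_mul, integral_const_mul]
          have h4 : Complex.exp ((v - l) * t * I) = Complex.exp (-(l * t * I)) *
              Complex.exp (v * t * I) := by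
            rw [← Complex.exp_add]
            congr 1
            ring
          rw [h4]
          push_cast
          ring
      _ = ∫ x : ℝ, ∫ v in Icc a b, Complex.exp (-(l * t * I)) *
            ((g v * Complex.exp (v * t * I)) * (φ x * Complex.exp (-((v - l) * x * I)))) :=
          integral_integral_swap (hprod.const_mul (Complex.exp (-(l * t * I))))
      _ = Complex.exp (-(l * t * I)) *
            ∫ x : ℝ, φ x * (Complex.exp (l * x * I) * GB g a b (t - x)) := by
          rw [← integral_const_mul]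
          apply integral_congr_ae
          refine Filter.Eventually.of_forall fun x => ?_
          simp only [GB]
          rw [integral_const_mul]
          congr 1
          rw [← integral_const_mul, ← integral_const_mul]
          apply integral_congr_ae
          refine Filter.Eventually.of_forall fun v => ?_
          have h5 : Complex.exp (v * t * I) * Complex.exp (-((v - l) * x * I)) =
              Complex.exp (l * x * I) * Complex.exp (v * ((t - x : ℝ) : ℂ) * I) := by
            rw [← Complex.exp_add, ← Complex.exp_add]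
            congr 1
            push_cast
            ring
          calc (g v * Complex.exp (v * t * I)) * (φ x * Complex.exp (-((v - l) * x * I)))
              = (g v * φ x) * (Complex.exp (v * t * I) * Complex.exp (-((v - l) * x * I))) := by
                ring
            _ = (g v * φ x) * (Complex.exp (l * x * I) *
                  Complex.exp (v * ((t - x : ℝ) : ℂ) * I)) := by rw [h5]
            _ = _ := by ring

/-- The piece is the convolution of `φ` with the product of the polynomial and the band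
integral. -/
lemma piece_eq {φ : ℝ → ℂ} (hφ : Integrable φ) {g : ℝ → ℂ} (hg : Continuous g) {a b : ℝ}
    (S : Finset ℕ) (hsup : ∀ q ∈ S, ∀ v, v ∉ Icc a b → FT φ (v - Real.log q) = 0) (t : ℝ) :
    ∫ u : ℝ, FT φ u * (∑ q ∈ S, (((q : ℝ) ^ (-(1 / 2) : ℝ) : ℝ) : ℂ) * g (u + Real.log q)) *
      Complex.exp (u * t * I) = ∫ x : ℝ, φ x * (BS S (t - x) * GB g a b (t - x)) := by
  have hgI : IntegrableOn g (Icc a b) := hg.continuousOn.integrableOn_Icc
  have hGc := GB_cont hgI
  -- integrability in `x`
  have hbd : ∀ s, ‖GB g a b s‖ ≤ ∫ v in Icc a b, ‖g v‖ := by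
    intro s
    refine (norm_integral_le_integral_norm _).trans (le_of_eq ?_)
    apply integral_congr_ae
    refine Filter.Eventually.of_forall fun v => ?_
    simp only [norm_mul, norm_exp_I2, mul_one]
  have hint : ∀ l : ℝ, Integrable (fun x : ℝ => φ x * (Complex.exp (l * x * I) *
      GB g a b (t - x))) := by
    intro l
    have hGt : Continuous (fun x : ℝ => GB g a b (t - x)) :=
      hGc.comp (continuous_const.sub continuous_id)
    refine (hφ.norm.mul_const (∫ v in Icc a b, ‖g v‖)).mono'
      (hφ.aestronglyMeasurable.mul (Continuous.aestronglyMeasurable (by fun_prop))) ?_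
    refine Filter.Eventually.of_forall fun x => ?_
    rw [norm_mul, norm_mul, norm_exp_I2, one_mul]
    exact mul_le_mul_of_nonneg_left (hbd _) (norm_nonneg _)
  calc ∫ u : ℝ, FT φ u * (∑ q ∈ S, (((q : ℝ) ^ (-(1 / 2) : ℝ) : ℝ) : ℂ) * g (u + Real.log q)) *
      Complex.exp (u * t * I)
      = ∫ u : ℝ, ∑ q ∈ S, (((q : ℝ) ^ (-(1 / 2) : ℝ) : ℝ) : ℂ) *
          (FT φ u * g (u + Real.log q) * Complex.exp (u * t * I)) := by
        apply integral_congr_ae
        refine Filter.Eventually.of_forall fun u => ?_
        simp only [Finset.mul_sum, Finset.sum_mul]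
        apply Finset.sum_congr rfl
        intro q _
        ring
    _ = ∑ q ∈ S, (((q : ℝ) ^ (-(1 / 2) : ℝ) : ℝ) : ℂ) *
          ∫ u : ℝ, FT φ u * g (u + Real.log q) * Complex.exp (u * t * I) := by
        rw [integral_finsetSum]
        · apply Finset.sum_congr rfl
          intro q _
          rw [integral_const_mul]
        · intro q hq
          exact ((one_q hφ hg (hsup q hq) t).1).const_mul _
    _ = ∑ q ∈ S, ∫ x : ℝ, (((q : ℝ) ^ (-(1 / 2) : ℝ) : ℝ) : ℂ) *
          Complex.exp (-(Real.log q * t * I)) *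
          (φ x * (Complex.exp (Real.log q * x * I) * GB g a b (t - x))) := by
        apply Finset.sum_congr rfl
        intro q hq
        rw [(one_q hφ hg (hsup q hq) t).2, integral_const_mul]
        ring
    _ = ∫ x : ℝ, ∑ q ∈ S, (((q : ℝ) ^ (-(1 / 2) : ℝ) : ℝ) : ℂ) *
          Complex.exp (-(Real.log q * t * I)) *
          (φ x * (Complex.exp (Real.log q * x * I) * GB g a b (t - x))) := by
        rw [integral_finsetSum]
        intro q _
        exact (hint _).const_mul _
    _ = ∫ x : ℝ, φ x * (BS S (t - x) * GB g a b (t - x)) := by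
        apply integral_congr_ae
        refine Filter.Eventually.of_forall fun x => ?_
        simp only [BS, Finset.mul_sum, Finset.sum_mul]
        apply Finset.sum_congr rfl
        intro q _
        have h6 : Complex.exp (-(Real.log q * ((t - x : ℝ) : ℂ) * I)) =
            Complex.exp (-(Real.log q * t * I)) * Complex.exp (Real.log q * x * I) := by
          rw [← Complex.exp_add]
          congr 1
          push_cast
          ring
        rw [h6]
        ring

/-- Mean value theorem on any interval of length `T`. -/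
theorem BS_ms (hM : MVTXStatement) : ∃ C : ℝ, 0 < C ∧ ∀ (S : Finset ℕ) (T a : ℝ), 1 ≤ T →
    (∀ q ∈ S, 1 ≤ q) →
    ∫⁻ t in Icc a (a + T), ‖BS S t‖ₑ ^ 2 ≤ ENNReal.ofReal (C * ∑ q ∈ S, (T + q) / q) := by
  classical
  obtain ⟨C, hC, hMV⟩ := hM
  refine ⟨Real.exp 1 * C, by positivity, fun S T a hT hS => ?_⟩
  have hT0 : 0 < T := by linarith
  set N : ℕ := S.sup id with hN
  set c : ℕ → ℂ := fun n => if n ∈ S then (((n : ℝ) ^ (1 / 2 : ℝ) : ℝ) : ℂ) *
    Complex.exp (-(Real.log n * a * I)) else 0 with hc
  have hSN : S ⊆ Finset.Icc 1 N := by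
    intro q hq
    rw [Finset.mem_Icc]
    exact ⟨hS q hq, Finset.le_sup (f := id) hq⟩
  have hBD : ∀ t : ℝ, BS S (a + t) = DP c N t := by
    intro t
    have h1 : DP c N t = ∑ n ∈ S, c n * (n : ℂ) ^ (-(1 + t * I : ℂ)) := by
      unfold DP
      symm
      apply Finset.sum_subset hSN
      intro n _ hn
      simp only [hc, if_neg hn, zero_mul]
    rw [h1]
    unfold BS
    apply Finset.sum_congr rfl
    intro q hq
    have hq1 : 1 ≤ q := hS q hq
    have hq0 : (0 : ℝ) < q := by exact_mod_cast hq1
    simp only [hc, if_pos hq]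
    have h2 : (q : ℂ) ^ (-(1 + t * I : ℂ)) = (((q : ℝ) ^ (-1 : ℝ) : ℝ) : ℂ) *
        Complex.exp (-(Real.log q * t * I)) := by
      have hqc : (q : ℂ) ≠ 0 := by exact_mod_cast (by omega : q ≠ 0)
      have e1 : (-(1 + t * I : ℂ)) = (((-1 : ℝ) : ℝ) : ℂ) + (-(t * I)) := by push_cast; ring
      rw [e1, Complex.cpow_add _ _ hqc]
      congr 1
      · rw [Complex.ofReal_cpow hq0.le]
        norm_cast
      · rw [Complex.cpow_def_of_ne_zero hqc]
        congr 1
        rw [← Complex.natCast_log]
        ring
    rw [h2]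
    have h3 : (((q : ℝ) ^ (-(1 / 2) : ℝ) : ℝ) : ℂ) = (((q : ℝ) ^ (1 / 2 : ℝ) : ℝ) : ℂ) *
        (((q : ℝ) ^ (-1 : ℝ) : ℝ) : ℂ) := by
      rw [← Complex.ofReal_mul, ← Real.rpow_add hq0]
      norm_num
    have h4 : Complex.exp (-(Real.log q * ((a + t : ℝ) : ℂ) * I)) =
        Complex.exp (-(Real.log q * a * I)) * Complex.exp (-(Real.log q * t * I)) := by
      rw [← Complex.exp_add]
      congr 1
      push_cast
      ring
    rw [h3, h4]
    ring
  have hcn : ∀ n ∈ S, ‖c n‖ ^ 2 = (n : ℝ) := by
    intro n hn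
    simp only [hc, if_pos hn]
    rw [norm_mul, norm_exp_I1, mul_one, Complex.norm_real, Real.norm_eq_abs, sq_abs,
      ← Real.rpow_natCast, ← Real.rpow_mul (Nat.cast_nonneg n)]
    norm_num
  have hsum : ∑ n ∈ Finset.Icc 1 N, (1 / (1 / T) + n) * ‖c n‖ ^ 2 / (n : ℝ) ^ 2 =
      ∑ q ∈ S, (T + q) / q := by
    symm
    rw [← Finset.sum_subset hSN]
    · apply Finset.sum_congr rfl
      intro n hn
      have hn0 : (0 : ℝ) < n := by exact_mod_cast hS n hn
      rw [hcn n hn, one_div_one_div]
      field_simp
    · intro n _ hn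
      simp only [hc, if_neg hn]
      simp
  have hmv := hMV N c (1 / T) (by positivity) (by rw [div_le_one hT0]; exact hT)
  rw [hsum] at hmv
  have hshift : ∫⁻ t in Icc a (a + T), ‖BS S t‖ₑ ^ 2 = ∫⁻ t in Icc 0 T, ‖BS S (a + t)‖ₑ ^ 2 := by
    have e := (measurePreserving_add_left (volume : Measure ℝ) a).setLIntegral_comp_preimage
      (s := Icc a (a + T)) measurableSet_Icc
      (f := fun t => ‖BS S t‖ₑ ^ 2) ((BS_cont S).measurable.enorm.pow_const 2)
    rw [← e]
    congr 2
    ext t
    simp only [mem_Icc, mem_preimage]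
    constructor <;> rintro ⟨h, h'⟩ <;> constructor <;> linarith
  rw [hshift]
  calc ∫⁻ t in Icc 0 T, ‖BS S (a + t)‖ₑ ^ 2
      ≤ ∫⁻ t in Icc 0 T, ENNReal.ofReal (Real.exp 1) *
          ENNReal.ofReal (‖DP c N t‖ ^ 2 * Real.exp (-(1 / T * |t|))) := by
        apply setLIntegral_mono' measurableSet_Icc
        intro t ht
        rw [hBD t, ← ENNReal.ofReal_mul (Real.exp_pos 1).le]
        have h5 : ‖DP c N t‖ₑ ^ 2 = ENNReal.ofReal (‖DP c N t‖ ^ 2) := by
          rw [ENNReal.ofReal_pow (norm_nonneg _), ofReal_norm]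
        rw [h5]
        apply ENNReal.ofReal_le_ofReal
        have h6 : 1 ≤ Real.exp 1 * Real.exp (-(1 / T * |t|)) := by
          rw [← Real.exp_add]
          apply Real.one_le_exp
          rw [abs_of_nonneg ht.1]
          have : 1 / T * t ≤ 1 := by
            rw [div_mul_eq_mul_div, one_mul, div_le_one hT0]
            exact ht.2
          linarith
        nlinarith [sq_nonneg ‖DP c N t‖]
    _ ≤ ENNReal.ofReal (Real.exp 1) *
          ∫⁻ t : ℝ, ENNReal.ofReal (‖DP c N t‖ ^ 2 * Real.exp (-(1 / T * |t|))) := by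
        rw [lintegral_const_mul' _ _ ENNReal.ofReal_ne_top]
        exact mul_le_mul_right (setLIntegral_le_lintegral _ _) _
    _ ≤ ENNReal.ofReal (Real.exp 1) * ENNReal.ofReal (C * ∑ q ∈ S, (T + q) / q) :=
        mul_le_mul_right hmv _
    _ = ENNReal.ofReal (Real.exp 1 * C * ∑ q ∈ S, (T + q) / q) := by
        rw [← ENNReal.ofReal_mul (Real.exp_pos 1).le, mul_assoc]

/-- Plancherel for the band integral. -/
theorem GB_ms (hP : PLCStatement) {g : ℝ → ℂ} {a b : ℝ} (hg : IntegrableOn g (Icc a b)) :
    ∫⁻ t : ℝ, ‖GB g a b t‖ₑ ^ 2 ≤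
      ENNReal.ofReal (2 * Real.pi) * ∫⁻ v in Icc a b, ‖g v‖ₑ ^ 2 := by
  have hgi : Integrable ((Icc a b).indicator g) := hg.integrable_indicator measurableSet_Icc
  have h := hP _ hgi
  have e1 : ∀ t : ℝ, GB g a b t = ∫ w : ℝ, (Icc a b).indicator g w * Complex.exp (t * w * I) := by
    intro t
    unfold GB
    rw [← integral_indicator measurableSet_Icc]
    apply integral_congr_ae
    refine Filter.Eventually.of_forall fun v => ?_
    by_cases hv : v ∈ Icc a b
    · simp only [Set.indicator_of_mem hv]
      rw [mul_comm (v : ℂ) (t : ℂ)]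
    · simp only [Set.indicator_of_notMem hv, zero_mul]
  have e2 : ∀ t : ℝ, ‖GB g a b t‖ₑ ^ 2 =
      ENNReal.ofReal (‖∫ w : ℝ, (Icc a b).indicator g w * Complex.exp (t * w * I)‖ ^ 2) := by
    intro t
    rw [e1 t, ENNReal.ofReal_pow (norm_nonneg _), ofReal_norm]
  simp only [e2]
  refine h.trans (le_of_eq ?_)
  congr 1
  rw [← lintegral_indicator measurableSet_Icc]
  apply lintegral_congr
  intro v
  by_cases hv : v ∈ Icc a b
  · simp only [Set.indicator_of_mem hv]
    rw [ENNReal.ofReal_pow (norm_nonneg _), ofReal_norm]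
  · simp only [Set.indicator_of_notMem hv]
    simp

end Pool.Agent.Lib.MP_6bc78b_nt.GP.H91
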