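import Pool.Agent.Lib.MP_6bc78b_nt.GP.H91.Piece
import Pool.Agent.Lib.MP_6bc78b_nt.GP.H99.Phys

/-! Project GP10 (MP_6bc78b_nt), step (5) of finding 5600: the bound for one piece. -/

set_option autoImplicit false

open Complex Filter Topology MeasureTheory ArithmeticFunction Set
open scoped ENNReal

namespace Pool.Agent.Lib.MP_6bc78b_nt.GP.H91

open Pool.Agent.Lib.MP_6bc78b_nt.MS Pool.Agent.Lib.MP_6bc78b_nt.MS.P1
open Pool.Agent.Lib.MP_6bc78b_nt.GP Pool.Agent.Lib.MP_6bc78b_nt.GP.G7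

/-- One piece in `L¹`: the norm of `φ`, the mean square of the polynomial, the band energy. -/
theorem piece_bound (hM : MVTXStatement) (hP : PLCStatement) : ∃ C : ℝ, 0 < C ∧
    ∀ (S : Finset ℕ) (T c : ℝ) (φ g : ℝ → ℂ) (a b : ℝ) (E : ℝ≥0∞), 1 ≤ T →
    (∀ q ∈ S, 1 ≤ q ∧ (q : ℝ) ≤ T) → Integrable φ → Continuous g →
    (∀ q ∈ S, ∀ v, v ∉ Icc a b → FT φ (v - Real.log q) = 0) →
    ∫⁻ v in Icc a b, ‖g v‖ₑ ^ 2 ≤ E →
    ∫⁻ t in Icc c (c + T), ‖∫ u : ℝ, FT φ u *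
        (∑ q ∈ S, (((q : ℝ) ^ (-(1 / 2) : ℝ) : ℝ) : ℂ) * g (u + Real.log q)) *
        Complex.exp (u * t * I)‖ₑ ≤
      ENNReal.ofReal (C * ∫ x : ℝ, ‖φ x‖) *
        (ENNReal.ofReal (T * ∑ q ∈ S, 1 / (q : ℝ)) * E) ^ (1 / 2 : ℝ) := by
  obtain ⟨C, hC, hMS⟩ := BS_ms hM
  refine ⟨(2 * C) ^ (1 / 2 : ℝ) * (2 * Real.pi) ^ (1 / 2 : ℝ), by positivity,
    fun S T c φ g a b E hT hS hφ hg hsup hE => ?_⟩
  have hT0 : 0 < T := by linarith
  have hgI : IntegrableOn g (Icc a b) := hg.continuousOn.integrableOn_Icc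
  have hph := Pool.Agent.Lib.MP_6bc78b_nt.GP.H99P.phys (φ := φ) (B := BS S) (G := GB g a b)
    hφ.aestronglyMeasurable (BS_cont S).measurable (GB_cont hgI).measurable T
    (ENNReal.ofReal (C * ∑ q ∈ S, (T + q) / q)) (ENNReal.ofReal (2 * Real.pi) * E)
    (fun a' => hMS S T a' hT (fun q hq => (hS q hq).1))
    ((GB_ms hP hgI).trans (mul_le_mul_right hE _)) c
  calc ∫⁻ t in Icc c (c + T), ‖∫ u : ℝ, FT φ u *
        (∑ q ∈ S, (((q : ℝ) ^ (-(1 / 2) : ℝ) : ℝ) : ℂ) * g (u + Real.log q)) *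
        Complex.exp (u * t * I)‖ₑ
      = ∫⁻ t in Icc c (c + T), ‖∫ x : ℝ, φ x * (BS S (t - x) * GB g a b (t - x))‖ₑ := by
        apply lintegral_congr
        intro t
        rw [piece_eq hφ hg S hsup t]
    _ ≤ _ := hph
    _ ≤ (∫⁻ x : ℝ, ‖φ x‖ₑ) * ((ENNReal.ofReal (2 * C * (T * ∑ q ∈ S, 1 / (q : ℝ)))) ^ (1 / 2 : ℝ) *
          (ENNReal.ofReal (2 * Real.pi) * E) ^ (1 / 2 : ℝ)) := by
        refine mul_le_mul_right (mul_le_mul_left (ENNReal.rpow_le_rpow ?_ (by norm_num)) _) _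
        apply ENNReal.ofReal_le_ofReal
        have h1 : ∑ q ∈ S, (T + q) / q ≤ 2 * (T * ∑ q ∈ S, 1 / (q : ℝ)) := by
          rw [Finset.mul_sum, Finset.mul_sum]
          apply Finset.sum_le_sum
          intro q hq
          have hq0 : (0 : ℝ) < q := by exact_mod_cast (hS q hq).1
          rw [← mul_assoc, mul_one_div]
          exact div_le_div_of_nonneg_right (by linarith [(hS q hq).2]) hq0.le
        nlinarith
    _ = ENNReal.ofReal ((2 * C) ^ (1 / 2 : ℝ) * (2 * Real.pi) ^ (1 / 2 : ℝ) * ∫ x : ℝ, ‖φ x‖) *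
        (ENNReal.ofReal (T * ∑ q ∈ S, 1 / (q : ℝ)) * E) ^ (1 / 2 : ℝ) := by
        have h2 : ∫⁻ x : ℝ, ‖φ x‖ₑ = ENNReal.ofReal (∫ x : ℝ, ‖φ x‖) := by
          rw [ofReal_integral_norm_eq_lintegral_enorm hφ]
        have e1 : ENNReal.ofReal ((2 * C) ^ (1 / 2 : ℝ) * (2 * Real.pi) ^ (1 / 2 : ℝ) *
            ∫ x : ℝ, ‖φ x‖) = ENNReal.ofReal (2 * C) ^ (1 / 2 : ℝ) *
            ENNReal.ofReal (2 * Real.pi) ^ (1 / 2 : ℝ) * ENNReal.ofReal (∫ x : ℝ, ‖φ x‖) := by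
          rw [ENNReal.ofReal_mul (by positivity), ENNReal.ofReal_mul (by positivity),
            ENNReal.ofReal_rpow_of_pos (by positivity), ENNReal.ofReal_rpow_of_pos (by positivity)]
        rw [h2, e1, ENNReal.ofReal_mul (p := 2 * C) (by positivity),
          ENNReal.mul_rpow_of_nonneg _ _ (by norm_num : (0 : ℝ) ≤ 1 / 2),
          ENNReal.mul_rpow_of_nonneg _ _ (by norm_num : (0 : ℝ) ≤ 1 / 2),
          ENNReal.mul_rpow_of_nonneg _ _ (by norm_num : (0 : ℝ) ≤ 1 / 2)]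
        ring

end Pool.Agent.Lib.MP_6bc78b_nt.GP.H91
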